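import Pool.Agent.H35.ZCL.Cls

/-!
# Statements about the sections of a family, glued
-/

set_option autoImplicit false

namespace Pool.ZCL

open Finset Real MvPolynomial
open Pool.Agent.H49.Ent Pool.Agent.H32.Dense Pool.STK Pool.KA Pool.KSAT Pool.K2S Pool.PB

variable {m J : ℕ}

/-- The law conditioned on an event depends on the event only. -/
theorem cond_iff {Ω S T : Type} [Fintype Ω] (p : Ω → ℝ) {f : Ω → S} {g : Ω → T} {a : S} {b : T}
    (h : ∀ ω, f ω = a ↔ g ω = b) : cond p f a = cond p g b := by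
  classical
  have h1 : law p f a = law p g b := by
    unfold law
    refine Finset.sum_congr rfl fun ω _ => ?_
    by_cases h2 : f ω = a
    · rw [if_pos h2, if_pos ((h ω).1 h2)]
    · rw [if_neg h2, if_neg (fun h3 => h2 ((h ω).2 h3))]
  funext ω
  unfold Pool.Agent.H49.Ent.cond
  rw [h1]
  by_cases h2 : f ω = a
  · rw [if_pos h2, if_pos ((h ω).1 h2)]
  · rw [if_neg h2, if_neg (fun h3 => h2 ((h ω).2 h3))]

/-- A part of a section. -/
theorem cond_part {Ω V : Type} [Fintype Ω] {p : Ω → ℝ} (c : Ω → V) (B : Ω → Prop) {v : V}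
    (hv : law p c v ≠ 0) (hB : law p B True ≠ 0) :
    cond (cond p c v) (fun ω => B ω ∧ c ω = v) True = cond (cond p B True) c v := by
  rw [cond_cond p c (fun _ => fun ω => B ω ∧ c ω = v) hv, cond_cond p B (fun _ => c) hB]
  refine cond_iff p fun ω => ?_
  constructor
  · intro h
    have h1 : c ω = v := (Prod.ext_iff.1 h).1
    have h2 : (B ω ∧ c ω = v) = True := (Prod.ext_iff.1 h).2
    have h3 : B ω := (of_eq_true h2).1
    exact Prod.ext (eq_true h3) h1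
  · intro h
    have h1 : B ω = True := (Prod.ext_iff.1 h).1
    have h2 : c ω = v := (Prod.ext_iff.1 h).2
    exact Prod.ext h2 (eq_true ⟨of_eq_true h1, h2⟩)

/-- **Lower bounds for conditional entropies, glued.** -/
theorem ch_glue {Ω S T V : Type} [Fintype Ω] {p : Ω → ℝ} (hp : IsLaw p) (X : Ω → S) (W : Ω → T)
    (c : Ω → V) (B : Ω → Prop) {b : ℝ} (hB : 0 < Pe p B)
    (hc : ∀ ω ω', 0 < p ω → 0 < p ω' → B ω → B ω' → W ω = W ω' → c ω = c ω')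
    (h : ∀ ω, 0 < p ω → B ω →
      b < CH (cond (cond p c (c ω)) (fun ω' => B ω' ∧ c ω' = c ω) True) X W) :
    b < CH (cond p B True) X W := by
  classical
  have h0 := hp.nonneg
  have hlaw := isLaw_cond hp hB
  have hB' : law p B True ≠ 0 := by
    have : Pe p B = law p B True := rfl
    rw [← this]
    exact hB.ne'
  have e1 : CH (cond p B True) X W = CH (cond p B True) X (fun ω => (W ω, c ω)) := by
    refine CH_congr hlaw.nonneg ?_ ?_ ?_ ?_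
    · intro ω ω' _ _ h3
      exact (Prod.ext_iff.1 h3).1
    · intro ω ω' _ _ h3
      exact (Prod.ext_iff.1 h3).1
    · intro ω ω' h1 h2 h3
      have h4 := (cond_pos_iff h0 B True ω).1 h1
      have h5 := (cond_pos_iff h0 B True ω').1 h2
      exact Prod.ext h3 (hc ω ω' h4.1 h5.1 (of_eq_true h4.2) (of_eq_true h5.2) h3)
    · intro ω ω' _ _ h3
      exact (Prod.ext_iff.1 h3).1
  rw [e1, ← Ex_CH hlaw.nonneg X W c]
  have e2 : b = ∑ ω, cond p B True ω * b := by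
    rw [← Finset.sum_mul, hlaw.sum_one, one_mul]
  rw [e2]
  unfold Ex
  obtain ⟨ω₀, hω₀⟩ : ∃ ω, 0 < cond p B True ω := by
    by_contra hcon
    push Not at hcon
    have : ∑ ω, cond p B True ω ≤ 0 := Finset.sum_nonpos fun ω _ => hcon ω
    rw [hlaw.sum_one] at this
    linarith
  have key : ∀ ω, 0 < cond p B True ω →
      b < CH (cond (cond p B True) c (c ω)) X W := by
    intro ω hω
    have h4 := (cond_pos_iff h0 B True ω).1 hω
    have h5 := h ω h4.1 (of_eq_true h4.2)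
    rw [cond_part c B (law_pos h0 c h4.1).ne' hB'] at h5
    exact h5
  refine Finset.sum_lt_sum (fun ω _ => ?_) ⟨ω₀, Finset.mem_univ _, ?_⟩
  · rcases (hlaw.nonneg ω).eq_or_lt with h1 | h1
    · rw [← h1, zero_mul, zero_mul]
    · exact mul_le_mul_of_nonneg_left (key ω h1).le h1.le
  · exact mul_lt_mul_of_pos_left (key ω₀ hω₀) hω₀

/-- A choice which depends on the side information only. -/
theorem sel_choice {G : Fam m J} {κ : Type} {c : G.Ω → κ} {B : G.Ω → Prop} (hS : Sel G c B)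
    {α : Type} [Nonempty α] {P : α → G.Ω → Prop}
    (h : ∀ ω, 0 < G.p ω → B ω → ∃ a : α, ∀ ω', (B ω' ∧ c ω' = c ω) → P a ω') :
    ∃ f : G.ζ → α, ∀ ω, B ω → G.p ω ≠ 0 → P (f (G.Z ω)) ω := by
  classical
  have hp := G.isLaw
  have key : ∀ z : G.ζ, ∃ a : α, ∀ ω, B ω → G.p ω ≠ 0 → G.Z ω = z → P a ω := by
    intro z
    by_cases hz : ∃ ω, B ω ∧ G.p ω ≠ 0 ∧ G.Z ω = z
    · obtain ⟨ω₀, h1, h2, h3⟩ := hz
      obtain ⟨a, ha⟩ := h ω₀ (lt_of_le_of_ne (hp.nonneg ω₀) (Ne.symm h2)) h1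
      exact ⟨a, fun ω hω _ hωz => ha ω ⟨hω, hS.2 ω ω₀ hω h1 (hωz.trans h3.symm)⟩⟩
    · exact ⟨Classical.arbitrary α, fun ω h1 h2 h3 => absurd ⟨ω, h1, h2, h3⟩ hz⟩
  choose f hf using key
  exact ⟨f, fun ω h1 h2 => hf (G.Z ω) ω h1 h2 rfl⟩

/-- **Planks, glued.** -/
theorem plu_glue {G : Fam m J} {κ : Type} {c : G.Ω → κ} {B : G.Ω → Prop} (hS : Sel G c B)
    {j : ℕ} {ρ : ℝ}
    (h : ∀ ω, 0 < G.p ω → B ω → ∀ hl : IsLaw (cond G.p c (c ω)),
      PlU j ρ (Fam.pt (G.res c (c ω) hl)) (G.res c (c ω) hl).d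
        (fun ω' => B ω' ∧ c ω' = c ω)) :
    PlU j ρ (Fam.pt G) G.d (fun ω => B ω ∧ G.p ω ≠ 0) := by
  classical
  have hp := G.isLaw
  obtain ⟨f, hf⟩ := sel_choice hS
    (α := (Fin m → ℤ) × (ℕ × G.ζ) → (Fin m → ℝ) × (Fin j → Fin m → ℝ))
    (P := fun f ω => ∃ a : Fin j → ℝ, ∀ i, |G.d ω i - (f (Fam.pt G ω)).1 i -
      ∑ l, a l * (f (Fam.pt G ω)).2 l i| ≤ ρ) (fun ω hω hB => by
      obtain ⟨ζ, hζ⟩ := h ω hω hB (isLaw_sec hp c hω)
      exact ⟨ζ, fun ω' hω' => hζ ω' hω'⟩)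
  exact ⟨fun s => f s.2.2 s, fun ω hω => hf ω hω.1 hω.2⟩

/-- **Labels, glued.** -/
theorem lab_glue {G : Fam m J} {κ : Type} {c : G.Ω → κ} {B : G.Ω → Prop} (hS : Sel G c B)
    {i₁ : Fin m} {r K a w P : ℕ}
    (h : ∀ ω, 0 < G.p ω → B ω → ∀ hl : IsLaw (cond G.p c (c ω)),
      Lab (G.res c (c ω) hl) i₁ r K a w P (fun ω' => B ω' ∧ c ω' = c ω)) :
    Lab G i₁ r K a w P (fun ω => B ω ∧ G.p ω ≠ 0) := by
  classical
  have hp := G.isLaw
  have hne : Nonempty {x : ((Fin m → ℤ) × (ℕ × G.ζ) → MvPolynomial (Fin m) ℝ) ×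
      (((Fin m → ℝ) × (Fin m → ℝ)) × G.ζ × ℕ → MvPolynomial (Fin m) ℝ) //
      (∀ y, (x.1 y).totalDegree ≤ K) ∧ ∀ s, (x.2 s).totalDegree ≤ K} :=
    ⟨⟨(fun _ => 0, fun _ => 0), by simp⟩⟩
  obtain ⟨f, hf⟩ := sel_choice hS
    (α := {x : ((Fin m → ℤ) × (ℕ × G.ζ) → MvPolynomial (Fin m) ℝ) ×
      (((Fin m → ℝ) × (Fin m → ℝ)) × G.ζ × ℕ → MvPolynomial (Fin m) ℝ) //
      (∀ y, (x.1 y).totalDegree ≤ K) ∧ ∀ s, (x.2 s).totalDegree ≤ K})
    (P := fun x ω => |G.x ω i₁ - eval (bp G i₁ ω) (x.1.1 (ptr G r ω))| ≤ 1 / 2 ^ P ∧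
      ∀ b : Fin m → ℝ, (∀ j, |b j - bp G i₁ ω j| ≤ 1 / 2 ^ a) →
        (∀ j, |eval b (pderiv j (x.1.1 (ptr G r ω)))| ≤ 2 * m) ∧
        |eval b (x.1.1 (ptr G r ω)) - eval b (x.1.2 (slam G w ω))| ≤ 1 / 2 ^ P) (by
      intro ω hω hB
      obtain ⟨Gl, H, h1, h2, h3⟩ := h ω hω hB (isLaw_sec hp c hω)
      exact ⟨⟨(Gl, H), h1, h2⟩, fun ω' hω' => h3 ω' hω'⟩)
  exact ⟨fun s => (f s.2.2).1.1 s, fun s => (f s.2.1).1.2 s, fun y => (f y.2.2).2.1 y,
    fun s => (f s.2.1).2.2 s, fun ω hω => hf ω hω.1 hω.2⟩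

end Pool.ZCL
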