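import Pool.Agent.H18.PB.Row2
import Pool.Agent.H35.ZCL.Glue

/-!
# Leaves in families with side information

`zoom_leaf`: a family with side information, small time deficits, spread fans at all scales and a
tail which is not full has ball labels of almost full precision on windows of small length
exponent, on an event of probability at least `exp (-δ J)`, for every `δ`.
-/

set_option autoImplicit false

namespace Pool.ZCL

open Finset Real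
open Pool.Agent.H49.Ent Pool.Agent.H32.Dense Pool.STK Pool.KA Pool.KSAT Pool.K2S Pool.PB

variable {m J : ℕ}

/-- The data of the sections can be made constant. -/
theorem sec_pigeon {Ω κ ι : Type} [Fintype Ω] [Fintype ι] {p : Ω → ℝ} (hp : IsLaw p)
    (c : Ω → κ) (B : Ω → Prop) (hB : 0 < Pe p B) (Ψ : ι → κ → (Ω → Prop) → Prop)
    (h : ∀ ω, 0 < p ω → B ω → ∃ a, Ψ a (c ω) (fun ω' => B ω' ∧ c ω' = c ω)) :
    ∃ (a : ι) (B' : Ω → Prop), Sub B' B ∧ Pe p B ≤ Fintype.card ι * Pe p B' ∧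
      ∀ ω, 0 < p ω → B' ω → Ψ a (c ω) (fun ω' => B' ω' ∧ c ω' = c ω) := by
  classical
  obtain ⟨ω₀, h1, h2⟩ : ∃ ω, 0 < p ω ∧ B ω := by
    by_contra hcon
    push Not at hcon
    have : Pe p B ≤ 0 := by
      rw [Pe_eq]
      refine Finset.sum_nonpos fun ω _ => ?_
      split_ifs with hω
      · by_contra h3
        push Not at h3
        exact hcon ω h3 hω
      · exact le_rfl
    linarith
  obtain ⟨a₀, -⟩ := h ω₀ h1 h2
  have hk : ∀ v : κ, ∃ a : ι, ∀ ω, 0 < p ω → B ω → c ω = v →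
      Ψ a (c ω) (fun ω' => B ω' ∧ c ω' = c ω) := by
    intro v
    by_cases hv : ∃ ω, 0 < p ω ∧ B ω ∧ c ω = v
    · obtain ⟨ω, h3, h4, h5⟩ := hv
      obtain ⟨a, ha⟩ := h ω h3 h4
      refine ⟨a, fun ω' _ _ h6 => ?_⟩
      rw [h6, ← h5]
      exact ha
    · exact ⟨a₀, fun ω h3 h4 h5 => absurd ⟨ω, h3, h4, h5⟩ hv⟩
  choose k hk using hk
  obtain ⟨e⟩ : Nonempty (ι ≃ Fin (Fintype.card ι)) := ⟨Fintype.equivFin ι⟩
  obtain ⟨hM, k₀, hk₀⟩ := Pe_pigeon hp (fun ω => e (k (c ω))) B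
  have hMr : (0 : ℝ) < Fintype.card ι := by exact_mod_cast hM
  refine ⟨e.symm k₀, fun ω => B ω ∧ k (c ω) = e.symm k₀, fun ω hω => hω.1, ?_,
    fun ω hω hB' => ?_⟩
  · rw [div_le_iff₀ hMr, mul_comm] at hk₀
    refine hk₀.trans (mul_le_mul_of_nonneg_left (Pe_mono hp fun ω hω => ?_) hMr.le)
    refine ⟨hω.2, ?_⟩
    rw [← hω.1, Equiv.symm_apply_apply]
  · have e1 : (fun ω' => (B ω' ∧ k (c ω') = e.symm k₀) ∧ c ω' = c ω) =
        fun ω' => B ω' ∧ c ω' = c ω := by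
      funext ω'
      refine propext ⟨fun h3 => ⟨h3.1.1, h3.2⟩, fun h3 => ⟨⟨h3.1, ?_⟩, h3.2⟩⟩
      rw [h3.2]
      exact hB'.2
    rw [e1, ← hB'.2]
    exact hk (c ω) ω hω hB'.1 rfl

theorem Sel.sub {G : Fam m J} {κ : Type} {c : G.Ω → κ} {B B' : G.Ω → Prop} (h : Sel G c B)
    (hB : Sub B' B) : Sel G c B' :=
  ⟨h.1, fun ω ω' h1 h2 => h.2 ω ω' (hB ω h1) (hB ω' h2)⟩

/-- The bad properties of the sections, glued. -/
theorem bad_glue {j : ℕ} {r : ℝ} {i : ℕ} {G : Fam m J} {κ : Type} {c : G.Ω → κ}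
    {B : G.Ω → Prop} (hS : Sel G c B) (hB : 0 < Pe G.p B)
    (h : ∀ ω, 0 < G.p ω → B ω → ∀ hl : IsLaw (cond G.p c (c ω)),
      stdBad m j r i J (G.res c (c ω) hl) (fun ω' => B ω' ∧ c ω' = c ω)) :
    (∃ B' : G.Ω → Prop, Sub B' B ∧ Pe G.p B ≤ (J + 2 : ℕ) * Pe G.p B' ∧
      PlU j (1 / 2 ^ ⌊1 / ((i : ℝ) + 1) * J⌋₊) (Fam.pt G) G.d B') ∨
    ∃ (B' : G.Ω → Prop) (P : ℕ), Sub B' B ∧ Pe G.p B ≤ (J + 2 : ℕ) * Pe G.p B' ∧
      P ≤ J ∧ J ≤ 2 * P ∧ (m * Real.log 2 - r) * ((J : ℝ) - P) + 1 / ((i : ℝ) + 1) * J <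
        CH (Pool.Agent.H49.Ent.cond G.p B' True) (G.X J) (fun ω => (G.X P ω, G.W ω)) := by
  classical
  have hp := G.isLaw
  obtain ⟨a, B', hB', hP, hsec⟩ := sec_pigeon (ι := Fin (J + 2)) hp c B hB
    (fun a v E => ∀ hl : IsLaw (cond G.p c v),
      ((a : ℕ) = J + 1 ∧ BadS m j (1 / ((i : ℝ) + 1)) J (G.res c v hl) E) ∨
      ((a : ℕ) ≤ J ∧ J ≤ 2 * (a : ℕ) ∧
        (m * Real.log 2 - r) * ((J : ℝ) - (a : ℕ)) + 1 / ((i : ℝ) + 1) * J <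
        CH (Pool.Agent.H49.Ent.cond (G.res c v hl).p E True) ((G.res c v hl).X J)
          (fun ω => ((G.res c v hl).X (a : ℕ) ω, (G.res c v hl).W ω))))
    (by
      intro ω hω hBω
      rcases h ω hω hBω (isLaw_sec hp c hω) with h1 | ⟨P, h1, h2, h3⟩
      · exact ⟨⟨J + 1, by omega⟩, fun hl => Or.inl ⟨rfl, h1⟩⟩
      · exact ⟨⟨P, by omega⟩, fun hl => Or.inr ⟨h1, h2, h3⟩⟩)
  rw [Fintype.card_fin] at hP
  have hB0 : 0 < Pe G.p B' := by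
    by_contra h1
    push Not at h1
    have h2 : ((J + 2 : ℕ) : ℝ) * Pe G.p B' ≤ 0 :=
      mul_nonpos_of_nonneg_of_nonpos (Nat.cast_nonneg _) h1
    linarith
  have hS' := hS.sub hB'
  by_cases ha : (a : ℕ) = J + 1
  · left
    refine ⟨fun ω => B' ω ∧ G.p ω ≠ 0, fun ω hω => hB' ω hω.1, ?_,
      plu_glue hS' fun ω hω hBω hl => ?_⟩
    · rw [Pe_supp]
      exact hP
    · rcases hsec ω hω hBω hl with h1 | h1
      · exact h1.2
      · omega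
  · right
    refine ⟨B', a, hB', hP, ?_⟩
    obtain ⟨ω₀, h1, h2⟩ : ∃ ω, 0 < G.p ω ∧ B' ω := by
      by_contra hcon
      push Not at hcon
      have : Pe G.p B' ≤ 0 := by
        rw [Pe_eq]
        refine Finset.sum_nonpos fun ω _ => ?_
        split_ifs with hω
        · by_contra h3
          push Not at h3
          exact hcon ω h3 hω
        · exact le_rfl
      linarith
    have h3 : (a : ℕ) ≤ J ∧ J ≤ 2 * (a : ℕ) := by
      rcases hsec ω₀ h1 h2 (isLaw_sec hp c h1) with h4 | h4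
      · exact absurd h4.1 ha
      · exact ⟨h4.1, h4.2.1⟩
    refine ⟨h3.1, h3.2, ch_glue hp _ _ c B' hB0 ?_ fun ω hω hBω => ?_⟩
    · intro ω ω' _ _ h5 h6 h7
      exact hS'.2 ω ω' h5 h6 (Prod.ext_iff.1 (Prod.ext_iff.1 h7).2).2
    · rcases hsec ω hω hBω (isLaw_sec hp c hω) with h4 | h4
      · exact absurd h4.1 ha
      · exact h4.2.2

/-- **Claims in the sections of a family with side information**, for the class of zooms. The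
spread of the fans and the tail are used at finitely many scales only. -/
theorem zoom_sec {j : ℕ} {r : ℝ} {ψ : ℕ → ℝ} (hψ : ∀ i, 0 < ψ i) {Φ : Stat m}
    (hΦ : Clg (zs m j (fun _ _ => True) r ψ) Φ) {B₀ : ℝ} (hB₀ : 0 < B₀) {δ : ℝ} (hδ : 0 < δ) :
    ∃ η > 0, ∃ n J₁ : ℕ, ∀ J ≥ J₁, ∀ G : Fam m J, G.Tm (η * J) →
      (∀ z, 0 < law G.p G.Z z → H (cond G.p G.Z z) G.l ≤ B₀ * J) →
      (∀ i ≤ n, ∀ B : G.Ω → Prop, Real.exp (-(3 * ψ i * J)) ≤ Pe G.p B →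
        ¬ PlU j (1 / 2 ^ ⌊1 / ((i : ℝ) + 1) * J⌋₊) (Fam.pt G) G.d B) →
      (∀ i ≤ n, ∀ B : G.Ω → Prop, Real.exp (-(3 * ψ i * J)) ≤ Pe G.p B →
        ∀ P : ℕ, P ≤ J → J ≤ 2 * P →
        CH (Pool.Agent.H49.Ent.cond G.p B True) (G.X J) (fun ω => (G.X P ω, G.W ω)) ≤
          (m * Real.log 2 - r) * ((J : ℝ) - P) + 1 / ((i : ℝ) + 1) * J) →
      ∃ (κ : Type) (c : G.Ω → κ) (B : G.Ω → Prop), Sel G c B ∧
        Real.exp (-(δ * J)) ≤ Pe G.p B ∧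
        ∀ ω, 0 < G.p ω → B ω → ∀ h : IsLaw (cond G.p c (c ω)),
          Φ J (G.res c (c ω) h) (fun ω' => B ω' ∧ c ω' = c ω) := by
  classical
  obtain ⟨η, hη, n, J₁, hcore⟩ := zcl_core (Good := fun _ _ => True) (Bad := stdBad m j r)
    hψ stdBad_inv hΦ hB₀ hδ
  -- the resolution
  obtain ⟨J₂, hJ₂⟩ : ∃ J₂ : ℕ, ∀ J ≥ J₂, ∀ i ≤ n, ((J + 2 : ℕ) : ℝ) ≤ Real.exp (ψ i * J) := by
    have key : ∀ i : ℕ, ∃ J₂ : ℕ, ∀ J ≥ J₂, ((J + 2 : ℕ) : ℝ) ≤ Real.exp (ψ i * J) := by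
      intro i
      have hψi := hψ i
      obtain ⟨J₃, hJ₃⟩ := exists_nat_gt (2 / ψ i ^ 2 + 2 / ψ i ^ 2 + 2)
      refine ⟨J₃, fun J hJ => ?_⟩
      have h1 : 2 / ψ i ^ 2 + 2 / ψ i ^ 2 + 2 < J := hJ₃.trans_le (by exact_mod_cast hJ)
      have h2 : 0 < 2 / ψ i ^ 2 := by positivity
      have hJ2 : (2 : ℝ) ≤ J := by linarith
      have h3 : 4 / ψ i ^ 2 ≤ J := by
        have : 4 / ψ i ^ 2 = 2 / ψ i ^ 2 + 2 / ψ i ^ 2 := by ring
        linarith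
      rw [div_le_iff₀ (by positivity)] at h3
      have h4 : (ψ i * J) ^ 2 / 2 ≤ Real.exp (ψ i * J) := by
        have h5 := Real.quadratic_le_exp_of_nonneg (x := ψ i * J) (by positivity)
        have h6 : 0 ≤ ψ i * (J : ℝ) := by positivity
        linarith
      have h7 : (2 : ℝ) * J ≤ (ψ i * J) ^ 2 / 2 := by
        have e1 : (ψ i * (J : ℝ)) ^ 2 / 2 = J * (J * ψ i ^ 2) / 2 := by ring
        rw [e1]
        nlinarith
      push_cast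
      linarith
    choose J₂ hJ₂ using key
    refine ⟨∑ i ∈ range (n + 1), J₂ i, fun J hJ i hi => hJ₂ i J (le_trans ?_ hJ)⟩
    exact Finset.single_le_sum (f := J₂) (fun _ _ => Nat.zero_le _)
      (Finset.mem_range.2 (by omega))
  refine ⟨η, hη, n, max J₁ J₂, fun J hJ G hTm hl hspr htail => ?_⟩
  have hJ1 : J₁ ≤ J := (le_max_left _ _).trans hJ
  have hJ2 : J₂ ≤ J := (le_max_right _ _).trans hJ
  have hp := G.isLaw
  refine hcore J hJ1 G hTm hl (fun _ _ _ _ _ => trivial) ?_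
  intro i hi κ c B hSel hPB hbad
  have hB0 : 0 < Pe G.p B := lt_of_lt_of_le (Real.exp_pos _) hPB
  have hstep : ∀ B' : G.Ω → Prop, Pe G.p B ≤ (J + 2 : ℕ) * Pe G.p B' →
      Real.exp (-(3 * ψ i * J)) ≤ Pe G.p B' := by
    intro B' hB'
    have h1 := hJ₂ J hJ2 i hi
    have h3 : Real.exp (-(2 * ψ i * J)) ≤ Real.exp (ψ i * J) * Pe G.p B' :=
      hPB.trans (hB'.trans (mul_le_mul_of_nonneg_right h1 (Pe_nonneg hp B')))
    have h4 : Real.exp (-(3 * ψ i * J)) =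
        Real.exp (-(ψ i * J)) * Real.exp (-(2 * ψ i * J)) := by
      rw [← Real.exp_add]
      congr 1
      ring
    rw [h4]
    calc _ ≤ Real.exp (-(ψ i * J)) * (Real.exp (ψ i * J) * Pe G.p B') :=
          mul_le_mul_of_nonneg_left h3 (Real.exp_pos _).le
      _ = Pe G.p B' := by
          rw [← mul_assoc, ← Real.exp_add]
          have : -(ψ i * (J : ℝ)) + ψ i * J = 0 := by ring
          rw [this, Real.exp_zero, one_mul]
  rcases bad_glue hSel hB0 hbad with ⟨B', h1, h2, h3⟩ | ⟨B', P, h1, h2, h3, h4, h5⟩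
  · exact hspr i hi B' (hstep B' h2) h3
  · exact absurd (htail i hi B' (hstep B' h2) P h3 h4) (not_le.2 h5)

/-- **Leaves in families with side information.** -/
theorem zoom_leaf (hSTP : ∀ S : FCl m, SPS S (m - 2) → STP S)
    (hSLP : ∀ S : FCl m, SPS S (m - 2) → SLP S) (hCHS : ∀ S : FCl m, TLS S → CHS S)
    {r : ℝ} (hr : 0 < r) {ψ : ℕ → ℝ} (hψ : ∀ i, 0 < ψ i) {B₀ : ℝ} (hB₀ : 0 < B₀)
    {x : ℝ} (hx : 0 < x) (nf : ℕ → ℕ) :
    ∃ N K₁ : ℕ, ∀ δ > 0, ∃ η > 0, ∃ n J₁ : ℕ, ∀ J ≥ J₁, ∀ G : Fam m J, G.Tm (η * J) →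
      (∀ z, 0 < law G.p G.Z z → H (cond G.p G.Z z) G.l ≤ B₀ * J) →
      (∀ i ≤ n, ∀ B : G.Ω → Prop, Real.exp (-(3 * ψ i * J)) ≤ Pe G.p B →
        ¬ PlU (m - 2) (1 / 2 ^ ⌊1 / ((i : ℝ) + 1) * J⌋₊) (Fam.pt G) G.d B) →
      (∀ i ≤ n, ∀ B : G.Ω → Prop, Real.exp (-(3 * ψ i * J)) ≤ Pe G.p B →
        ∀ P : ℕ, P ≤ J → J ≤ 2 * P →
        CH (Pool.Agent.H49.Ent.cond G.p B True) (G.X J) (fun ω => (G.X P ω, G.W ω)) ≤
          (m * Real.log 2 - r) * ((J : ℝ) - P) + 1 / ((i : ℝ) + 1) * J) →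
      ∃ B : G.Ω → Prop, Real.exp (-(δ * J)) ≤ Pe G.p B ∧ ∃ K ≤ K₁, nf K ≤ N ∧
        ∃ (i₁ : Fin m) (i p ρ : ℕ), (i : ℝ) ≤ x * N ∧ i ≤ ρ ∧ (1 - x) * N ≤ p ∧ p < ρ ∧
          ρ ≤ N ∧ Bl G i₁ N K ρ i p B := by
  classical
  obtain ⟨S, hS⟩ : ∃ S : FCl m, S = zs m (m - 2) (fun _ _ => True) r ψ := ⟨_, rfl⟩
  have hsps : SPS S (m - 2) := by rw [hS]; exact sps_zs hψ
  have htls : TLS S := by rw [hS]; exact tls_zs hr hψ
  obtain ⟨N, K₁, hleaf⟩ := leaf_thm (hCHS S htls) (row_cls htls) (hSTP S hsps) (hSLP S hsps)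
    x hx nf
  refine ⟨N, K₁, fun δ hδ => ?_⟩
  rw [hS] at hleaf
  obtain ⟨η, hη, n, J₁, hcore⟩ := zoom_sec hψ hleaf hB₀ (half_pos hδ)
  obtain ⟨M, hM⟩ : ∃ M : ℕ, M = Fintype.card (Fin (K₁ + 1) × Fin m × Fin (N + 1) × Fin (N + 1) ×
    Fin (N + 1)) := ⟨_, rfl⟩
  obtain ⟨J₃, hJ₃⟩ := exists_nat_gt (2 * |Real.log (M + 1)| / δ)
  refine ⟨η, hη, n, max J₁ J₃, fun J hJ G hTm hl hspr htail => ?_⟩
  have hJ1 : J₁ ≤ J := (le_max_left _ _).trans hJ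
  have hJ3 : J₃ ≤ J := (le_max_right _ _).trans hJ
  have hp := G.isLaw
  obtain ⟨κ, c, B, hSel, hPB, hsec⟩ := hcore J hJ1 G hTm hl hspr htail
  have hB0 : 0 < Pe G.p B := lt_of_lt_of_le (Real.exp_pos _) hPB
  obtain ⟨a, B', hB', hP, hsec'⟩ := sec_pigeon
    (ι := Fin (K₁ + 1) × Fin m × Fin (N + 1) × Fin (N + 1) × Fin (N + 1)) hp c B hB0
    (fun a v E => ∀ hl : IsLaw (cond G.p c v), nf (a.1 : ℕ) ≤ N ∧
      (((a.2.2.1 : ℕ) : ℝ) ≤ x * N ∧ (a.2.2.1 : ℕ) ≤ (a.2.2.2.2 : ℕ) ∧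
        (1 - x) * N ≤ ((a.2.2.2.1 : ℕ) : ℝ) ∧ (a.2.2.2.1 : ℕ) < (a.2.2.2.2 : ℕ)) ∧
      Bl (G.res c v hl) a.2.1 N (a.1 : ℕ) (a.2.2.2.2 : ℕ) (a.2.2.1 : ℕ) (a.2.2.2.1 : ℕ) E)
    (by
      intro ω hω hBω
      obtain ⟨K, hK, hn, i₁, i, p, ρ, h1, h2, h3, h4, h5, h6⟩ :=
        hsec ω hω hBω (isLaw_sec hp c hω)
      exact ⟨(⟨K, by omega⟩, i₁, ⟨i, by omega⟩, ⟨p, by omega⟩, ⟨ρ, by omega⟩),
        fun hl => ⟨hn, ⟨h1, h2, h3, h4⟩, h6⟩⟩)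
  rw [← hM] at hP
  have hPB' : Real.exp (-(δ * J)) ≤ Pe G.p B' := by
    have h1 : 2 * |Real.log (M + 1)| / δ < J := hJ₃.trans_le (by exact_mod_cast hJ3)
    rw [div_lt_iff₀ hδ] at h1
    have h2 : Real.log (M + 1) ≤ δ / 2 * J := by
      have := le_abs_self (Real.log ((M : ℝ) + 1))
      linarith
    rw [Real.log_le_iff_le_exp (by positivity)] at h2
    have h3 : Real.exp (-(δ / 2 * J)) ≤ Real.exp (δ / 2 * J) * Pe G.p B' :=
      hPB.trans (hP.trans (mul_le_mul_of_nonneg_right (by linarith) (Pe_nonneg hp B')))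
    have h4 : Real.exp (-(δ * J)) = Real.exp (-(δ / 2 * J)) * Real.exp (-(δ / 2 * J)) := by
      rw [← Real.exp_add]
      congr 1
      ring
    rw [h4]
    calc _ ≤ Real.exp (-(δ / 2 * J)) * (Real.exp (δ / 2 * J) * Pe G.p B') :=
          mul_le_mul_of_nonneg_left h3 (Real.exp_pos _).le
      _ = Pe G.p B' := by
          rw [← mul_assoc, ← Real.exp_add]
          have : -(δ / 2 * (J : ℝ)) + δ / 2 * J = 0 := by ring
          rw [this, Real.exp_zero, one_mul]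
  obtain ⟨ω₀, g1, g2⟩ : ∃ ω, 0 < G.p ω ∧ B' ω := by
    by_contra hcon
    push Not at hcon
    have : Pe G.p B' ≤ 0 := by
      rw [Pe_eq]
      refine Finset.sum_nonpos fun ω _ => ?_
      split_ifs with hω
      · by_contra h3
        push Not at h3
        exact hcon ω h3 hω
      · exact le_rfl
    have := lt_of_lt_of_le (Real.exp_pos _) hPB'
    linarith
  obtain ⟨k1, ⟨k2, k3, k4, k5⟩, -⟩ := hsec' ω₀ g1 g2 (isLaw_sec hp c g1)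
  refine ⟨fun ω => B' ω ∧ G.p ω ≠ 0, ?_, a.1, by have := a.1.2; omega, k1, a.2.1, a.2.2.1,
    a.2.2.2.1, a.2.2.2.2, k2, k3, k4, k5, by have := a.2.2.2.2.2; omega, ?_⟩
  · rw [Pe_supp]
    exact hPB'
  · exact lab_glue (hSel.sub hB') fun ω hω hBω hl => (hsec' ω hω hBω hl).2.2

end Pool.ZCL
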