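import Pool.Agent.H33.K2.REX
import Pool.Agent.H97.K2.RTY
import Pool.Agent.H35.K2S.Dich
import Pool.Agent.H13.K2S.Claim
import Pool.Agent.H13.K2S.Cht
import Pool.Agent.H34.KA.TYA

/-!
# Regular parts of the sections of a family

A family with small time deficit and any side information is decomposed, in each section of the
side information, into boundedly many parts; outside a small probability the parts are regular
families with constant side information and small time deficits.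
-/

set_option autoImplicit false

namespace Pool.ZCL

open Finset Real
open Pool.Agent.H49.Ent Pool.Agent.H32.Dense Pool.STK Pool.KA Pool.K2S

/-- Conditioning in two steps. -/
theorem cond_cond {Ω T κ : Type} [Fintype Ω] (p : Ω → ℝ) (Z : Ω → T) (t : T → Ω → κ) {z : T}
    {i : κ} (hz : law p Z z ≠ 0) :
    cond (cond p Z z) (t z) i = cond p (fun ω => (Z ω, t (Z ω) ω)) (z, i) := by
  classical
  have key : ∀ ω, ((Z ω, t (Z ω) ω) = (z, i)) ↔ (t z ω = i ∧ Z ω = z) := by
    intro ω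
    constructor
    · intro h
      have h1 : Z ω = z := (Prod.ext_iff.1 h).1
      have h2 : t (Z ω) ω = i := (Prod.ext_iff.1 h).2
      rw [h1] at h2
      exact ⟨h2, h1⟩
    · rintro ⟨h1, h2⟩
      refine Prod.ext h2 ?_
      change t (Z ω) ω = i
      rw [h2]
      exact h1
  have h1 : law (cond p Z z) (t z) i = law p (fun ω => (t z ω, Z ω)) (i, z) / law p Z z :=
    law_cond p (t z) Z z i
  have h2 : law p (fun ω => (t z ω, Z ω)) (i, z) =
      law p (fun ω => (Z ω, t (Z ω) ω)) (z, i) := by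
    unfold law
    refine Finset.sum_congr rfl fun ω _ => ?_
    by_cases h : t z ω = i ∧ Z ω = z
    · rw [if_pos (Prod.ext h.1 h.2), if_pos ((key ω).2 h)]
    · rw [if_neg (fun h' => h ⟨(Prod.ext_iff.1 h').1, (Prod.ext_iff.1 h').2⟩),
        if_neg (fun h' => h ((key ω).1 h'))]
  funext ω
  unfold Pool.Agent.H49.Ent.cond
  have h3 : law (fun ω => if Z ω = z then p ω / law p Z z else 0) (t z) i =
      law p (fun ω => (Z ω, t (Z ω) ω)) (z, i) / law p Z z := by
    rw [← h2, ← h1]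
    rfl
  by_cases h : t z ω = i ∧ Z ω = z
  · rw [if_pos h.1, if_pos h.2, if_pos ((key ω).2 h)]
    have h4 : law (fun ω => if Z ω = z then p ω / law p Z z else 0) (t z) i =
      law p (fun ω => (Z ω, t (Z ω) ω)) (z, i) / law p Z z := h3
    have h5 : ∀ a b c : ℝ, c ≠ 0 → a / c / (b / c) = a / b := by
      intro a b c hc
      field_simp
    refine Eq.trans ?_ (h5 (p ω) (law p (fun ω => (Z ω, t (Z ω) ω)) (z, i)) (law p Z z) hz)
    rw [← h4]
  · rw [if_neg (fun h' => h ((key ω).1 h'))]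
    by_cases ht : t z ω = i
    · rw [if_pos ht, if_neg (fun h' => h ⟨ht, h'⟩), zero_div]
    · rw [if_neg ht]

/-- The mean of the conditional entropies in the sections. -/
theorem Ex_CH {Ω S T V : Type} [Fintype Ω] {p : Ω → ℝ} (hp : ∀ ω, 0 ≤ p ω) (X : Ω → S)
    (W : Ω → T) (c : Ω → V) :
    Ex p (fun ω => CH (cond p c (c ω)) X W) = CH p X (fun ω => (W ω, c ω)) := by
  have h1 : (fun ω => CH (cond p c (c ω)) X W) = fun ω =>
      H (cond p c (c ω)) (fun ω => (X ω, W ω)) - H (cond p c (c ω)) W := rfl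
  rw [h1, Ex_sub, Pool.KAL.CDF.Ex_H hp, Pool.KAL.CDF.Ex_H hp, CH_chain hp X W c]
  ring

/-- **Regular parts of the sections.** -/
theorem reg_parts (m : ℕ) {B τ ζ : ℝ} (hB : 0 < B) (hτ : 0 < τ) (hζ : 0 < ζ) :
    ∃ M : ℕ, ∃ η > 0, ∃ J₁ : ℕ, ∀ J ≥ J₁, ∀ G : Fam m J, G.Tm (η * J) →
      (∀ z, 0 < law G.p G.Z z → H (cond G.p G.Z z) G.l ≤ B * J) →
      ∃ (k : G.Ω → Fin M) (E : G.ζ × Fin M → Prop),
        1 - ζ ≤ Pe G.p (fun ω => E (G.Z ω, k ω)) ∧
        ∀ v, 0 < law G.p (fun ω => (G.Z ω, k ω)) v → E v →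
          ∃ h : IsLaw (cond G.p (fun ω => (G.Z ω, k ω)) v),
            (G.res _ v h).Tr ∧ (G.res _ v h).Tm (τ * J) ∧ (G.res _ v h).Rb (τ * J) := by
  classical
  have hl2 : 0 < Real.log 2 := Real.log_pos one_lt_two
  obtain ⟨M, hM⟩ := rty_thm 5 (B + (4 * m + 1) * Real.log 2) (τ / 2) (ζ / 3) (by positivity)
    (by positivity) (by positivity)
  obtain ⟨J₁, hJ₁⟩ := exists_nat_gt (6 * Real.log M / (τ * ζ) +
    2 * |Real.log (3 * (M + 1) / ζ)| / τ + 3)
  refine ⟨M, τ * ζ / 6, by positivity, J₁, fun J hJ G hTm hl => ?_⟩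
  have hp := G.isLaw
  have h0 := hp.nonneg
  have hJr : 6 * Real.log M / (τ * ζ) + 2 * |Real.log (3 * (M + 1) / ζ)| / τ + 3 < J :=
    hJ₁.trans_le (by exact_mod_cast hJ)
  have q1 : 0 ≤ 6 * Real.log M / (τ * ζ) := by
    have : 0 ≤ Real.log M := Real.log_natCast_nonneg M
    positivity
  have q2 : 0 ≤ 2 * |Real.log (3 * (M + 1) / ζ)| / τ := by positivity
  have hJ3 : (3 : ℝ) < J := by linarith
  have hJ0 : (0 : ℝ) < J := by linarith
  have hJ1 : 1 ≤ J := by
    have : (1 : ℝ) ≤ J := by linarith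
    exact_mod_cast this
  -- the types in one section
  have hsec : ∀ z, 0 < law G.p G.Z z → ∃ (t : G.Ω → Fin M) (bad : Fin M),
      law (cond G.p G.Z z) t bad ≤ ζ / 3 ∧ ∀ k ≠ bad, Real.exp (-(τ / 2 * J)) ≤
        law (cond G.p G.Z z) t k → ∀ i, ∃ h, Rg (cond (cond G.p G.Z z) t k) (REX.lst G i) h
          (2 * (τ / 2) * J) := by
    intro z hz
    have hpz : IsLaw (cond G.p G.Z z) := ⟨cond_nonneg h0 _ _, sum_cond _ _ hz.ne'⟩
    have hz0 := hpz.nonneg
    refine hM J hJ1 G.Ω (REX.S m) _ hpz (REX.lst G) fun i => ?_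
    have hTz : H (cond G.p G.Z z) G.T ≤ J * Real.log 2 := by
      have h1 := TRC.CH_lt hpz G.T (fun _ => ()) J G.tim
      have h2 : CH (cond G.p G.Z z) G.T (fun _ : G.Ω => ()) =
          H (cond G.p G.Z z) (fun ω => (G.T ω, ())) - H (cond G.p G.Z z) (fun _ => ()) := rfl
      rw [h2, H_const hpz.sum_one, sub_zero] at h1
      refine le_trans (H_mono hz0 fun ω ω' _ _ e => ?_) h1
      exact (Prod.ext_iff.1 e).1
    have hlz := hl z hz
    have hpair : H (cond G.p G.Z z) (fun ω => (G.l ω, G.T ω)) ≤ B * J + J * Real.log 2 :=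
      (subadd hz0 hpz.sum_one (X := G.l) (Y := G.T) fun _ _ _ _ h1 => h1).trans
        (add_le_add hlz hTz)
    have hBJ : B * J + J * Real.log 2 ≤ (B + (4 * m + 1) * Real.log 2) * J := by
      have : 0 ≤ 4 * (m : ℝ) * Real.log 2 * J := by positivity
      nlinarith
    match i with
    | 0 =>
      change H (cond G.p G.Z z) (G.D J) ≤ _
      refine le_trans (H_mono hz0 fun ω ω' _ _ e => ?_) (hpair.trans hBJ)
      have h1 : G.d ω = G.d ω' := (Prod.ext_iff.1 (Prod.ext_iff.1 e).1).2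
      unfold Fam.D
      rw [h1]
    | 1 =>
      change H (cond G.p G.Z z) (fun ω => (G.X J ω, G.T ω)) ≤ _
      refine le_trans (H_mono hz0 fun ω ω' _ _ e => ?_) (hpair.trans hBJ)
      have h1 := Prod.ext_iff.1 e
      have h2 : G.u ω = G.u ω' := (Prod.ext_iff.1 h1.1).1
      have h3 : G.d ω = G.d ω' := (Prod.ext_iff.1 h1.1).2
      have h4 : G.T ω = G.T ω' := h1.2
      have h5 : G.x ω = G.x ω' := by
        funext i
        unfold Fam.x Fam.t
        rw [h2, h3, h4]
      refine Prod.ext ?_ h4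
      change fl J (G.x ω) = fl J (G.x ω')
      rw [h5]
    | 2 =>
      change H (cond G.p G.Z z) G.T ≤ _
      refine le_trans (H_mono hz0 fun ω ω' _ _ e => ?_) (hpair.trans hBJ)
      exact (Prod.ext_iff.1 e).2
    | 3 => exact hpair.trans hBJ
    | 4 =>
      change H (cond G.p G.Z z) G.l ≤ _
      refine le_trans (H_mono hz0 fun ω ω' _ _ e => ?_) (hpair.trans hBJ)
      exact (Prod.ext_iff.1 e).1
  obtain ⟨ω₀, hω₀⟩ : ∃ ω, 0 < G.p ω := by
    by_contra hcon
    push Not at hcon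
    have : ∑ ω, G.p ω ≤ 0 := Finset.sum_nonpos fun ω _ => hcon ω
    rw [hp.sum_one] at this
    linarith
  have hz₀ : 0 < law G.p G.Z (G.Z ω₀) := law_pos h0 _ hω₀
  have hsec' : ∀ z, ∃ tb : (G.Ω → Fin M) × Fin M, 0 < law G.p G.Z z →
      law (cond G.p G.Z z) tb.1 tb.2 ≤ ζ / 3 ∧ ∀ k ≠ tb.2, Real.exp (-(τ / 2 * J)) ≤
        law (cond G.p G.Z z) tb.1 k → ∀ i, ∃ h, Rg (cond (cond G.p G.Z z) tb.1 k)
          (REX.lst G i) h (2 * (τ / 2) * J) := by
    intro z
    by_cases hz : 0 < law G.p G.Z z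
    · obtain ⟨t, bad, h1, h2⟩ := hsec z hz
      exact ⟨(t, bad), fun _ => ⟨h1, h2⟩⟩
    · obtain ⟨t, bad, -⟩ := hsec _ hz₀
      exact ⟨(t, bad), fun h => absurd h hz⟩
  choose tb htb using hsec'
  obtain ⟨t, ht⟩ : ∃ t : G.ζ → G.Ω → Fin M, t = fun z => (tb z).1 := ⟨_, rfl⟩
  obtain ⟨bad, hbad⟩ : ∃ bad : G.ζ → Fin M, bad = fun z => (tb z).2 := ⟨_, rfl⟩
  have hM1 : 1 ≤ M := by
    have := (bad (G.Z ω₀)).2
    omega
  have hMr : (1 : ℝ) ≤ M := by exact_mod_cast hM1
  obtain ⟨c, hc⟩ : ∃ c : G.Ω → G.ζ × Fin M, c = fun ω => (G.Z ω, t (G.Z ω) ω) := ⟨_, rfl⟩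
  -- the good parts
  obtain ⟨E, hE⟩ : ∃ E : G.ζ × Fin M → Prop, E = fun v => v.2 ≠ bad v.1 ∧
    Real.exp (-(τ / 2 * J)) ≤ law (cond G.p G.Z v.1) (t v.1) v.2 ∧
    (J : ℝ) * Real.log 2 - τ * J ≤ CH (cond G.p c v) G.T G.l := ⟨_, rfl⟩
  refine ⟨fun ω => t (G.Z ω) ω, E, ?_, ?_⟩
  · -- the probability
    have hcE : (fun ω => E (G.Z ω, t (G.Z ω) ω)) = fun ω => E (c ω) := by rw [hc]
    rw [hcE]
    -- the three exceptional sets
    have b1 : Pool.KAF.Pr G.p {ω | t (G.Z ω) ω = bad (G.Z ω)} ≤ ζ / 3 := by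
      rw [← Pool.KAL.CDF.Ex_Pr h0 G.Z]
      have h2 : Ex G.p (fun ω => Pool.KAF.Pr (cond G.p G.Z (G.Z ω))
          {ω | t (G.Z ω) ω = bad (G.Z ω)}) ≤ Ex G.p (fun _ => ζ / 3) := by
        refine Ex_mono h0 fun ω hω => ?_
        have hz : 0 < law G.p G.Z (G.Z ω) := law_pos h0 _ hω
        have h3 := (htb (G.Z ω) hz).1
        refine le_trans (le_of_eq ?_) h3
        rw [Pool.KAL.CDF.Pr_eq]
        unfold law
        refine Finset.sum_congr rfl fun ω' _ => ?_
        by_cases hZ : G.Z ω' = G.Z ω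
        · have e1 : (t (G.Z ω') ω' = bad (G.Z ω')) ↔ ((tb (G.Z ω)).1 ω' = (tb (G.Z ω)).2) := by
            rw [hZ, ht, hbad]
          by_cases h4 : t (G.Z ω') ω' = bad (G.Z ω')
          · rw [if_pos (show ω' ∈ {ω | t (G.Z ω) ω = bad (G.Z ω)} from h4), if_pos (e1.1 h4)]
          · rw [if_neg (show ω' ∉ {ω | t (G.Z ω) ω = bad (G.Z ω)} from h4),
              if_neg (fun h => h4 (e1.2 h))]
        · have e2 : cond G.p G.Z (G.Z ω) ω' = 0 := by
            unfold Pool.Agent.H49.Ent.cond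
            rw [if_neg hZ]
          rw [e2]
          simp
      rwa [Ex_const hp.sum_one] at h2
    have hexp : (M : ℝ) * Real.exp (-(τ / 2 * J)) ≤ ζ / 3 := by
      have h1 : Real.log (3 * (M + 1) / ζ) ≤ τ / 2 * J := by
        have h2 : 2 * |Real.log (3 * (M + 1) / ζ)| / τ < J := by linarith
        rw [div_lt_iff₀ hτ] at h2
        have := le_abs_self (Real.log (3 * (M + 1) / ζ))
        linarith
      have h2 : 3 * (M + 1) / ζ ≤ Real.exp (τ / 2 * J) := by
        rwa [Real.log_le_iff_le_exp (by positivity)] at h1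
      rw [Real.exp_neg, ← div_eq_mul_inv, div_le_iff₀ (Real.exp_pos _)]
      rw [div_le_iff₀ hζ] at h2
      nlinarith
    have b2 : Pool.KAF.Pr G.p {ω | law (cond G.p G.Z (G.Z ω)) (t (G.Z ω)) (t (G.Z ω) ω) <
        Real.exp (-(τ / 2 * J))} ≤ ζ / 3 := by
      rw [← Pool.KAL.CDF.Ex_Pr h0 G.Z]
      have h2 : Ex G.p (fun ω => Pool.KAF.Pr (cond G.p G.Z (G.Z ω))
          {ω | law (cond G.p G.Z (G.Z ω)) (t (G.Z ω)) (t (G.Z ω) ω) <
            Real.exp (-(τ / 2 * J))}) ≤ Ex G.p (fun _ => ζ / 3) := by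
        refine Ex_mono h0 fun ω hω => ?_
        have hz : 0 < law G.p G.Z (G.Z ω) := law_pos h0 _ hω
        have hpz : IsLaw (cond G.p G.Z (G.Z ω)) := ⟨cond_nonneg h0 _ _, sum_cond _ _ hz.ne'⟩
        obtain ⟨pz, hpze⟩ : ∃ pz, pz = cond G.p G.Z (G.Z ω) := ⟨_, rfl⟩
        obtain ⟨tz, htz⟩ : ∃ tz, tz = t (G.Z ω) := ⟨_, rfl⟩
        refine le_trans ?_ hexp
        calc Pool.KAF.Pr (cond G.p G.Z (G.Z ω))
              {ω | law (cond G.p G.Z (G.Z ω)) (t (G.Z ω)) (t (G.Z ω) ω) < Real.exp (-(τ / 2 * J))}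
            ≤ ∑ ω', pz ω' * (if law pz tz (tz ω') < Real.exp (-(τ / 2 * J)) then 1 else 0) := by
              rw [Pool.KAL.CDF.Pr_eq]
              refine Finset.sum_le_sum fun ω' _ => ?_
              by_cases hZ : G.Z ω' = G.Z ω
              · by_cases h4 : law (cond G.p G.Z (G.Z ω')) (t (G.Z ω')) (t (G.Z ω') ω') <
                    Real.exp (-(τ / 2 * J))
                · rw [if_pos (show ω' ∈ {ω | law (cond G.p G.Z (G.Z ω)) (t (G.Z ω))
                    (t (G.Z ω) ω) < Real.exp (-(τ / 2 * J))} from h4)]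
                  rw [hZ] at h4
                  rw [hpze, htz, if_pos h4, mul_one]
                · rw [if_neg (show ω' ∉ {ω | law (cond G.p G.Z (G.Z ω)) (t (G.Z ω))
                    (t (G.Z ω) ω) < Real.exp (-(τ / 2 * J))} from h4)]
                  rw [hpze]
                  refine mul_nonneg (hpz.nonneg _) ?_
                  split_ifs <;> norm_num
              · have e2 : cond G.p G.Z (G.Z ω) ω' = 0 := by
                  unfold Pool.Agent.H49.Ent.cond
                  rw [if_neg hZ]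
                rw [hpze, e2]
                simp
          _ ≤ ∑ i ∈ univ.image tz, law pz tz i *
                (if law pz tz i < Real.exp (-(τ / 2 * J)) then 1 else 0) := by
              rw [← sum_mul_eq_sum_image pz tz
                (fun i => if law pz tz i < Real.exp (-(τ / 2 * J)) then (1 : ℝ) else 0)]
          _ ≤ ∑ _i ∈ univ.image tz, Real.exp (-(τ / 2 * J)) := by
              refine Finset.sum_le_sum fun i _ => ?_
              by_cases h5 : law pz tz i < Real.exp (-(τ / 2 * J))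
              · rw [if_pos h5, mul_one]
                exact h5.le
              · rw [if_neg h5, mul_zero]
                exact (Real.exp_pos _).le
          _ ≤ (M : ℝ) * Real.exp (-(τ / 2 * J)) := by
              rw [Finset.sum_const, nsmul_eq_mul]
              refine mul_le_mul_of_nonneg_right ?_ (Real.exp_pos _).le
              have : (univ.image tz).card ≤ M := by
                have h6 := Finset.card_le_univ (univ.image tz)
                rwa [Fintype.card_fin] at h6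
              exact_mod_cast this
      rwa [Ex_const hp.sum_one] at h2
    have b3 : Pool.KAF.Pr G.p {ω | τ * J < (J : ℝ) * Real.log 2 -
        CH (cond G.p c (c ω)) G.T G.l} ≤ ζ / 3 := by
      have h1 := Pool.KAL.CDF.markov h0 (fun ω => (J : ℝ) * Real.log 2 -
        CH (cond G.p c (c ω)) G.T G.l) (fun ω hω => ?_) (τ * J)
      · have h2 : Ex G.p (fun ω => (J : ℝ) * Real.log 2 - CH (cond G.p c (c ω)) G.T G.l) =
            (J : ℝ) * Real.log 2 - CH G.p G.T (fun ω => (G.l ω, c ω)) := by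
          rw [Ex_sub, Ex_const hp.sum_one, Ex_CH h0]
        have h3 : CH G.p G.T (fun ω => (G.l ω, G.Z ω)) ≤
            CH G.p G.T (fun ω => (G.l ω, c ω)) + Real.log M := by
          have h4 := (tya_CH_le hp G.T (fun ω => (G.l ω, G.Z ω)) (fun ω => t (G.Z ω) ω)).2
          rw [Fintype.card_fin] at h4
          refine h4.trans (add_le_add (le_of_eq (CH_congr h0 ?_ ?_ ?_ ?_)) le_rfl)
          · exact fun ω ω' _ _ h => (Prod.ext_iff.1 h).1
          · exact fun ω ω' _ _ h => (Prod.ext_iff.1 h).1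
          · intro ω ω' _ _ h
            have a1 := Prod.ext_iff.1 h
            have a2 := Prod.ext_iff.1 a1.2
            exact Prod.ext a2.1 (by rw [hc]; exact Prod.ext a2.2 a1.1)
          · intro ω ω' _ _ h
            have a1 := Prod.ext_iff.1 h
            rw [hc] at a1
            have a2 := Prod.ext_iff.1 a1.2
            exact Prod.ext a2.2 (Prod.ext a1.1 a2.1)
        rw [h2] at h1
        have h4 : (J : ℝ) * Real.log 2 - τ * ζ / 6 * J ≤
            CH G.p G.T (fun ω => (G.l ω, G.Z ω)) := hTm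
        have h5 : Real.log M ≤ τ * ζ / 6 * J := by
          have h6 : 6 * Real.log M / (τ * ζ) < J := by linarith
          rw [div_lt_iff₀ (by positivity)] at h6
          linarith
        have h6 : Pool.KAF.Pr G.p {ω | τ * J < (J : ℝ) * Real.log 2 -
            CH (cond G.p c (c ω)) G.T G.l} * (τ * J) ≤ ζ / 3 * (τ * J) := by
          refine h1.trans ?_
          have : ζ / 3 * (τ * J) = τ * ζ / 6 * J + τ * ζ / 6 * J := by ring
          linarith
        exact le_of_mul_le_mul_right h6 (by positivity)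
      · have hcω : 0 < law G.p c (c ω) := law_pos h0 _ hω
        have hpz : IsLaw (cond G.p c (c ω)) := ⟨cond_nonneg h0 _ _, sum_cond _ _ hcω.ne'⟩
        have := TRC.CH_lt hpz G.T G.l J G.tim
        linarith
    -- sum
    have hsum : 1 ≤ Pe G.p (fun ω => E (c ω)) +
        (Pool.KAF.Pr G.p {ω | t (G.Z ω) ω = bad (G.Z ω)} +
        (Pool.KAF.Pr G.p {ω | law (cond G.p G.Z (G.Z ω)) (t (G.Z ω)) (t (G.Z ω) ω) <
          Real.exp (-(τ / 2 * J))} +
        Pool.KAF.Pr G.p {ω | τ * J < (J : ℝ) * Real.log 2 -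
          CH (cond G.p c (c ω)) G.T G.l})) := by
      rw [← Pe_univ hp]
      refine (Pe_or hp (B₀ := fun ω => E (c ω)) (B₁ := fun ω => ¬ E (c ω))
        fun ω _ => em _).trans (add_le_add le_rfl ?_)
      refine (Pe_or hp (B₀ := fun ω => t (G.Z ω) ω = bad (G.Z ω)) (B₁ := fun ω => ¬ E (c ω) ∧
        ¬ t (G.Z ω) ω = bad (G.Z ω)) fun ω h => ?_).trans (add_le_add le_rfl ?_)
      · by_cases h1 : t (G.Z ω) ω = bad (G.Z ω)
        · exact Or.inl h1
        · exact Or.inr ⟨h, h1⟩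
      refine Pe_or hp fun ω h => ?_
      by_cases a2 : law (cond G.p G.Z (G.Z ω)) (t (G.Z ω)) (t (G.Z ω) ω) <
          Real.exp (-(τ / 2 * J))
      · exact Or.inl a2
      · right
        by_contra a3
        refine h.1 ?_
        rw [hE]
        have e1 : c ω = (G.Z ω, t (G.Z ω) ω) := by rw [hc]
        have a4 : ¬ (τ * J < (J : ℝ) * Real.log 2 - CH (cond G.p c (c ω)) G.T G.l) := a3
        refine ⟨?_, ?_, by linarith [not_lt.1 a4]⟩
        · rw [e1]; exact h.2
        · rw [e1]; exact not_lt.1 a2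
    linarith
  · -- the good parts are regular
    rintro ⟨z, i⟩ hv hEv
    have hce : (fun ω => (G.Z ω, t (G.Z ω) ω)) = c := by rw [hc]
    rw [hE] at hEv
    obtain ⟨e1, e2, e3⟩ := hEv
    have hv' : IsLaw (cond G.p (fun ω => (G.Z ω, t (G.Z ω) ω)) (z, i)) :=
      ⟨cond_nonneg h0 _ _, sum_cond _ _ hv.ne'⟩
    have hz : 0 < law G.p G.Z z := by
      refine lt_of_lt_of_le hv ?_
      unfold law
      refine Finset.sum_le_sum fun ω _ => ?_
      by_cases h1 : (G.Z ω, t (G.Z ω) ω) = (z, i)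
      · rw [if_pos h1, if_pos (Prod.ext_iff.1 h1).1]
      · rw [if_neg h1]
        split_ifs
        · exact h0 ω
        · exact le_rfl
    have hcc := cond_cond G.p G.Z t (i := i) hz.ne'
    refine ⟨hv', ⟨z, fun ω hω => ?_⟩, ?_, ?_⟩
    · have h1 : 0 < cond G.p (fun ω => (G.Z ω, t (G.Z ω) ω)) (z, i) ω :=
        lt_of_le_of_ne (cond_nonneg h0 _ _ _) (Ne.symm hω)
      exact (Prod.ext_iff.1 ((cond_pos_iff h0 _ _ _).1 h1).2).1
    · have h1 : CH (cond G.p c (z, i)) G.T G.l =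
          CH (cond G.p (fun ω => (G.Z ω, t (G.Z ω) ω)) (z, i)) G.T
            (fun ω => (G.l ω, G.Z ω)) := by
        rw [hce]
        refine CH_congr (cond_nonneg h0 _ _) ?_ ?_ ?_ ?_
        · exact fun ω ω' _ _ h => (Prod.ext_iff.1 h).1
        · exact fun ω ω' _ _ h => (Prod.ext_iff.1 h).1
        · intro ω ω' a b h
          have a1 := ((cond_pos_iff h0 _ _ _).1 a).2
          have b1 := ((cond_pos_iff h0 _ _ _).1 b).2
          rw [hc] at a1 b1
          exact Prod.ext h ((Prod.ext_iff.1 a1).1.trans (Prod.ext_iff.1 b1).1.symm)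
        · intro ω ω' _ _ h
          exact (Prod.ext_iff.1 h).1
      rw [h1] at e3
      exact e3
    · have h1 := (htb z hz).2 i (by rw [hbad] at e1; exact e1) (by rw [ht] at e2; exact e2)
      have h2 : ∀ j, ∃ h, Rg (cond G.p (fun ω => (G.Z ω, t (G.Z ω) ω)) (z, i))
          (REX.lst G j) h (τ * J) := by
        intro j
        obtain ⟨h, hh⟩ := h1 j
        have e4 : 2 * (τ / 2) * (J : ℝ) = τ * J := by ring
        rw [e4] at hh
        refine ⟨h, ?_⟩
        rw [← hcc, ht]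
        exact hh
      exact ⟨h2 0, h2 1, h2 2, h2 3, h2 4⟩

end Pool.ZCL
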