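import Pool.Agent.H35.ZCL.Vis
import Pool.Agent.H80.KS6.Epl

/-!
# The A-zoom: frames, and spread of the fans of the zoom

Frames of precision `l` which are constant on the windows of length `2 ^ (-w)` and visible at the
points of resolution `r`; the coordinates `pco l i₀ z`. The fans of the zoom are spread off lines
if the fans of the family are not straight to a higher precision and not thin.
-/

set_option autoImplicit false

namespace Pool.ZCL

open Finset Real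
open Pool.Agent.H49.Ent Pool.Agent.H32.Dense Pool.STK Pool.KA Pool.KSAT Pool.K2S Pool.PB
open Pool.S6K (exact_label steep_ball)

variable {m J : ℕ}

/-- Frames of the A-zoom. -/
structure AzF (F : Fam m J) (i₀ : Fin m) (r l w : ℕ) (B : F.Ω → Prop) (z : F.Ω → Fin m → ℝ) :
    Prop where
  win : ∀ ω ω', slam F w ω = slam F w ω' → z ω = z ω'
  zer : ∀ ω, z ω i₀ = 0
  vis : ∃ γ : (Fin m → ℤ) × (ℕ × F.ζ) → Fin m → ℝ, ∀ ω, B ω → z ω = γ (ptr F r ω)
  bd : ∀ ω, B ω → ∀ j, |z ω j| ≤ 4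
  str : ∃ n : (Fin m → ℤ) × (ℕ × F.ζ) → Fin m → ℝ, ∀ ω, B ω → ∀ j, j ≠ i₀ →
    |F.d ω j - z ω j * F.d ω i₀ - n (ptr F r ω) j| ≤ 3 / 2 ^ l

theorem AzF.sub {F : Fam m J} {i₀ : Fin m} {r l w : ℕ} {B B' : F.Ω → Prop}
    {z : F.Ω → Fin m → ℝ} (h : AzF F i₀ r l w B z) (hB : Sub B' B) :
    AzF F i₀ r l w B' z := by
  obtain ⟨γ, hγ⟩ := h.vis
  obtain ⟨n, hn⟩ := h.str
  exact ⟨h.win, h.zer, ⟨γ, fun ω hω => hγ ω (hB ω hω)⟩, fun ω hω => h.bd ω (hB ω hω),
    ⟨n, fun ω hω => hn ω (hB ω hω)⟩⟩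

/-- Finer frames are frames. -/
theorem AzF.coarse {F : Fam m J} {i₀ : Fin m} {r l l' w : ℕ} {B : F.Ω → Prop}
    {z : F.Ω → Fin m → ℝ} (h : AzF F i₀ r l w B z) (hl : l' ≤ l) : AzF F i₀ r l' w B z := by
  obtain ⟨n, hn⟩ := h.str
  refine ⟨h.win, h.zer, h.vis, h.bd, ⟨n, fun ω hω j hj => (hn ω hω j hj).trans ?_⟩⟩
  exact div_le_div_of_nonneg_left (by norm_num) (by positivity)
    (pow_le_pow_right₀ (by norm_num) hl)

/-- One half of an event. -/
theorem half_or {Ω : Type} [Fintype Ω] {p : Ω → ℝ} (hp : IsLaw p) {A S T : Ω → Prop}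
    (h : ∀ ω, A ω → S ω ∨ T ω) : Pe p A ≤ 2 * Pe p S ∨ Pe p A ≤ 2 * Pe p T := by
  classical
  have h1 : Pe p A ≤ Pe p S + Pe p T := by
    simp only [Pe_eq]
    rw [← Finset.sum_add_distrib]
    refine Finset.sum_le_sum fun ω _ => ?_
    have h0 := hp.nonneg ω
    by_cases hA : A ω
    · rw [if_pos hA]
      rcases h ω hA with hS | hT
      · rw [if_pos hS]
        split_ifs <;> linarith
      · rw [if_pos hT]
        split_ifs <;> linarith
    · rw [if_neg hA]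
      split_ifs <;> linarith
  rcases le_total (Pe p S) (Pe p T) with h2 | h2
  · right; linarith
  · left; linarith

/-- **The frames of the A-zoom exist.** -/
theorem az_frame (F : Fam m J) {i₀ : Fin m} {r l w h : ℕ} (hr : r ≤ J) {A : F.Ω → Prop}
    (hL : LineAt i₀ (1 / 2 ^ h) (Fam.pt F) F.d A)
    (hR : RotU i₀ (1 / 2 ^ l) (1 / 2 ^ l) (ptr F r) (slam F w) F.d A) :
    (∃ B : F.Ω → Prop, Sub B A ∧ Pe F.p A ≤ 2 * Pe F.p B ∧
      Ball (2 / 2 ^ l + 4 / 2 ^ h) (Fam.pt F) F.d B) ∨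
    ∃ (B : F.Ω → Prop) (z : F.Ω → Fin m → ℝ), Sub B A ∧ Pe F.p A ≤ 2 * 7 ^ m * Pe F.p B ∧
      AzF F i₀ r l w B z := by
  classical
  have hp := F.isLaw
  obtain ⟨eb, nb, hb⟩ := hL
  obtain ⟨e, n, ζ, h1, h2⟩ := hR
  obtain ⟨φ, hφ⟩ := ptr_coarse F hr
  have p0 : (0 : ℝ) < 2 ^ l := by positivity
  have p1 : (1 : ℝ) / 2 ^ l ≤ 1 := by
    rw [div_le_one p0]
    exact one_le_pow₀ (by norm_num)
  rcases half_or hp (A := A) (S := fun ω => A ω ∧ ∃ j, 3 < |ζ (slam F w ω) j|)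
    (T := fun ω => A ω ∧ ∀ j, |ζ (slam F w ω) j| ≤ 3) (fun ω hω => by
      by_cases hj : ∃ j, 3 < |ζ (slam F w ω) j|
      · exact Or.inl ⟨hω, hj⟩
      · push Not at hj
        exact Or.inr ⟨hω, hj⟩) with hS | hT
  · left
    refine ⟨_, fun ω hω => hω.1, hS, ?_⟩
    have h3 := steep_ball (pt := Fam.pt F) (wn := slam F w) (d := F.d) (A := A) (i₀ := i₀)
      (r := 1 / 2 ^ l) (rb := 1 / 2 ^ h) (e := fun y => e (φ y)) (n := fun y => n (φ y))
      (eb := eb) (nb := nb) (ζ := ζ) hb (fun ω hω j => by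
        have := h1 ω hω j
        rwa [hφ ω] at this) (fun ω hω j => by
        have := h2 ω hω j
        rw [hφ ω] at this
        exact this.trans p1)
    have e1 : 2 * (1 / 2 ^ l) + 4 * (1 / 2 ^ h) = (2 : ℝ) / 2 ^ l + 4 / 2 ^ h := by ring
    rw [e1] at h3
    exact h3
  · right
    obtain ⟨f, hf⟩ : ∃ f : F.Ω → Fin m → ℤ, f = fun ω j =>
      if j = i₀ then 0 else ⌊(2 : ℝ) ^ l * ζ (slam F w ω) j⌋ := ⟨_, rfl⟩
    obtain ⟨B, hB, hP, φ', hφ'⟩ := exact_label hp 3 (ptr F r) f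
      (fun ω => A ω ∧ ∀ j, |ζ (slam F w ω) j| ≤ 3) (by
        intro ω ω' hω hω' hpt j
        rw [hf]
        simp only
        by_cases hj : j = i₀
        · rw [if_pos hj, if_pos hj]
          simp
        · rw [if_neg hj, if_neg hj]
          refine floor_diff (K := 2) ?_
          have a1 := h2 ω hω.1 j
          have a2 := h2 ω' hω'.1 j
          rw [← hpt] at a2
          have a3 : |ζ (slam F w ω) j - ζ (slam F w ω') j| ≤ 2 / 2 ^ l := by
            have : (2 : ℝ) / 2 ^ l = 1 / 2 ^ l + 1 / 2 ^ l := by ring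
            rw [this]
            rw [abs_le] at a1 a2 ⊢
            constructor <;> linarith [a1.1, a1.2, a2.1, a2.2]
          rw [← mul_sub, abs_mul, abs_of_pos p0]
          rw [le_div_iff₀ p0] at a3
          push_cast
          linarith)
    refine ⟨B, fun ω j => (f ω j : ℝ) / 2 ^ l, fun ω hω => (hB ω hω).1, ?_, ?_, ?_, ?_, ?_, ?_⟩
    · have e1 : (2 * ((3 : ℕ) : ℝ) + 1) ^ m = 7 ^ m := by norm_num
      rw [e1] at hP
      have : (2 : ℝ) * 7 ^ m * Pe F.p B = 2 * (7 ^ m * Pe F.p B) := by ring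
      rw [this]
      linarith
    · intro ω ω' hs
      funext j
      rw [hf]
      simp only [hs]
    · intro ω
      rw [hf]
      simp
    · refine ⟨fun y j => (φ' y j : ℝ) / 2 ^ l, fun ω hω => ?_⟩
      funext j
      rw [hφ' ω hω]
    · intro ω hω j
      have h3 := (hB ω hω).2 j
      rw [hf]
      simp only
      by_cases hj : j = i₀
      · rw [if_pos hj]
        simp
      · rw [if_neg hj]
        have a1 := Int.floor_le ((2 : ℝ) ^ l * ζ (slam F w ω) j)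
        have a2 := Int.lt_floor_add_one ((2 : ℝ) ^ l * ζ (slam F w ω) j)
        have a3 : |((⌊(2 : ℝ) ^ l * ζ (slam F w ω) j⌋ : ℤ) : ℝ) / 2 ^ l -
            ζ (slam F w ω) j| ≤ 1 := by
          have e1 : ((⌊(2 : ℝ) ^ l * ζ (slam F w ω) j⌋ : ℤ) : ℝ) / 2 ^ l - ζ (slam F w ω) j =
            (((⌊(2 : ℝ) ^ l * ζ (slam F w ω) j⌋ : ℤ) : ℝ) - 2 ^ l * ζ (slam F w ω) j) / 2 ^ l := by
            field_simp
          rw [e1, abs_div, abs_of_pos p0]
          refine le_trans ?_ p1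
          refine div_le_div_of_nonneg_right ?_ p0.le
          rw [abs_le]
          constructor <;> linarith
        have a4 := abs_sub_abs_le_abs_sub (((⌊(2 : ℝ) ^ l * ζ (slam F w ω) j⌋ : ℤ) : ℝ) / 2 ^ l)
          (ζ (slam F w ω) j)
        linarith
    · refine ⟨n, fun ω hω j hj => ?_⟩
      have b1 := h1 ω (hB ω hω).1 j
      have b2 := h2 ω (hB ω hω).1 j
      have b3 := F.dir ω i₀
      rw [hf]
      simp only
      rw [if_neg hj]
      have a1 := Int.floor_le ((2 : ℝ) ^ l * ζ (slam F w ω) j)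
      have a2 := Int.lt_floor_add_one ((2 : ℝ) ^ l * ζ (slam F w ω) j)
      have a3 : |((⌊(2 : ℝ) ^ l * ζ (slam F w ω) j⌋ : ℤ) : ℝ) / 2 ^ l -
          ζ (slam F w ω) j| ≤ 1 / 2 ^ l := by
        have e1 : ((⌊(2 : ℝ) ^ l * ζ (slam F w ω) j⌋ : ℤ) : ℝ) / 2 ^ l - ζ (slam F w ω) j =
          (((⌊(2 : ℝ) ^ l * ζ (slam F w ω) j⌋ : ℤ) : ℝ) - 2 ^ l * ζ (slam F w ω) j) / 2 ^ l := by
          field_simp
        rw [e1, abs_div, abs_of_pos p0]
        refine div_le_div_of_nonneg_right ?_ p0.le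
        rw [abs_le]
        constructor <;> linarith
      obtain ⟨Z, hZ⟩ : ∃ Z, Z = ((⌊(2 : ℝ) ^ l * ζ (slam F w ω) j⌋ : ℤ) : ℝ) / 2 ^ l := ⟨_, rfl⟩
      rw [← hZ] at a3 ⊢
      have e2 : F.d ω j - Z * F.d ω i₀ - n (ptr F r ω) j =
          (F.d ω j - e (ptr F r ω) j * F.d ω i₀ - n (ptr F r ω) j) +
          ((e (ptr F r ω) j - ζ (slam F w ω) j) - (Z - ζ (slam F w ω) j)) * F.d ω i₀ := by ring
      rw [e2]
      have c1 : |((e (ptr F r ω) j - ζ (slam F w ω) j) - (Z - ζ (slam F w ω) j)) * F.d ω i₀| ≤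
          2 / 2 ^ l := by
        rw [abs_mul]
        have c2 : |(e (ptr F r ω) j - ζ (slam F w ω) j) - (Z - ζ (slam F w ω) j)| ≤ 2 / 2 ^ l := by
          have : (2 : ℝ) / 2 ^ l = 1 / 2 ^ l + 1 / 2 ^ l := by ring
          rw [this]
          exact (abs_sub _ _).trans (add_le_add b2 a3)
        calc _ ≤ 2 / 2 ^ l * 1 := mul_le_mul c2 b3 (abs_nonneg _) (by positivity)
          _ = 2 / 2 ^ l := mul_one _
      have e3 : (3 : ℝ) / 2 ^ l = 1 / 2 ^ l + 2 / 2 ^ l := by ring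
      rw [e3]
      exact (abs_add_le _ _).trans (add_le_add b1 c1)

/-- The velocities in the coordinates are determined by the point up to a constant. -/
theorem AzF.vel {F : Fam m J} {i₀ : Fin m} {r l w : ℕ} {B : F.Ω → Prop}
    {z : F.Ω → Fin m → ℝ} (h : AzF F i₀ r l w B z) {ω ω' : F.Ω} (hω : B ω) (hω' : B ω')
    (hpt : ptr F r ω = ptr F r ω') (i : Fin m) :
    |pco l i₀ (z ω) (F.d ω) i - pco l i₀ (z ω') (F.d ω') i| ≤ 6 := by
  have p0 : (0 : ℝ) < 2 ^ l := by positivity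
  unfold pco
  by_cases hi : i = i₀
  · rw [if_pos hi, if_pos hi]
    have h1 := F.dir ω i₀
    have h2 := F.dir ω' i₀
    rw [abs_le] at h1 h2 ⊢
    constructor <;> linarith [h1.1, h1.2, h2.1, h2.2]
  · rw [if_neg hi, if_neg hi]
    obtain ⟨n, hn⟩ := h.str
    have h1 := hn ω hω i hi
    have h2 := hn ω' hω' i hi
    rw [← hpt] at h2
    rw [← mul_sub, abs_mul, abs_of_pos p0]
    have h3 : |(F.d ω i - z ω i * F.d ω i₀) - (F.d ω' i - z ω' i * F.d ω' i₀)| ≤ 6 / 2 ^ l := by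
      have : (6 : ℝ) / 2 ^ l = 3 / 2 ^ l + 3 / 2 ^ l := by ring
      rw [this]
      rw [abs_le] at h1 h2 ⊢
      constructor <;> linarith [h1.1, h1.2, h2.1, h2.2]
    rw [le_div_iff₀ p0] at h3
    linarith

/-- The coordinates of the A-zoom are bounded. -/
theorem AzF.bound {F : Fam m J} {i₀ : Fin m} {r l w : ℕ} {B : F.Ω → Prop}
    {z : F.Ω → Fin m → ℝ} (h : AzF F i₀ r l w B z) {ω : F.Ω} (hω : B ω) (x y : Fin m → ℝ)
    (hxy : ∀ j, |x j - y j| ≤ 1) (i : Fin m) :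
    |pco l i₀ (z ω) x i - pco l i₀ (z ω) y i| ≤ ((5 : ℕ) : ℝ) * 2 ^ l := by
  have p0 : (1 : ℝ) ≤ 2 ^ l := one_le_pow₀ (by norm_num)
  unfold pco
  by_cases hi : i = i₀
  · rw [if_pos hi, if_pos hi]
    have := hxy i₀
    push_cast
    linarith
  · rw [if_neg hi, if_neg hi]
    have h1 := hxy i
    have h2 := hxy i₀
    have h3 := h.bd ω hω i
    have e1 : 2 ^ l * (x i - z ω i * x i₀) - 2 ^ l * (y i - z ω i * y i₀) =
        2 ^ l * ((x i - y i) - z ω i * (x i₀ - y i₀)) := by ring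
    rw [e1, abs_mul, abs_of_pos (by positivity)]
    have h4 : |z ω i * (x i₀ - y i₀)| ≤ 4 * 1 := by
      rw [abs_mul]
      exact mul_le_mul h3 h2 (abs_nonneg _) (by norm_num)
    have h5 : |(x i - y i) - z ω i * (x i₀ - y i₀)| ≤ 5 :=
      (abs_sub _ _).trans (by linarith)
    push_cast
    rw [mul_comm (5 : ℝ)]
    exact mul_le_mul_of_nonneg_left h5 (by positivity)

/-- **Spread of the fans of the A-zoom.** -/
theorem az_spread (F : Fam m J) {i₀ : Fin m} {r l w h : ℕ} {B : F.Ω → Prop}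
    {z : F.Ω → Fin m → ℝ} (hz : AzF F i₀ r l w B z)
    (hP : PlU 1 (2 / 2 ^ (2 * h)) (ptr F r) (fun ω => pco l i₀ (z ω) (F.d ω)) B) :
    ∃ B' : F.Ω → Prop, Sub B' B ∧ Pe F.p B ≤ 2 * Pe F.p B' ∧
      (LineU i₀ (4 / 2 ^ (l + h)) (ptr F r) F.d B' ∨
        Ball (62 / 2 ^ min h l) (ptr F r) F.d B') := by
  classical
  have hp := F.isLaw
  have p0 : (0 : ℝ) < 2 ^ l := by positivity
  have q0 : (1 : ℝ) ≤ 2 ^ h := one_le_pow₀ (by norm_num)
  have q0' : (0 : ℝ) < 2 ^ h := by positivity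
  obtain ⟨γ, hγ⟩ := hz.vis
  obtain ⟨ζ, hζ⟩ := hP
  obtain ⟨ρ, hρ⟩ : ∃ ρ : ℝ, ρ = 2 / 2 ^ (2 * h) := ⟨_, rfl⟩
  have hρh : ρ * 2 ^ h = 2 / 2 ^ h := by
    rw [hρ, two_mul, pow_add]
    field_simp
  have hρ0 : 0 ≤ ρ := by rw [hρ]; positivity
  have hρ1 : ρ ≤ 2 / 2 ^ h := by
    rw [← hρh]
    nlinarith
  have hρ2 : ρ ≤ 2 := by
    refine hρ1.trans ?_
    rw [div_le_iff₀ q0']
    nlinarith
  -- the direction of the line
  obtain ⟨v, hv⟩ : ∃ v : (Fin m → ℤ) × (ℕ × F.ζ) → Fin m → ℝ, v = fun y => (ζ y).2 0 :=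
    ⟨_, rfl⟩
  obtain ⟨s, hs⟩ : ∃ s : (Fin m → ℤ) × (ℕ × F.ζ) → Fin m → ℝ, s = fun y => (ζ y).1 := ⟨_, rfl⟩
  have hline : ∀ ω, B ω → ∃ c : ℝ, ∀ i, |pco l i₀ (z ω) (F.d ω) i - s (ptr F r ω) i -
      c * v (ptr F r ω) i| ≤ ρ := by
    intro ω hω
    obtain ⟨c, hc⟩ := hζ ω hω
    refine ⟨c 0, fun i => ?_⟩
    have h1 := hc i
    rw [Fin.sum_univ_one] at h1
    rw [hs, hv, hρ]
    exact h1
  rcases half_or hp (A := B) (S := fun ω => B ω ∧ ∀ j, |v (ptr F r ω) j| ≤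
      2 ^ h * |v (ptr F r ω) i₀|)
    (T := fun ω => B ω ∧ ∃ j, 2 ^ h * |v (ptr F r ω) i₀| < |v (ptr F r ω) j|)
    (fun ω hω => by
      by_cases hj : ∀ j, |v (ptr F r ω) j| ≤ 2 ^ h * |v (ptr F r ω) i₀|
      · exact Or.inl ⟨hω, hj⟩
      · push Not at hj
        exact Or.inr ⟨hω, hj⟩) with hS | hT
  · refine ⟨_, fun ω hω => hω.1, hS, Or.inl ?_⟩
    obtain ⟨σ, hσ⟩ : ∃ σ : (Fin m → ℤ) × (ℕ × F.ζ) → Fin m → ℝ, σ = fun y j =>
      v y j / v y i₀ := ⟨_, rfl⟩
    refine ⟨fun y j => if j = i₀ then 1 else γ y j + σ y j / 2 ^ l,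
      fun y j => if j = i₀ then 0 else (s y j - σ y j * s y i₀) / 2 ^ l, fun ω hω j => ?_⟩
    simp only
    by_cases hj : j = i₀
    · rw [if_pos hj, if_pos hj, hj]
      have : F.d ω i₀ - 1 * F.d ω i₀ - 0 = 0 := by ring
      rw [this, abs_zero]
      positivity
    · rw [if_neg hj, if_neg hj]
      obtain ⟨c, hc⟩ := hline ω hω.1
      have c1 := hc j
      have c2 := hc i₀
      unfold pco at c1 c2
      rw [if_neg hj] at c1
      rw [if_pos rfl] at c2
      have hγω : z ω j = γ (ptr F r ω) j := congrFun (hγ ω hω.1) j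
      rw [hγω] at c1
      obtain ⟨y, hy⟩ : ∃ y, y = ptr F r ω := ⟨_, rfl⟩
      have hflat := hω.2
      rw [← hy] at c1 c2 hflat ⊢
      have hσv : σ y j * v y i₀ = v y j := by
        rw [hσ]
        simp only
        by_cases h0 : v y i₀ = 0
        · have := hflat j
          rw [h0, abs_zero, mul_zero] at this
          have h1 : v y j = 0 := abs_eq_zero.1 (le_antisymm this (abs_nonneg _))
          rw [h1, h0]
          simp
        · field_simp
      have hσ1 : |σ y j| ≤ 2 ^ h := by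
        rw [hσ]
        simp only
        rw [abs_div]
        by_cases h0 : v y i₀ = 0
        · rw [h0, abs_zero, div_zero]
          exact q0'.le
        · rw [div_le_iff₀ (abs_pos.2 h0)]
          exact hflat j
      have e1 : F.d ω j - (γ y j + σ y j / 2 ^ l) * F.d ω i₀ -
          (s y j - σ y j * s y i₀) / 2 ^ l =
          ((2 ^ l * (F.d ω j - γ y j * F.d ω i₀) - s y j - c * v y j) -
            σ y j * (F.d ω i₀ - s y i₀ - c * v y i₀)) / 2 ^ l := by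
        rw [← hσv]
        field_simp
        ring
      rw [e1, abs_div, abs_of_pos p0]
      have e2 : (4 : ℝ) / 2 ^ (l + h) = 4 / 2 ^ h / 2 ^ l := by
        rw [pow_add]
        field_simp
      rw [e2]
      refine div_le_div_of_nonneg_right ?_ p0.le
      have d1 : |σ y j * (F.d ω i₀ - s y i₀ - c * v y i₀)| ≤ 2 ^ h * ρ := by
        rw [abs_mul]
        exact mul_le_mul hσ1 c2 (abs_nonneg _) q0'.le
      have d2 : (2 : ℝ) ^ h * ρ = 2 / 2 ^ h := by rw [mul_comm]; exact hρh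
      rw [d2] at d1
      have e3 : (4 : ℝ) / 2 ^ h = 2 / 2 ^ h + 2 / 2 ^ h := by ring
      rw [e3]
      exact (abs_sub _ _).trans (add_le_add (c1.trans hρ1) d1)
  · refine ⟨_, fun ω hω => hω.1, hT, Or.inr ?_⟩
    -- a representative
    have hex : ∀ y : (Fin m → ℤ) × (ℕ × F.ζ), ∃ V : Fin m → ℝ, ∀ ω, (B ω ∧
        ∃ j, 2 ^ h * |v (ptr F r ω) i₀| < |v (ptr F r ω) j|) → ptr F r ω = y →
        ∀ j, |F.d ω j - V j| ≤ 62 / 2 ^ min h l := by
      intro y
      by_cases hy : ∃ ω, (B ω ∧ ∃ j, 2 ^ h * |v (ptr F r ω) i₀| < |v (ptr F r ω) j|) ∧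
        ptr F r ω = y
      · obtain ⟨ω₀, ⟨h0, hj0⟩, h00⟩ := hy
        refine ⟨F.d ω₀, fun ω hω hωy j => ?_⟩
        have hpt : ptr F r ω = ptr F r ω₀ := hωy.trans h00.symm
        obtain ⟨c, hc⟩ := hline ω hω.1
        obtain ⟨c₀, hc₀⟩ := hline ω₀ h0
        rw [← hpt] at hc₀
        obtain ⟨k, hk⟩ := hω.2
        have c1 := hc i₀
        have c2 := hc₀ i₀
        have c3 := hc k
        have c4 := hc₀ k
        have c5 := hz.vel hω.1 h0 hpt k
        have c6 : pco l i₀ (z ω) (F.d ω) i₀ = F.d ω i₀ := by unfold pco; rw [if_pos rfl]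
        have c7 : pco l i₀ (z ω₀) (F.d ω₀) i₀ = F.d ω₀ i₀ := by unfold pco; rw [if_pos rfl]
        rw [c6] at c1
        rw [c7] at c2
        -- the base velocity
        have c8 : |(c - c₀) * v (ptr F r ω) k| ≤ 10 := by
          have : (c - c₀) * v (ptr F r ω) k =
              (pco l i₀ (z ω) (F.d ω) k - pco l i₀ (z ω₀) (F.d ω₀) k) -
              ((pco l i₀ (z ω) (F.d ω) k - s (ptr F r ω) k - c * v (ptr F r ω) k) -
              (pco l i₀ (z ω₀) (F.d ω₀) k - s (ptr F r ω) k - c₀ * v (ptr F r ω) k)) := by ring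
          rw [this]
          rw [abs_le] at c3 c4 c5 ⊢
          constructor <;> linarith [c3.1, c3.2, c4.1, c4.2, c5.1, c5.2]
        have c9 : |(c - c₀) * v (ptr F r ω) i₀| ≤ 10 / 2 ^ h := by
          rw [le_div_iff₀ q0', abs_mul]
          rw [abs_mul] at c8
          calc |c - c₀| * |v (ptr F r ω) i₀| * 2 ^ h =
                |c - c₀| * (2 ^ h * |v (ptr F r ω) i₀|) := by ring
            _ ≤ |c - c₀| * |v (ptr F r ω) k| :=
                mul_le_mul_of_nonneg_left hk.le (abs_nonneg _)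
            _ ≤ 10 := c8
        have c10 : |F.d ω i₀ - F.d ω₀ i₀| ≤ 14 / 2 ^ h := by
          have e1 : F.d ω i₀ - F.d ω₀ i₀ = (F.d ω i₀ - s (ptr F r ω) i₀ -
              c * v (ptr F r ω) i₀) - (F.d ω₀ i₀ - s (ptr F r ω) i₀ -
              c₀ * v (ptr F r ω) i₀) + (c - c₀) * v (ptr F r ω) i₀ := by ring
          have e2 : (14 : ℝ) / 2 ^ h = 2 / 2 ^ h + 2 / 2 ^ h + 10 / 2 ^ h := by ring
          rw [e1, e2]
          have c1' := c1.trans hρ1
          have c2' := c2.trans hρ1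
          rw [abs_le] at c1' c2' c9 ⊢
          constructor <;> linarith [c1'.1, c1'.2, c2'.1, c2'.2, c9.1, c9.2]
        have m1 : (1 : ℝ) / 2 ^ h ≤ 1 / 2 ^ min h l := inv_mono (min_le_left _ _)
        have m2 : (1 : ℝ) / 2 ^ l ≤ 1 / 2 ^ min h l := inv_mono (min_le_right _ _)
        obtain ⟨M, hM⟩ : ∃ M : ℝ, M = 1 / 2 ^ min h l := ⟨_, rfl⟩
        rw [← hM] at m1 m2
        have m3 : (62 : ℝ) / 2 ^ min h l = 62 * M := by rw [hM]; ring
        have m4 : (14 : ℝ) / 2 ^ h ≤ 14 * M := by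
          have : (14 : ℝ) / 2 ^ h = 14 * (1 / 2 ^ h) := by ring
          rw [this]
          linarith
        have hM0 : 0 ≤ M := by rw [hM]; positivity
        rw [m3]
        by_cases hj : j = i₀
        · rw [hj]
          linarith
        · have c11 := hz.vel hω.1 h0 hpt j
          unfold pco at c11
          rw [if_neg hj, if_neg hj] at c11
          have hzz : z ω j = z ω₀ j := by
            rw [hγ ω hω.1, hγ ω₀ h0, hpt]
          rw [← hzz, ← mul_sub, abs_mul, abs_of_pos p0] at c11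
          have c12 : |F.d ω j - z ω j * F.d ω i₀ - (F.d ω₀ j - z ω j * F.d ω₀ i₀)| ≤ 6 * M := by
            have : |F.d ω j - z ω j * F.d ω i₀ - (F.d ω₀ j - z ω j * F.d ω₀ i₀)| ≤ 6 / 2 ^ l := by
              rw [le_div_iff₀ p0]
              linarith
            refine this.trans ?_
            have : (6 : ℝ) / 2 ^ l = 6 * (1 / 2 ^ l) := by ring
            rw [this]
            linarith
          have c13 : |z ω j * (F.d ω i₀ - F.d ω₀ i₀)| ≤ 4 * (14 * M) := by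
            rw [abs_mul]
            exact mul_le_mul (hz.bd ω hω.1 j) (c10.trans m4) (abs_nonneg _) (by norm_num)
          have e4 : F.d ω j - F.d ω₀ j =
              (F.d ω j - z ω j * F.d ω i₀ - (F.d ω₀ j - z ω j * F.d ω₀ i₀)) +
              z ω j * (F.d ω i₀ - F.d ω₀ i₀) := by ring
          rw [e4]
          exact (abs_add_le _ _).trans (by linarith)
      · exact ⟨0, fun ω hω hωy => absurd ⟨ω, hω, hωy⟩ hy⟩
    choose V hV using hex
    exact ⟨V, fun ω hω => hV _ ω hω rfl⟩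

end Pool.ZCL
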