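import Pool.Agent.H35.ZCL.Zoom

/-!
# Visibility of the zoom

On an event of bounded relative probability the exact point of the zoom is a function of the point
of resolution `r` of the family, if the coordinates are a function of it and if it determines the
velocities in these coordinates up to a constant.
-/

set_option autoImplicit false

namespace Pool.ZCL

open Finset Real
open Pool.Agent.H49.Ent Pool.Agent.H32.Dense Pool.STK Pool.KA Pool.KSAT Pool.K2S Pool.PB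
open Pool.S6K (exact_label)

variable {m J : ℕ} {κ : Type}

theorem floor_diff {a b : ℝ} {K : ℕ} (h : |a - b| ≤ K) : |⌊a⌋ - ⌊b⌋| ≤ ((K + 1 : ℕ) : ℤ) := by
  have h1 := Int.floor_le a
  have h2 := Int.lt_floor_add_one a
  have h3 := Int.floor_le b
  have h4 := Int.lt_floor_add_one b
  rw [abs_le] at h
  have h5 : ((⌊a⌋ - ⌊b⌋ : ℤ) : ℝ) < ((K + 1 : ℕ) : ℤ) + 1 := by
    push_cast
    linarith [h.1, h.2]
  have h6 : (-(((K + 1 : ℕ) : ℤ) + 1 : ℤ) : ℝ) < ((⌊a⌋ - ⌊b⌋ : ℤ) : ℝ) := by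
    push_cast
    linarith [h.1, h.2]
  have h7 : ⌊a⌋ - ⌊b⌋ < ((K + 1 : ℕ) : ℤ) + 1 := by exact_mod_cast h5
  have h8 : -(((K + 1 : ℕ) : ℤ) + 1) < ⌊a⌋ - ⌊b⌋ := by exact_mod_cast h6
  rw [abs_le]
  constructor <;> omega

/-- The coordinates of two positions in the same cell. -/
theorem bd_cell {F : Fam m J} {lam r : ℕ} {C : Crd m κ} {b : ℝ} {k : κ}
    (hC : ∀ x y : Fin m → ℝ, (∀ j, |x j - y j| ≤ 1) → ∀ i, |C.L k x i - C.L k y i| ≤ b * 2 ^ lam)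
    {ω ω' : F.Ω} (h : F.X r ω = F.X r ω') (i : Fin m) :
    2 ^ r * |C.L k (F.x ω) i - C.L k (F.x ω') i| ≤ b * 2 ^ lam := by
  have g0 : ∀ l, |2 ^ r * F.x ω l - 2 ^ r * F.x ω' l| ≤ 1 := fun l =>
    Plk.abs_sub_lt_of_floor (congrFun h l)
  have h2 := hC (fun l => 2 ^ r * F.x ω l) (fun l => 2 ^ r * F.x ω' l) g0 i
  rwa [Box.L_smul, Box.L_smul, ← mul_sub, abs_mul, abs_of_nonneg (by positivity)] at h2

/-- **Visibility of the zoom.** -/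
theorem zm_vis (F : Fam m J) {w J' lam r : ℕ} (h : w + J' ≤ J) (hr : w + J' + lam ≤ r)
    {C : Crd m κ} {b b' : ℕ} (g : F.Ω → κ) (A : F.Ω → Prop)
    (hC : ∀ ω, A ω → ∀ x y : Fin m → ℝ, (∀ j, |x j - y j| ≤ 1) →
      ∀ i, |C.L (g ω) x i - C.L (g ω) y i| ≤ b * 2 ^ lam)
    (γ : (Fin m → ℤ) × (ℕ × F.ζ) → κ) (hγ : ∀ ω, A ω → g ω = γ (ptr F r ω))
    (hv : ∀ ω ω', A ω → A ω' → ptr F r ω = ptr F r ω' →
      ∀ i, |C.L (g ω) (F.d ω) i - C.L (g ω') (F.d ω') i| ≤ b') :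
    ∃ B : F.Ω → Prop, Sub B A ∧
      Pe F.p A ≤ ((2 * ((b + b' + 7 : ℕ) : ℝ) + 1) ^ m) ^ 3 * Pe F.p B ∧
      (∃ φ : (Fin m → ℤ) × (ℕ × F.ζ) → Fin m → ℤ, ∀ ω, B ω → F.bvl C g ω = φ (ptr F r ω)) ∧
      ∃ φ : (Fin m → ℤ) × (ℕ × F.ζ) → (Fin m → ℤ) × (ℕ × (F.zm w J' h C g).ζ),
        ∀ ω, B ω → Fam.pt (F.zm w J' h C g) ω = φ (ptr F r ω) := by
  classical
  have hp := F.isLaw
  obtain ⟨K, hK⟩ : ∃ K : ℕ, K = b + b' + 7 := ⟨_, rfl⟩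
  rw [← hK]
  have hcast : ∀ n : ℕ, n ≤ K → ((n : ℕ) : ℤ) ≤ (K : ℤ) := fun n hn => by exact_mod_cast hn
  have hX : ∀ ω ω', ptr F r ω = ptr F r ω' → F.X r ω = F.X r ω' := fun ω ω' e =>
    (Prod.ext_iff.1 e).1
  have hT : ∀ ω ω', ptr F r ω = ptr F r ω' → F.T ω = F.T ω' := fun ω ω' e =>
    (Prod.ext_iff.1 (Prod.ext_iff.1 e).2).1
  have ht : ∀ ω ω', ptr F r ω = ptr F r ω' → (F.box w C g).t ω = (F.box w C g).t ω' := by
    intro ω ω' e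
    change ((F.T ω % 2 ^ (J - w) : ℕ) : ℝ) / 2 ^ (J - w) =
      ((F.T ω' % 2 ^ (J - w) : ℕ) : ℝ) / 2 ^ (J - w)
    rw [hT ω ω' e]
  -- the positions
  have hpos : ∀ ω ω', A ω → g ω = g ω' → ptr F r ω = ptr F r ω' → ∀ i,
      2 ^ (w + J') * |C.L (g ω) (F.x ω) i - C.L (g ω') (F.x ω') i| ≤ b := by
    intro ω ω' hAω hg e i
    rw [← hg]
    have h1 := bd_cell (F := F) (hC ω hAω) (hX ω ω' e) i
    have h2 : (2 : ℝ) ^ (w + J') * 2 ^ lam ≤ 2 ^ r := by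
      rw [← pow_add]
      exact pow_le_pow_right₀ (by norm_num) hr
    have h3 := abs_nonneg (C.L (g ω) (F.x ω) i - C.L (g ω) (F.x ω') i)
    have p1 : (0 : ℝ) < 2 ^ lam := by positivity
    have h4 : (2 : ℝ) ^ (w + J') * |C.L (g ω) (F.x ω) i - C.L (g ω) (F.x ω') i| * 2 ^ lam ≤
        b * 2 ^ lam := by
      calc _ = (2 : ℝ) ^ (w + J') * 2 ^ lam * |C.L (g ω) (F.x ω) i - C.L (g ω) (F.x ω') i| := by
            ring
        _ ≤ 2 ^ r * |C.L (g ω) (F.x ω) i - C.L (g ω) (F.x ω') i| :=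
            mul_le_mul_of_nonneg_right h2 h3
        _ ≤ _ := h1
    exact le_of_mul_le_mul_right h4 p1
  have hpos' : ∀ ω ω', A ω → g ω = g ω' → ptr F r ω = ptr F r ω' → ∀ i,
      2 ^ w * |C.L (g ω) (F.x ω) i - C.L (g ω') (F.x ω') i| ≤ b := by
    intro ω ω' hAω hg e i
    refine le_trans ?_ (hpos ω ω' hAω hg e i)
    refine mul_le_mul_of_nonneg_right ?_ (abs_nonneg _)
    exact pow_le_pow_right₀ (by norm_num) (by omega)
  have hgg : ∀ ω ω', A ω → A ω' → ptr F r ω = ptr F r ω' → g ω = g ω' := fun ω ω' h1 h2 e => by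
    rw [hγ ω h1, hγ ω' h2, e]
  -- the cell of the velocity
  obtain ⟨B₁, hB₁, hP₁, φ₁, hφ₁⟩ := exact_label hp K (ptr F r) (F.bvl C g) A (by
    intro ω ω' h1 h2 e i
    have e1 : F.bvl C g ω i = ⌊2 ^ 0 * C.L (g ω) (F.d ω) i⌋ := rfl
    have e2 : F.bvl C g ω' i = ⌊2 ^ 0 * C.L (g ω') (F.d ω') i⌋ := rfl
    rw [e1, e2, pow_zero, one_mul, one_mul]
    exact (floor_diff (hv ω ω' h1 h2 e i)).trans (hcast _ (by omega)))
  -- the cell of the position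
  obtain ⟨B₂, hB₂, hP₂, φ₂, hφ₂⟩ := exact_label hp K (ptr F r) (F.bcl w C g) B₁ (by
    intro ω ω' h1 h2 e i
    have e1 : F.bcl w C g ω i = ⌊2 ^ w * C.L (g ω) (F.x1 w ω) i⌋ := rfl
    have e2 : F.bcl w C g ω' i = ⌊2 ^ w * C.L (g ω') (F.x1 w ω') i⌋ := rfl
    rw [e1, e2]
    have hg := hgg ω ω' (hB₁ _ h1) (hB₁ _ h2) e
    have k1 := hpos' ω ω' (hB₁ _ h1) hg e i
    have k2 := hv ω ω' (hB₁ _ h1) (hB₁ _ h2) e i
    have x1 : ∀ ω, 2 ^ w * C.L (g ω) (F.x1 w ω) i =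
        2 ^ w * C.L (g ω) (F.x ω) i - (F.box w C g).t ω * C.L (g ω) (F.d ω) i := by
      intro ω
      have a1 := Box.box_x F (by omega : w ≤ J) C g ω i
      have a2 := Box.bcl_eq F w C g ω i
      have a3 := Box.bvl_eq F w C g ω i
      have a4 : (F.box w C g).x ω i = (F.box w C g).u ω i +
        (F.box w C g).t ω * (F.box w C g).d ω i := rfl
      rw [a1, a2, a3, a4]
      ring
    refine (floor_diff (K := b + b') ?_).trans (hcast _ (by omega))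
    rw [x1 ω, x1 ω', ← ht ω ω' e]
    have e3 : 2 ^ w * C.L (g ω) (F.x ω) i - (F.box w C g).t ω * C.L (g ω) (F.d ω) i -
        (2 ^ w * C.L (g ω') (F.x ω') i - (F.box w C g).t ω * C.L (g ω') (F.d ω') i) =
        2 ^ w * (C.L (g ω) (F.x ω) i - C.L (g ω') (F.x ω') i) -
        (F.box w C g).t ω * (C.L (g ω) (F.d ω) i - C.L (g ω') (F.d ω') i) := by ring
    rw [e3]
    have k3 : |2 ^ w * (C.L (g ω) (F.x ω) i - C.L (g ω') (F.x ω') i)| ≤ b := by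
      rw [abs_mul, abs_of_pos (by positivity)]
      exact k1
    have k4 : |(F.box w C g).t ω * (C.L (g ω) (F.d ω) i - C.L (g ω') (F.d ω') i)| ≤ b' := by
      have := Box.t_mem F w C g ω
      rw [abs_mul, abs_of_nonneg this.1]
      calc _ ≤ 1 * (b' : ℝ) := mul_le_mul this.2.le k2 (abs_nonneg _) zero_le_one
        _ = b' := one_mul _
    push_cast
    exact (abs_sub _ _).trans (add_le_add k3 k4))
  -- the position
  obtain ⟨B₃, hB₃, hP₃, φ₃, hφ₃⟩ := exact_label hp K (ptr F r) ((F.zm w J' h C g).X J') B₂ (by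
    intro ω ω' h1 h2 e i
    have hg := hgg ω ω' (hB₁ _ (hB₂ _ h1)) (hB₁ _ (hB₂ _ h2)) e
    have k1 := hpos ω ω' (hB₁ _ (hB₂ _ h1)) hg e i
    have c1 : F.bvl C g ω i = F.bvl C g ω' i := by
      rw [hφ₁ ω (hB₂ _ h1), hφ₁ ω' (hB₂ _ h2), e]
    have c2 : F.bcl w C g ω i = F.bcl w C g ω' i := by
      rw [hφ₂ ω h1, hφ₂ ω' h2, e]
    have x1 := zm_x F h C g ω i
    have x2 := zm_x F h C g ω' i
    rw [← c1, ← c2, ← ht ω ω' e] at x2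
    refine (floor_diff (a := 2 ^ J' * (F.zm w J' h C g).x ω i)
      (b := 2 ^ J' * (F.zm w J' h C g).x ω' i) (K := b + 6) ?_).trans (hcast _ (by omega))
    have p0 : (0 : ℝ) < 2 ^ J' := by positivity
    have e3 : 2 ^ J' * (F.zm w J' h C g).x ω i - 2 ^ J' * (F.zm w J' h C g).x ω' i =
        2 ^ J' * ((F.zm w J' h C g).x ω i - (2 ^ w * C.L (g ω) (F.x ω) i - F.bcl w C g ω i -
          (F.box w C g).t ω * F.bvl C g ω i)) -
        2 ^ J' * ((F.zm w J' h C g).x ω' i - (2 ^ w * C.L (g ω') (F.x ω') i -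
          F.bcl w C g ω i - (F.box w C g).t ω * F.bvl C g ω i)) +
        2 ^ J' * 2 ^ w * (C.L (g ω) (F.x ω) i - C.L (g ω') (F.x ω') i) := by ring
    rw [e3]
    have y1 : |2 ^ J' * ((F.zm w J' h C g).x ω i - (2 ^ w * C.L (g ω) (F.x ω) i -
        F.bcl w C g ω i - (F.box w C g).t ω * F.bvl C g ω i))| ≤ 3 := by
      rw [abs_mul, abs_of_pos p0]
      rw [le_div_iff₀ p0] at x1
      linarith
    have y2 : |2 ^ J' * ((F.zm w J' h C g).x ω' i - (2 ^ w * C.L (g ω') (F.x ω') i -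
          F.bcl w C g ω i - (F.box w C g).t ω * F.bvl C g ω i))| ≤ 3 := by
      rw [abs_mul, abs_of_pos p0]
      rw [le_div_iff₀ p0] at x2
      linarith
    have y3 : |2 ^ J' * 2 ^ w * (C.L (g ω) (F.x ω) i - C.L (g ω') (F.x ω') i)| ≤ b := by
      rw [abs_mul, abs_of_pos (by positivity)]
      have : (2 : ℝ) ^ J' * 2 ^ w = 2 ^ (w + J') := by rw [pow_add]; ring
      rw [this]
      exact k1
    push_cast
    rw [abs_le] at y1 y2 y3 ⊢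
    constructor <;> linarith [y1.1, y1.2, y2.1, y2.2, y3.1, y3.2])
  have hKr : (0 : ℝ) ≤ (2 * (K : ℝ) + 1) ^ m := by positivity
  refine ⟨B₃, fun ω hω => hB₁ _ (hB₂ _ (hB₃ _ hω)), ?_, ⟨φ₁, fun ω hω => hφ₁ ω (hB₂ _ (hB₃ _ hω))⟩,
    fun y => (φ₃ y, (y.2.1 % 2 ^ (J - w) / 2 ^ (J - w - J'),
      (((y.2.1 / 2 ^ (J - w), γ y), (φ₂ y, φ₁ y)), y.2.2))), fun ω hω => ?_⟩
  · calc Pe F.p A ≤ (2 * (K : ℝ) + 1) ^ m * Pe F.p B₁ := hP₁
      _ ≤ (2 * (K : ℝ) + 1) ^ m * ((2 * (K : ℝ) + 1) ^ m * Pe F.p B₂) :=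
          mul_le_mul_of_nonneg_left hP₂ hKr
      _ ≤ (2 * (K : ℝ) + 1) ^ m * ((2 * (K : ℝ) + 1) ^ m * ((2 * (K : ℝ) + 1) ^ m *
            Pe F.p B₃)) := mul_le_mul_of_nonneg_left (mul_le_mul_of_nonneg_left hP₃ hKr) hKr
      _ = _ := by ring
  · have e1 := hφ₃ ω hω
    have e2 := hφ₂ ω (hB₃ _ hω)
    have e3 := hφ₁ ω (hB₂ _ (hB₃ _ hω))
    have e4 := hγ ω (hB₁ _ (hB₂ _ (hB₃ _ hω)))
    have e5 : Fam.pt (F.zm w J' h C g) ω = ((F.zm w J' h C g).X J' ω,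
      (F.T ω % 2 ^ (J - w) / 2 ^ (J - w - J'),
      (((F.T ω / 2 ^ (J - w), g ω), (F.bcl w C g ω, F.bvl C g ω)), F.Z ω))) := rfl
    rw [e5, e1, e2, e3, e4]
    rfl

/-- **Planks of the zoom** are planks of the velocities in the coordinates, at the points of
resolution `r`. -/
theorem zm_plu (F : Fam m J) {w J' r : ℕ} (h : w + J' ≤ J) {C : Crd m κ} (g : F.Ω → κ)
    {B : F.Ω → Prop} {j : ℕ} {ρ : ℝ}
    (hv : ∃ φ : (Fin m → ℤ) × (ℕ × F.ζ) → Fin m → ℤ, ∀ ω, B ω → F.bvl C g ω = φ (ptr F r ω))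
    (hφ : ∃ φ : (Fin m → ℤ) × (ℕ × F.ζ) → (Fin m → ℤ) × (ℕ × (F.zm w J' h C g).ζ),
        ∀ ω, B ω → Fam.pt (F.zm w J' h C g) ω = φ (ptr F r ω))
    (hP : PlU j ρ (Fam.pt (F.zm w J' h C g)) (F.zm w J' h C g).d B) :
    PlU j (ρ + 1 / 2 ^ J') (ptr F r) (fun ω => C.L (g ω) (F.d ω)) B := by
  obtain ⟨φ₁, hφ₁⟩ := hv
  obtain ⟨φ, hφ⟩ := hφ
  obtain ⟨ζ, hζ⟩ := hP
  refine ⟨fun y => (fun i => (ζ (φ y)).1 i + φ₁ y i, (ζ (φ y)).2), fun ω hω => ?_⟩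
  obtain ⟨c, hc⟩ := hζ ω hω
  refine ⟨c, fun i => ?_⟩
  have h1 := hc i
  rw [hφ ω hω] at h1
  have h2 := zm_d F h C g ω i
  have h3 : F.bvl C g ω i = φ₁ (ptr F r ω) i := congrFun (hφ₁ ω hω) i
  simp only
  rw [h3] at h2
  rw [abs_le] at h1 h2 ⊢
  constructor <;> linarith [h1.1, h1.2, h2.1, h2.2]

end Pool.ZCL
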