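import Pool.Agent.H18.PB.Clg
import Pool.Agent.H35.ZCL.Reg

/-!
# The class of regular families without large bad events, and the sections of a family

`zc m Good Bad ψ` is the class of the regular families with constant side information and nearly
uniform times, with the property `Good`, in which no event of probability at least
`exp (-ψ i J)` has the property `Bad i`. Theorem `zcl_core`: a claim for this class holds in the
sections of the side information of any family with small time deficits and without large bad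
events, on an event of probability at least `exp (-δ J)`, with `δ` arbitrary.
-/

set_option autoImplicit false

namespace Pool.ZCL

open Finset Real
open Pool.Agent.H49.Ent Pool.Agent.H32.Dense Pool.STK Pool.KA Pool.K2S Pool.PB

/-- Regular families with the property `Good`, without large bad events. -/
def zc (m : ℕ) (Good : ∀ J : ℕ, Fam m J → Prop) (Bad : ℕ → Stat m) (ψ : ℕ → ℝ) : FCl m where
  T τ J F := F.Tr ∧ F.Tm (τ * J) ∧ F.Rb (τ * J) ∧ Good J F ∧ ∀ i : ℕ, (i : ℝ) * τ ≤ 1 →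
    ∀ B : F.Ω → Prop, Real.exp (-(ψ i * J)) ≤ Pe F.p B → ¬ Bad i J F B
  mono := by
    rintro τ τ' J F h ⟨h1, h2, ⟨⟨a1, b1⟩, ⟨a2, b2⟩, ⟨a3, b3⟩, ⟨a4, b4⟩, ⟨a5, b5⟩⟩, h4, h5⟩
    have hJ : τ * (J : ℝ) ≤ τ' * J := mul_le_mul_of_nonneg_right h (Nat.cast_nonneg J)
    refine ⟨h1, ?_, ⟨⟨a1, rg_mono hJ b1⟩, ⟨a2, rg_mono hJ b2⟩, ⟨a3, rg_mono hJ b3⟩,
      ⟨a4, rg_mono hJ b4⟩, ⟨a5, rg_mono hJ b5⟩⟩, h4, fun i hi => h5 i ?_⟩
    · unfold Fam.Tm at h2 ⊢
      linarith
    · exact (mul_le_mul_of_nonneg_left h (Nat.cast_nonneg i)).trans hi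
  tr h := h.1
  tm h := h.2.1
  rb h := h.2.2.1

/-- `c` refines the side information and is a function of it on `B`. -/
def Sel {m J : ℕ} (G : Fam m J) {κ : Type} (c : G.Ω → κ) (B : G.Ω → Prop) : Prop :=
  (∀ ω ω', c ω = c ω' → G.Z ω = G.Z ω') ∧ ∀ ω ω', B ω → B ω' → G.Z ω = G.Z ω' → c ω = c ω'

/-- The probability of an event which is large in many sections. -/
theorem Pe_sections {Ω V : Type} [Fintype Ω] {p : Ω → ℝ} (hp : IsLaw p) (c : Ω → V)
    (A B : Ω → Prop) {e : ℝ}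
    (h : ∀ ω, 0 < p ω → A ω → e ≤ Pe (cond p c (c ω)) B) : e * Pe p A ≤ Pe p B := by
  classical
  have h1 : Pe p B = Ex p (fun ω => Pool.KAF.Pr (cond p c (c ω)) {ω | B ω}) := by
    rw [Pool.KAL.CDF.Ex_Pr hp.nonneg]
    rfl
  rw [h1, Pe_eq, Finset.mul_sum]
  unfold Ex
  refine Finset.sum_le_sum fun ω _ => ?_
  have h2 : 0 ≤ Pool.KAF.Pr (cond p c (c ω)) {ω | B ω} :=
    law_nonneg (cond_nonneg hp.nonneg _ _) _ _
  rcases (hp.nonneg ω).eq_or_lt with h0 | h0
  · rw [← h0, zero_mul]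
    simp
  · by_cases hA : A ω
    · rw [if_pos hA, mul_comm]
      exact mul_le_mul_of_nonneg_left (h ω h0 hA) h0.le
    · rw [if_neg hA, mul_zero]
      exact mul_nonneg h0.le h2

/-- Pigeonhole for a label with `M` values. -/
theorem Pe_pigeon {Ω : Type} [Fintype Ω] {p : Ω → ℝ} (hp : IsLaw p) {M : ℕ} (k : Ω → Fin M)
    (A : Ω → Prop) : ∃ (_ : 0 < M) (k₀ : Fin M), Pe p A / M ≤ Pe p (fun ω => k ω = k₀ ∧ A ω) := by
  classical
  obtain ⟨ω₀, hω₀⟩ : ∃ ω, 0 < p ω := by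
    by_contra hcon
    push Not at hcon
    have : ∑ ω, p ω ≤ 0 := Finset.sum_nonpos fun ω _ => hcon ω
    rw [hp.sum_one] at this
    linarith
  have hM : 0 < M := by
    have := (k ω₀).2
    omega
  have hMr : (0 : ℝ) < M := by exact_mod_cast hM
  refine ⟨hM, ?_⟩
  by_contra hcon
  push Not at hcon
  have h1 : Pe p A = ∑ i : Fin M, Pe p (fun ω => k ω = i ∧ A ω) := by
    simp only [Pe_eq]
    rw [Finset.sum_comm]
    refine Finset.sum_congr rfl fun ω _ => ?_
    rw [Finset.sum_eq_single (k ω)]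
    · by_cases hA : A ω
      · rw [if_pos hA, if_pos ⟨rfl, hA⟩]
      · rw [if_neg hA, if_neg (fun h => hA h.2)]
    · intro i _ hi
      rw [if_neg (fun h => hi h.1.symm)]
    · intro h
      exact absurd (Finset.mem_univ _) h
  have h2 : ∑ i : Fin M, Pe p (fun ω => k ω = i ∧ A ω) < ∑ _i : Fin M, Pe p A / M :=
    Finset.sum_lt_sum_of_nonempty ⟨⟨0, hM⟩, Finset.mem_univ _⟩ fun i _ => hcon i
  rw [Finset.sum_const, Finset.card_univ, Fintype.card_fin, nsmul_eq_mul, ← h1,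
    mul_div_cancel₀ _ hMr.ne'] at h2
  exact lt_irrefl _ h2

theorem Pe_supp {Ω : Type} [Fintype Ω] (p : Ω → ℝ) (B : Ω → Prop) :
    Pe p (fun ω => B ω ∧ p ω ≠ 0) = Pe p B := by
  classical
  rw [Pe_eq, Pe_eq]
  refine Finset.sum_congr rfl fun ω' _ => ?_
  by_cases h2 : p ω' = 0
  · rw [h2]
    simp
  · by_cases h3 : B ω'
    · rw [if_pos h3, if_pos ⟨h3, h2⟩]
    · rw [if_neg h3, if_neg (fun h => h3 h.1)]

theorem Pe_fiber {Ω V : Type} [Fintype Ω] {p : Ω → ℝ} (c : Ω → V) (v : V)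
    (h : IsLaw (cond p c v)) : Pe (cond p c v) (fun ω => c ω = v) = 1 := by
  classical
  rw [← Pe_univ h, Pe_eq, Pe_eq]
  refine Finset.sum_congr rfl fun ω' _ => ?_
  rw [if_pos trivial]
  by_cases h2 : c ω' = v
  · rw [if_pos h2]
  · rw [if_neg h2]
    have h3 : cond p c v ω' = 0 := by
      unfold Pool.Agent.H49.Ent.cond
      rw [if_neg h2]
    exact h3.symm

/-- The section of a family. -/
theorem isLaw_sec {Ω V : Type} [Fintype Ω] {p : Ω → ℝ} (hp : IsLaw p) (c : Ω → V) {ω : Ω}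
    (hω : 0 < p ω) : IsLaw (cond p c (c ω)) :=
  ⟨cond_nonneg hp.nonneg _ _, sum_cond _ _ (law_pos hp.nonneg c hω).ne'⟩

/-- **Claims in the sections.** -/
theorem zcl_core {m : ℕ} {Good : ∀ J : ℕ, Fam m J → Prop} {Bad : ℕ → Stat m} {ψ : ℕ → ℝ}
    (hψ : ∀ i, 0 < ψ i)
    (hinv : ∀ (i J : ℕ) (F : Fam m J) (A : F.Ω → Prop), Bad i J F A →
      Bad i J F (fun ω => A ω ∧ F.p ω ≠ 0))
    {Φ : Stat m} (hΦ : Clg (zc m Good Bad ψ) Φ) {B₀ δ : ℝ} (hB₀ : 0 < B₀) (hδ : 0 < δ) :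
    ∃ η > 0, ∃ n : ℕ, ∃ J₁ : ℕ, ∀ J ≥ J₁, ∀ G : Fam m J, G.Tm (η * J) →
      (∀ z, 0 < law G.p G.Z z → H (cond G.p G.Z z) G.l ≤ B₀ * J) →
      (∀ (κ : Type) (c : G.Ω → κ) (v : κ) (h : IsLaw (cond G.p c v)),
        (∀ ω ω', c ω = c ω' → G.Z ω = G.Z ω') → Good J (G.res c v h)) →
      (∀ i ≤ n, ∀ (κ : Type) (c : G.Ω → κ) (B : G.Ω → Prop), Sel G c B →
        Real.exp (-(2 * ψ i * J)) ≤ Pe G.p B →
        ¬ ∀ ω, 0 < G.p ω → B ω → ∀ h : IsLaw (cond G.p c (c ω)),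
          Bad i J (G.res c (c ω) h) (fun ω' => B ω' ∧ c ω' = c ω)) →
      ∃ (κ : Type) (c : G.Ω → κ) (B : G.Ω → Prop), Sel G c B ∧
        Real.exp (-(δ * J)) ≤ Pe G.p B ∧
        ∀ ω, 0 < G.p ω → B ω → ∀ h : IsLaw (cond G.p c (c ω)),
          Φ J (G.res c (c ω) h) (fun ω' => B ω' ∧ c ω' = c ω) := by
  classical
  obtain ⟨c₀, hc₀, J₂, hwin⟩ := hΦ.win (δ / 2) (half_pos hδ)
  obtain ⟨n, hn⟩ : ∃ n : ℕ, n = ⌊1 / c₀⌋₊ := ⟨_, rfl⟩
  obtain ⟨M, η, hη, J₃, hreg⟩ := reg_parts m hB₀ hc₀ (ζ := 1 / 4) (by norm_num)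
  obtain ⟨J₄, hJ₄⟩ := exists_nat_gt (∑ i ∈ range (n + 1), |Real.log (4 * (n + 1) * (M + 1))| / ψ i +
    2 * |Real.log (4 * (M + 1))| / δ + 1)
  refine ⟨η, hη, n, max (max J₂ J₃) J₄, fun J hJ G hTm hl hGood hbad => ?_⟩
  have hp := G.isLaw
  have h0 := hp.nonneg
  have hJ2 : J₂ ≤ J := (le_max_left _ _).trans ((le_max_left _ _).trans hJ)
  have hJ3 : J₃ ≤ J := (le_max_right _ _).trans ((le_max_left _ _).trans hJ)
  have hJr : ∑ i ∈ range (n + 1), |Real.log (4 * (n + 1) * (M + 1))| / ψ i +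
      2 * |Real.log (4 * (M + 1))| / δ + 1 < J :=
    hJ₄.trans_le (by exact_mod_cast (le_max_right _ _).trans hJ)
  have q0 : ∀ i ∈ range (n + 1), 0 ≤ |Real.log (4 * (n + 1) * (M + 1))| / ψ i := fun i _ =>
    div_nonneg (abs_nonneg _) (hψ i).le
  have q1 : 0 ≤ ∑ i ∈ range (n + 1), |Real.log (4 * (n + 1) * (M + 1))| / ψ i :=
    Finset.sum_nonneg q0
  have q2 : 0 ≤ 2 * |Real.log (4 * (M + 1))| / δ := by positivity
  have hJ0 : (0 : ℝ) < J := by linarith
  obtain ⟨k, E, hE, hEreg⟩ := hreg J hJ3 G hTm hl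
  obtain ⟨c, hc⟩ : ∃ c : G.Ω → G.ζ × Fin M, c = fun ω => (G.Z ω, k ω) := ⟨_, rfl⟩
  have hcZ : ∀ ω ω', c ω = c ω' → G.Z ω = G.Z ω' := fun ω ω' h => by
    rw [hc] at h
    exact (Prod.ext_iff.1 h).1
  have hce : (fun ω => (G.Z ω, k ω)) = c := hc.symm
  rw [hce] at hEreg
  have hE' : 1 - 1 / 4 ≤ Pe G.p (fun ω => E (c ω)) := by
    rw [hc]
    exact hE
  -- the bad sections
  obtain ⟨V, hV⟩ : ∃ V : ℕ → G.Ω → Prop, V = fun i ω => ∃ B : G.Ω → Prop, Sub B (fun ω' =>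
      c ω' = c ω ∧ G.p ω' ≠ 0) ∧ Real.exp (-(ψ i * J)) ≤ Pe (cond G.p c (c ω)) B ∧
      ∀ h : IsLaw (cond G.p c (c ω)), Bad i J (G.res c (c ω) h) B := ⟨_, rfl⟩
  have hVsmall : ∀ i ≤ n, Pe G.p (V i) ≤ 1 / (4 * (n + 1)) := by
    intro i hi
    by_contra hcon
    push Not at hcon
    obtain ⟨hM0, k₀, hk₀⟩ := Pe_pigeon hp k (V i)
    have hM0r : (0 : ℝ) < M := by exact_mod_cast hM0
    have hV1 : ∀ ω, V i ω → ∃ B : G.Ω → Prop, Sub B (fun ω' =>
      c ω' = c ω ∧ G.p ω' ≠ 0) ∧ Real.exp (-(ψ i * J)) ≤ Pe (cond G.p c (c ω)) B ∧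
      ∀ h : IsLaw (cond G.p c (c ω)), Bad i J (G.res c (c ω) h) B := fun ω h => by
        rw [hV] at h
        exact h
    -- a choice of the bad events which depends on the section only
    have hch : ∀ v : G.ζ × Fin M, ∃ B : G.Ω → Prop, (∃ ω, c ω = v ∧ V i ω) → Sub B (fun ω' =>
        c ω' = v ∧ G.p ω' ≠ 0) ∧ Real.exp (-(ψ i * J)) ≤ Pe (cond G.p c v) B ∧
        ∀ h : IsLaw (cond G.p c v), Bad i J (G.res c v h) B := by
      intro v
      by_cases h : ∃ ω, c ω = v ∧ V i ω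
      · obtain ⟨ω, rfl, hω⟩ := h
        obtain ⟨B, hB⟩ := hV1 ω hω
        exact ⟨B, fun _ => hB⟩
      · exact ⟨fun _ => False, fun h' => absurd h' h⟩
    choose Bv hBv using hch
    obtain ⟨B, hB⟩ : ∃ B : G.Ω → Prop, B = fun ω => k ω = k₀ ∧ (∃ ω', c ω' = c ω ∧ V i ω') ∧
        Bv (c ω) ω := ⟨_, rfl⟩
    have hSel : Sel G c B := by
      refine ⟨hcZ, fun ω ω' h1 h2 h3 => ?_⟩
      rw [hB] at h1 h2
      rw [hc]
      exact Prod.ext h3 (h1.1.trans h2.1.symm)
    have hBc : ∀ ω, k ω = k₀ → (∃ ω', c ω' = c ω ∧ V i ω') →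
        (fun ω' => B ω' ∧ c ω' = c ω) = Bv (c ω) := by
      intro ω h1 h2
      funext ω'
      refine propext ⟨fun h3 => ?_, fun h3 => ?_⟩
      · have h4 := h3.1
        rw [hB] at h4
        rw [← h3.2]
        exact h4.2.2
      · have h4 := (hBv (c ω) h2).1 ω' h3
        refine ⟨?_, h4.1⟩
        rw [hB]
        refine ⟨?_, ?_, ?_⟩
        · have h5 := h4.1
          rw [hc] at h5
          exact (Prod.ext_iff.1 h5).2.trans h1
        · rw [h4.1]
          exact h2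
        · rw [h4.1]
          exact h3
    have hPB : Real.exp (-(2 * ψ i * J)) ≤ Pe G.p B := by
      have h1 := Pe_sections hp c (fun ω => k ω = k₀ ∧ V i ω) B
        (e := Real.exp (-(ψ i * J))) (fun ω hω hA => by
          have h2 : ∃ ω', c ω' = c ω ∧ V i ω' := ⟨ω, rfl, hA.2⟩
          refine (hBv (c ω) h2).2.1.trans (Pe_mono (isLaw_sec hp c hω) fun ω' hω' => ?_)
          have h3 := congrFun (hBc ω hA.1 h2) ω'
          have h4 : (B ω' ∧ c ω' = c ω) := by rw [h3]; exact hω'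
          exact h4.1)
      refine le_trans ?_ h1
      have h2 : 1 / (4 * (n + 1)) / M ≤ Pe G.p (fun ω => k ω = k₀ ∧ V i ω) :=
        (div_le_div_of_nonneg_right hcon.le hM0r.le).trans hk₀
      refine le_trans ?_ (mul_le_mul_of_nonneg_left h2 (Real.exp_pos _).le)
      have h3 : |Real.log (4 * (n + 1) * (M + 1))| / ψ i < J := by
        have := Finset.single_le_sum q0 (Finset.mem_range.2 (by omega : i < n + 1))
        linarith
      rw [div_lt_iff₀ (hψ i)] at h3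
      have h4 : Real.log (4 * (n + 1) * (M + 1)) ≤ ψ i * J := by
        have := le_abs_self (Real.log (4 * (n + 1) * (M + 1)))
        linarith
      rw [Real.log_le_iff_le_exp (by positivity)] at h4
      have h5 : Real.exp (-(2 * ψ i * J)) = Real.exp (-(ψ i * J)) * Real.exp (-(ψ i * J)) := by
        rw [← Real.exp_add]
        congr 1
        ring
      rw [h5]
      refine mul_le_mul_of_nonneg_left ?_ (Real.exp_pos _).le
      rw [Real.exp_neg, div_div, one_div]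
      refine inv_anti₀ (by positivity) (le_trans ?_ h4)
      refine mul_le_mul_of_nonneg_left (by linarith) (by positivity)
    refine hbad i hi _ c B hSel hPB fun ω hω hBω h => ?_
    rw [hB] at hBω
    exact (congrArg (fun X : G.Ω → Prop => Bad i J (G.res c (c ω) h) X)
      (hBc ω hBω.1 hBω.2.1)).mpr ((hBv (c ω) hBω.2.1).2.2 h)
  -- the good sections
  obtain ⟨A, hA⟩ : ∃ A : G.Ω → Prop, A = fun ω => G.p ω ≠ 0 ∧ E (c ω) ∧ ∀ i ≤ n, ¬ V i ω :=
    ⟨_, rfl⟩
  have hPA : 1 / 2 ≤ Pe G.p A := by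
    have h1 : Pe G.p (fun ω => E (c ω)) ≤ Pe G.p A +
        ∑ i ∈ range (n + 1), Pe G.p (V i) := by
      simp only [Pe_eq]
      rw [Finset.sum_comm, ← Finset.sum_add_distrib]
      refine Finset.sum_le_sum fun ω _ => ?_
      have hω := h0 ω
      have hnn : ∀ i ∈ range (n + 1), 0 ≤ (if V i ω then G.p ω else 0) := fun i _ => by
        split_ifs
        · exact hω
        · exact le_rfl
      by_cases hE1 : E (c ω)
      · rw [if_pos hE1]
        by_cases hAω : A ω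
        · rw [if_pos hAω]
          have := Finset.sum_nonneg hnn
          linarith
        · rw [if_neg hAω, zero_add]
          rcases hω.eq_or_lt with h2 | h2
          · rw [← h2]
            exact Finset.sum_nonneg (fun i hi => by
              have := hnn i hi
              rwa [← h2] at this)
          · have h3 : ∃ i ≤ n, V i ω := by
              by_contra hcon
              push Not at hcon
              rw [hA] at hAω
              exact hAω ⟨h2.ne', hE1, hcon⟩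
            obtain ⟨i, hi, hVi⟩ := h3
            have h4 := Finset.single_le_sum hnn (Finset.mem_range.2 (by omega : i < n + 1))
            rwa [if_pos hVi] at h4
      · rw [if_neg hE1]
        refine add_nonneg ?_ (Finset.sum_nonneg hnn)
        split_ifs
        · exact hω
        · exact le_rfl
    have h2 : ∑ i ∈ range (n + 1), Pe G.p (V i) ≤ ∑ _i ∈ range (n + 1),
        1 / (4 * ((n : ℝ) + 1)) := Finset.sum_le_sum fun i hi =>
      hVsmall i (by have := Finset.mem_range.1 hi; omega)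
    rw [Finset.sum_const, card_range, nsmul_eq_mul] at h2
    have h3 : ((n + 1 : ℕ) : ℝ) * (1 / (4 * ((n : ℝ) + 1))) = 1 / 4 := by
      push_cast
      field_simp
    rw [h3] at h2
    linarith
  obtain ⟨hM0, k₀, hk₀⟩ := Pe_pigeon hp k A
  have hM0r : (0 : ℝ) < M := by exact_mod_cast hM0
  -- the events in the good sections
  have hgood : ∀ v : G.ζ × Fin M, ∃ B : G.Ω → Prop, (∃ ω, c ω = v ∧ A ω) → Sub B (fun ω' =>
      c ω' = v) ∧ Real.exp (-(δ / 2 * J)) ≤ Pe (cond G.p c v) B ∧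
      ∀ h : IsLaw (cond G.p c v), Φ J (G.res c v h) B := by
    intro v
    by_cases h : ∃ ω, c ω = v ∧ A ω
    · obtain ⟨ω, rfl, hω⟩ := h
      rw [hA] at hω
      obtain ⟨hω1, hω2, hω3⟩ := hω
      have hω0 : 0 < G.p ω := lt_of_le_of_ne (h0 ω) (Ne.symm hω1)
      have hlaw := isLaw_sec hp c hω0
      obtain ⟨hlaw', r1, r2, r3⟩ := hEreg (c ω) (law_pos h0 c hω0) hω2
      have hT : (zc m Good Bad ψ).T c₀ J (G.res c (c ω) hlaw') := by
        refine ⟨r1, r2, r3, hGood _ c _ hlaw' hcZ, fun i hi B hPB hBad => ?_⟩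
        have hin : i ≤ n := by
          rw [hn]
          refine Nat.le_floor ?_
          rw [le_div_iff₀ hc₀]
          exact hi
        refine hω3 i hin ?_
        rw [hV]
        refine ⟨fun ω' => B ω' ∧ (G.res c (c ω) hlaw').p ω' ≠ 0, fun ω' hω' => ?_, ?_,
          fun h => hinv i J _ B hBad⟩
        · have h1 : 0 < cond G.p c (c ω) ω' :=
            lt_of_le_of_ne (cond_nonneg h0 _ _ _) (Ne.symm hω'.2)
          have h2 := (cond_pos_iff h0 _ _ _).1 h1
          exact ⟨h2.2, h2.1.ne'⟩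
        · exact hPB.trans (le_of_eq (Pe_supp (cond G.p c (c ω)) B).symm)
      have hP1 : Pe (G.res c (c ω) hlaw').p (fun ω' => c ω' = c ω) = 1 :=
        Pe_fiber c (c ω) hlaw'
      have hSt : (zc m Good Bad ψ).St c₀ (G.res c (c ω) hlaw') (fun ω' => c ω' = c ω) := by
        refine ⟨hT, ?_⟩
        rw [hP1]
        exact Real.exp_le_one_iff.2 (by
          have : 0 ≤ c₀ * (J : ℝ) := by positivity
          linarith)
      obtain ⟨B, hB1, hB2, hB3⟩ := hwin J hJ2 _ _ hSt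
      refine ⟨B, fun _ => ⟨hB1, ?_, fun h => hB3⟩⟩
      rw [hP1, mul_one] at hB2
      exact hB2
    · exact ⟨fun _ => False, fun h' => absurd h' h⟩
  choose Bv hBv using hgood
  obtain ⟨B, hB⟩ : ∃ B : G.Ω → Prop, B = fun ω => k ω = k₀ ∧ (∃ ω', c ω' = c ω ∧ A ω') ∧
      Bv (c ω) ω := ⟨_, rfl⟩
  have hSel : Sel G c B := by
    refine ⟨hcZ, fun ω ω' h1 h2 h3 => ?_⟩
    rw [hB] at h1 h2
    rw [hc]
    exact Prod.ext h3 (h1.1.trans h2.1.symm)
  have hBc : ∀ ω, k ω = k₀ → (∃ ω', c ω' = c ω ∧ A ω') →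
      (fun ω' => B ω' ∧ c ω' = c ω) = Bv (c ω) := by
    intro ω h1 h2
    funext ω'
    refine propext ⟨fun h3 => ?_, fun h3 => ?_⟩
    · have h4 := h3.1
      rw [hB] at h4
      rw [← h3.2]
      exact h4.2.2
    · have h4 := (hBv (c ω) h2).1 ω' h3
      refine ⟨?_, h4⟩
      rw [hB]
      refine ⟨?_, ?_, ?_⟩
      · have h5 := h4
        rw [hc] at h5
        exact (Prod.ext_iff.1 h5).2.trans h1
      · rw [h4]
        exact h2
      · rw [h4]
        exact h3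
  refine ⟨_, c, B, hSel, ?_, fun ω hω hBω h => ?_⟩
  · have h1 := Pe_sections hp c (fun ω => k ω = k₀ ∧ A ω) B
      (e := Real.exp (-(δ / 2 * J))) (fun ω hω hA1 => by
        have h2 : ∃ ω', c ω' = c ω ∧ A ω' := ⟨ω, rfl, hA1.2⟩
        refine (hBv (c ω) h2).2.1.trans (Pe_mono (isLaw_sec hp c hω) fun ω' hω' => ?_)
        have h3 := congrFun (hBc ω hA1.1 h2) ω'
        have h4 : (B ω' ∧ c ω' = c ω) := by rw [h3]; exact hω'
        exact h4.1)
    refine le_trans ?_ h1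
    have h2 : 1 / 2 / M ≤ Pe G.p (fun ω => k ω = k₀ ∧ A ω) :=
      (div_le_div_of_nonneg_right hPA hM0r.le).trans hk₀
    refine le_trans ?_ (mul_le_mul_of_nonneg_left h2 (Real.exp_pos _).le)
    have h3 : 2 * |Real.log (4 * (M + 1))| / δ < J := by linarith
    rw [div_lt_iff₀ hδ] at h3
    have h4 : Real.log (4 * (M + 1)) ≤ δ / 2 * J := by
      have := le_abs_self (Real.log (4 * (M + 1)))
      linarith
    rw [Real.log_le_iff_le_exp (by positivity)] at h4
    have h5 : Real.exp (-(δ * J)) = Real.exp (-(δ / 2 * J)) * Real.exp (-(δ / 2 * J)) := by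
      rw [← Real.exp_add]
      congr 1
      ring
    rw [h5]
    refine mul_le_mul_of_nonneg_left ?_ (Real.exp_pos _).le
    rw [Real.exp_neg, div_div, one_div]
    refine inv_anti₀ (by positivity) (le_trans ?_ h4)
    linarith
  · rw [hB] at hBω
    exact (congrArg (fun X : G.Ω → Prop => Φ J (G.res c (c ω) h) X)
      (hBc ω hBω.1 hBω.2.1)).mpr ((hBv (c ω) hBω.2.1).2.2 h)

end Pool.ZCL
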