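import Pool.Agent.H35.ZCL.Leaf

/-!
# Classes of zooms, with chosen scales of spread

The class `zg m j gs r ψ`: regular families with nearly uniform times, with spread fans at the
scales `gs i` and with a tail which is not full, on all events which are not too small. For
constant `gs` this is spread at one scale.
-/

set_option autoImplicit false

namespace Pool.ZCL

open Finset Real
open Pool.Agent.H49.Ent Pool.Agent.H32.Dense Pool.STK Pool.KA Pool.KSAT Pool.K2S Pool.PB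

/-- The list of the bad properties. -/
def gBad (m j : ℕ) (gs : ℕ → ℝ) (r : ℝ) (i : ℕ) : Stat m := fun J F B =>
  BadS m j (gs i) J F B ∨ BadT m r (1 / ((i : ℝ) + 1)) J F B

/-- The class of zooms. -/
def zg (m j : ℕ) (gs : ℕ → ℝ) (r : ℝ) (ψ : ℕ → ℝ) : FCl m :=
  zc m (fun _ _ => True) (gBad m j gs r) ψ

theorem gBad_inv {m j : ℕ} {gs : ℕ → ℝ} {r : ℝ} (i J : ℕ) (F : Fam m J) (A : F.Ω → Prop)
    (h : gBad m j gs r i J F A) : gBad m j gs r i J F (fun ω => A ω ∧ F.p ω ≠ 0) := by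
  rcases h with h | ⟨P, h1, h2, h3⟩
  · exact Or.inl (PlU.hered _ _ _ _ A _ (fun ω hω => hω.1) h)
  · refine Or.inr ⟨P, h1, h2, ?_⟩
    rw [cond_supp]
    exact h3

variable {m J : ℕ}

/-- The fans are spread at the scales `gs i`. -/
theorem sp_zg {j : ℕ} {gs : ℕ → ℝ} {r : ℝ} {ψ : ℕ → ℝ} (hψ : ∀ i, 0 < ψ i) (i : ℕ) {g : ℝ}
    (hi : gs i ≤ g) : Clg (zg m j gs r ψ) (fun _ F A => Sp F j (ψ i / 2) g A) := by
  have hψi := hψ i
  refine Clg.of (τ := min (1 / ((i : ℝ) + 1)) (ψ i / 2))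
    (lt_min (by positivity) (by positivity)) 0 fun J _ F A hS => ?_
  intro B hB hPB hBad
  have hJ : (0 : ℝ) ≤ J := Nat.cast_nonneg J
  have hiτ : (i : ℝ) * min (1 / ((i : ℝ) + 1)) (ψ i / 2) ≤ 1 := by
    have h1 : min (1 / ((i : ℝ) + 1)) (ψ i / 2) ≤ 1 / ((i : ℝ) + 1) := min_le_left _ _
    have h2 : (0 : ℝ) ≤ i := Nat.cast_nonneg i
    calc (i : ℝ) * min (1 / ((i : ℝ) + 1)) (ψ i / 2) ≤ i * (1 / ((i : ℝ) + 1)) :=
          mul_le_mul_of_nonneg_left h1 h2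
      _ ≤ 1 := by
          rw [mul_one_div, div_le_one (by positivity)]
          linarith
  refine hS.1.2.2.2.2 i hiτ B ?_ (Or.inl ?_)
  · refine le_trans ?_ hPB
    refine le_trans ?_ (mul_le_mul_of_nonneg_left hS.2 (Real.exp_pos _).le)
    rw [← Real.exp_add]
    refine Real.exp_le_exp.2 ?_
    have h1 : min (1 / ((i : ℝ) + 1)) (ψ i / 2) * (J : ℝ) ≤ ψ i / 2 * J :=
      mul_le_mul_of_nonneg_right (min_le_right _ _) hJ
    linarith
  · exact hBad.mono (inv_mono (Nat.floor_le_floor (mul_le_mul_of_nonneg_right hi hJ)))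

/-- Spread at all scales. -/
theorem sps_zg {j : ℕ} {gs : ℕ → ℝ} {r : ℝ} {ψ : ℕ → ℝ} (hψ : ∀ i, 0 < ψ i)
    (hgs : ∀ g > 0, ∃ i, gs i ≤ g) : SPS (zg m j gs r ψ) j := by
  intro g hg
  obtain ⟨i, hi⟩ := hgs g hg
  exact ⟨ψ i / 2, by have := hψ i; positivity, sp_zg hψ i hi⟩

/-- The tail is not full. -/
theorem tls_zg {j : ℕ} {gs : ℕ → ℝ} {r : ℝ} {ψ : ℕ → ℝ} (hr : 0 < r)
    (hψ : ∀ i, 0 < ψ i) : TLS (zg m j gs r ψ) := by
  refine ⟨r, hr, fun η hη => ?_⟩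
  obtain ⟨i, hi⟩ := exists_inv hη
  have hψi := hψ i
  refine Clg.of (τ := min (1 / ((i : ℝ) + 1)) (ψ i))
    (lt_min (by positivity) (by positivity)) 0 fun J _ F A hS => ?_
  intro P hP1 hP2
  by_contra hcon
  push Not at hcon
  have hJ : (0 : ℝ) ≤ J := Nat.cast_nonneg J
  have hiτ : (i : ℝ) * min (1 / ((i : ℝ) + 1)) (ψ i) ≤ 1 := by
    have h1 : min (1 / ((i : ℝ) + 1)) (ψ i) ≤ 1 / ((i : ℝ) + 1) := min_le_left _ _
    have h2 : (0 : ℝ) ≤ i := Nat.cast_nonneg i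
    calc (i : ℝ) * min (1 / ((i : ℝ) + 1)) (ψ i) ≤ i * (1 / ((i : ℝ) + 1)) :=
          mul_le_mul_of_nonneg_left h1 h2
      _ ≤ 1 := by
          rw [mul_one_div, div_le_one (by positivity)]
          linarith
  refine hS.1.2.2.2.2 i hiτ A ?_ (Or.inr ⟨P, hP1, hP2, ?_⟩)
  · refine le_trans ?_ hS.2
    refine Real.exp_le_exp.2 ?_
    have h1 : min (1 / ((i : ℝ) + 1)) (ψ i) * (J : ℝ) ≤ ψ i * J :=
      mul_le_mul_of_nonneg_right (min_le_right _ _) hJ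
    linarith
  · refine lt_of_le_of_lt ?_ hcon
    have := mul_le_mul_of_nonneg_right hi hJ
    linarith

/-- The bad properties of the sections, glued. -/
theorem gbad_glue {j : ℕ} {gs : ℕ → ℝ} {r : ℝ} {i : ℕ} {G : Fam m J} {κ : Type} {c : G.Ω → κ}
    {B : G.Ω → Prop} (hS : Sel G c B) (hB : 0 < Pe G.p B)
    (h : ∀ ω, 0 < G.p ω → B ω → ∀ hl : IsLaw (cond G.p c (c ω)),
      gBad m j gs r i J (G.res c (c ω) hl) (fun ω' => B ω' ∧ c ω' = c ω)) :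
    (∃ B' : G.Ω → Prop, Sub B' B ∧ Pe G.p B ≤ (J + 2 : ℕ) * Pe G.p B' ∧
      PlU j (1 / 2 ^ ⌊gs i * J⌋₊) (Fam.pt G) G.d B') ∨
    ∃ (B' : G.Ω → Prop) (P : ℕ), Sub B' B ∧ Pe G.p B ≤ (J + 2 : ℕ) * Pe G.p B' ∧
      P ≤ J ∧ J ≤ 2 * P ∧ (m * Real.log 2 - r) * ((J : ℝ) - P) + 1 / ((i : ℝ) + 1) * J <
        CH (Pool.Agent.H49.Ent.cond G.p B' True) (G.X J) (fun ω => (G.X P ω, G.W ω)) := by
  classical
  have hp := G.isLaw
  obtain ⟨a, B', hB', hP, hsec⟩ := sec_pigeon (ι := Fin (J + 2)) hp c B hB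
    (fun a v E => ∀ hl : IsLaw (cond G.p c v),
      ((a : ℕ) = J + 1 ∧ BadS m j (gs i) J (G.res c v hl) E) ∨
      ((a : ℕ) ≤ J ∧ J ≤ 2 * (a : ℕ) ∧
        (m * Real.log 2 - r) * ((J : ℝ) - (a : ℕ)) + 1 / ((i : ℝ) + 1) * J <
        CH (Pool.Agent.H49.Ent.cond (G.res c v hl).p E True) ((G.res c v hl).X J)
          (fun ω => ((G.res c v hl).X (a : ℕ) ω, (G.res c v hl).W ω))))
    (by
      intro ω hω hBω
      rcases h ω hω hBω (isLaw_sec hp c hω) with h1 | ⟨P, h1, h2, h3⟩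
      · exact ⟨⟨J + 1, by omega⟩, fun hl => Or.inl ⟨rfl, h1⟩⟩
      · exact ⟨⟨P, by omega⟩, fun hl => Or.inr ⟨h1, h2, h3⟩⟩)
  rw [Fintype.card_fin] at hP
  have hB0 : 0 < Pe G.p B' := by
    by_contra h1
    push Not at h1
    have h2 : ((J + 2 : ℕ) : ℝ) * Pe G.p B' ≤ 0 :=
      mul_nonpos_of_nonneg_of_nonpos (Nat.cast_nonneg _) h1
    linarith
  have hS' := hS.sub hB'
  by_cases ha : (a : ℕ) = J + 1
  · left
    refine ⟨fun ω => B' ω ∧ G.p ω ≠ 0, fun ω hω => hB' ω hω.1, ?_,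
      plu_glue hS' fun ω hω hBω hl => ?_⟩
    · rw [Pe_supp]
      exact hP
    · rcases hsec ω hω hBω hl with h1 | h1
      · exact h1.2
      · omega
  · right
    refine ⟨B', a, hB', hP, ?_⟩
    obtain ⟨ω₀, h1, h2⟩ : ∃ ω, 0 < G.p ω ∧ B' ω := by
      by_contra hcon
      push Not at hcon
      have : Pe G.p B' ≤ 0 := by
        rw [Pe_eq]
        refine Finset.sum_nonpos fun ω _ => ?_
        split_ifs with hω
        · by_contra h3
          push Not at h3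
          exact hcon ω h3 hω
        · exact le_rfl
      linarith
    have h3 : (a : ℕ) ≤ J ∧ J ≤ 2 * (a : ℕ) := by
      rcases hsec ω₀ h1 h2 (isLaw_sec hp c h1) with h4 | h4
      · exact absurd h4.1 ha
      · exact ⟨h4.1, h4.2.1⟩
    refine ⟨h3.1, h3.2, ch_glue hp _ _ c B' hB0 ?_ fun ω hω hBω => ?_⟩
    · intro ω ω' _ _ h5 h6 h7
      exact hS'.2 ω ω' h5 h6 (Prod.ext_iff.1 (Prod.ext_iff.1 h7).2).2
    · rcases hsec ω hω hBω (isLaw_sec hp c hω) with h4 | h4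
      · exact absurd h4.1 ha
      · exact h4.2.2

/-- **Claims in the sections of a family with side information**, for the class of zooms. The
spread of the fans and the tail are used at finitely many scales only. -/
theorem zoom_sec_g {j : ℕ} {gs : ℕ → ℝ} {r : ℝ} {ψ : ℕ → ℝ} (hψ : ∀ i, 0 < ψ i) {Φ : Stat m}
    (hΦ : Clg (zg m j gs r ψ) Φ) {B₀ : ℝ} (hB₀ : 0 < B₀) {δ : ℝ} (hδ : 0 < δ) :
    ∃ η > 0, ∃ n J₁ : ℕ, ∀ J ≥ J₁, ∀ G : Fam m J, G.Tm (η * J) →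
      (∀ z, 0 < law G.p G.Z z → H (cond G.p G.Z z) G.l ≤ B₀ * J) →
      (∀ i ≤ n, ∀ B : G.Ω → Prop, Real.exp (-(3 * ψ i * J)) ≤ Pe G.p B →
        ¬ PlU j (1 / 2 ^ ⌊gs i * J⌋₊) (Fam.pt G) G.d B) →
      (∀ i ≤ n, ∀ B : G.Ω → Prop, Real.exp (-(3 * ψ i * J)) ≤ Pe G.p B →
        ∀ P : ℕ, P ≤ J → J ≤ 2 * P →
        CH (Pool.Agent.H49.Ent.cond G.p B True) (G.X J) (fun ω => (G.X P ω, G.W ω)) ≤
          (m * Real.log 2 - r) * ((J : ℝ) - P) + 1 / ((i : ℝ) + 1) * J) →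
      ∃ (κ : Type) (c : G.Ω → κ) (B : G.Ω → Prop), Sel G c B ∧
        Real.exp (-(δ * J)) ≤ Pe G.p B ∧
        ∀ ω, 0 < G.p ω → B ω → ∀ h : IsLaw (cond G.p c (c ω)),
          Φ J (G.res c (c ω) h) (fun ω' => B ω' ∧ c ω' = c ω) := by
  classical
  obtain ⟨η, hη, n, J₁, hcore⟩ := zcl_core (Good := fun _ _ => True) (Bad := gBad m j gs r)
    hψ gBad_inv hΦ hB₀ hδ
  -- the resolution
  obtain ⟨J₂, hJ₂⟩ : ∃ J₂ : ℕ, ∀ J ≥ J₂, ∀ i ≤ n, ((J + 2 : ℕ) : ℝ) ≤ Real.exp (ψ i * J) := by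
    have key : ∀ i : ℕ, ∃ J₂ : ℕ, ∀ J ≥ J₂, ((J + 2 : ℕ) : ℝ) ≤ Real.exp (ψ i * J) := by
      intro i
      have hψi := hψ i
      obtain ⟨J₃, hJ₃⟩ := exists_nat_gt (2 / ψ i ^ 2 + 2 / ψ i ^ 2 + 2)
      refine ⟨J₃, fun J hJ => ?_⟩
      have h1 : 2 / ψ i ^ 2 + 2 / ψ i ^ 2 + 2 < J := hJ₃.trans_le (by exact_mod_cast hJ)
      have h2 : 0 < 2 / ψ i ^ 2 := by positivity
      have hJ2 : (2 : ℝ) ≤ J := by linarith
      have h3 : 4 / ψ i ^ 2 ≤ J := by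
        have : 4 / ψ i ^ 2 = 2 / ψ i ^ 2 + 2 / ψ i ^ 2 := by ring
        linarith
      rw [div_le_iff₀ (by positivity)] at h3
      have h4 : (ψ i * J) ^ 2 / 2 ≤ Real.exp (ψ i * J) := by
        have h5 := Real.quadratic_le_exp_of_nonneg (x := ψ i * J) (by positivity)
        have h6 : 0 ≤ ψ i * (J : ℝ) := by positivity
        linarith
      have h7 : (2 : ℝ) * J ≤ (ψ i * J) ^ 2 / 2 := by
        have e1 : (ψ i * (J : ℝ)) ^ 2 / 2 = J * (J * ψ i ^ 2) / 2 := by ring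
        rw [e1]
        nlinarith
      push_cast
      linarith
    choose J₂ hJ₂ using key
    refine ⟨∑ i ∈ range (n + 1), J₂ i, fun J hJ i hi => hJ₂ i J (le_trans ?_ hJ)⟩
    exact Finset.single_le_sum (f := J₂) (fun _ _ => Nat.zero_le _)
      (Finset.mem_range.2 (by omega))
  refine ⟨η, hη, n, max J₁ J₂, fun J hJ G hTm hl hspr htail => ?_⟩
  have hJ1 : J₁ ≤ J := (le_max_left _ _).trans hJ
  have hJ2 : J₂ ≤ J := (le_max_right _ _).trans hJ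
  have hp := G.isLaw
  refine hcore J hJ1 G hTm hl (fun _ _ _ _ _ => trivial) ?_
  intro i hi κ c B hSel hPB hbad
  have hB0 : 0 < Pe G.p B := lt_of_lt_of_le (Real.exp_pos _) hPB
  have hstep : ∀ B' : G.Ω → Prop, Pe G.p B ≤ (J + 2 : ℕ) * Pe G.p B' →
      Real.exp (-(3 * ψ i * J)) ≤ Pe G.p B' := by
    intro B' hB'
    have h1 := hJ₂ J hJ2 i hi
    have h3 : Real.exp (-(2 * ψ i * J)) ≤ Real.exp (ψ i * J) * Pe G.p B' :=
      hPB.trans (hB'.trans (mul_le_mul_of_nonneg_right h1 (Pe_nonneg hp B')))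
    have h4 : Real.exp (-(3 * ψ i * J)) =
        Real.exp (-(ψ i * J)) * Real.exp (-(2 * ψ i * J)) := by
      rw [← Real.exp_add]
      congr 1
      ring
    rw [h4]
    calc _ ≤ Real.exp (-(ψ i * J)) * (Real.exp (ψ i * J) * Pe G.p B') :=
          mul_le_mul_of_nonneg_left h3 (Real.exp_pos _).le
      _ = Pe G.p B' := by
          rw [← mul_assoc, ← Real.exp_add]
          have : -(ψ i * (J : ℝ)) + ψ i * J = 0 := by ring
          rw [this, Real.exp_zero, one_mul]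
  rcases gbad_glue hSel hB0 hbad with ⟨B', h1, h2, h3⟩ | ⟨B', P, h1, h2, h3, h4, h5⟩
  · exact hspr i hi B' (hstep B' h2) h3
  · exact absurd (htail i hi B' (hstep B' h2) P h3 h4) (not_le.2 h5)

end Pool.ZCL
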