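import Pool.Agent.H35.ZCL.Acls
import Pool.Agent.H35.ZCL.SecG
import Pool.Agent.H89.ZCL.AzR
import Pool.Agent.H60.ZCL.BTail

/-!
# The A-zoom of a class

Claims for the classes `zg` hold in the sections of the A-zoom, and the zoom has leaves.
-/

set_option autoImplicit false

namespace Pool.ZCL

open Finset Real
open Pool.Agent.H49.Ent Pool.Agent.H32.Dense Pool.STK Pool.KA Pool.KSAT Pool.K2S Pool.PB Pool.S6C
open Pool.S6K (exact_label steep_ball ball_claim)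

/-- **(S)** in a class. -/
theorem az_S_bas {S : PCl 3} {a R h₁ : ℝ} {i₀ : Fin 3} {Q pi : ℝ} (H : AzH S a R h₁ i₀ Q pi)
    {e g : ℝ} (he : 0 < e) (hg : 0 < g) (hg1 : g ≤ 1) : ∃ ψ > 0, ∀ w s : ℝ, 0 ≤ w →
    w + max s 0 + e ≤ Q → pi - e * g / 16 ≤ s → ∃ J₁ : ℕ, ∀ J ≥ J₁, ∀ (F : Fam 3 J)
    (A : F.Ω → Prop), S.St ψ J F A → ∀ z : F.Ω → Fin 3 → ℝ,
    AzF F i₀ ⌊Q * J⌋₊ ⌊s * J⌋₊ ⌊w * J⌋₊ A z → ∀ (h : ⌊w * J⌋₊ + azJ Q w s J ≤ J)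
    (hA : IsLaw (cond F.p A True)) (B : F.Ω → Prop),
    Real.exp (-(3 * ψ * azJ Q w s J)) ≤ Pe (cond F.p A True) B →
    ¬ PlU 1 (1 / 2 ^ ⌊g * azJ Q w s J⌋₊)
      (Fam.pt ((F.res A True hA).zm ⌊w * J⌋₊ (azJ Q w s J) h (Box.plkC ⌊s * J⌋₊ i₀) z))
      ((F.res A True hA).zm ⌊w * J⌋₊ (azJ Q w s J) h (Box.plkC ⌊s * J⌋₊ i₀) z).d B := by
  classical
  obtain ⟨y, hy⟩ : ∃ y, y = e * g / 16 := ⟨_, rfl⟩
  have hy0 : 0 < y := by rw [hy]; positivity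
  -- no lines of higher precision
  obtain ⟨c₁, hc₁, Jn, hn⟩ := Clp.neg_base (S := S) (Q := capS 1 (qPi i₀ Q) (pi + y)) (by
    rintro J F A B hB (h1 | ⟨h1, h2⟩)
    · exact Or.inl h1
    · exact Or.inr ⟨h1, LineU.hered _ _ _ _ _ _ hB h2⟩) (H.pi.2 y hy0)
  obtain ⟨τ₁, hτ₁, J₂, hS⟩ := az_S (m := 3) H.a1 H.R0 H.ub H.h₁0 i₀ (g := e * g / 4)
    (by positivity) (κ := c₁ / 8) (by positivity)
  obtain ⟨ψ, hψ⟩ : ∃ ψ, ψ = min (c₁ / 8) (τ₁ / 3) := ⟨_, rfl⟩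
  have hψ0 : 0 < ψ := by rw [hψ]; exact lt_min (by positivity) (by positivity)
  have hψ1 : ψ ≤ c₁ / 8 := by rw [hψ]; exact min_le_left _ _
  have hψ2 : ψ ≤ τ₁ / 3 := by rw [hψ]; exact min_le_right _ _
  refine ⟨ψ, hψ0, fun w s hw0 hws hs => ?_⟩
  obtain ⟨J₃, hJ₃⟩ := exists_nat_gt (2 / e + 64 / (e * g))
  refine ⟨max Jn (max J₂ J₃), fun J hJ F A hSt z hz h hA B hB hP => ?_⟩
  have hJn : Jn ≤ J := (le_max_left _ _).trans hJ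
  have hJ2 : J₂ ≤ J := (le_max_left _ _).trans ((le_max_right _ _).trans hJ)
  have hJ3 : 2 / e + 64 / (e * g) < J :=
    hJ₃.trans_le (by exact_mod_cast (le_max_right _ _).trans ((le_max_right _ _).trans hJ))
  have q1 : 0 < 2 / e := by positivity
  have q2 : 0 < 64 / (e * g) := by positivity
  have hJr : (0 : ℝ) < J := by linarith only [hJ3, q1, q2]
  have heg : 64 ≤ e * g * J := by
    have : 64 / (e * g) ≤ J := by linarith only [hJ3, q1]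
    rw [div_le_iff₀ (by positivity)] at this
    linarith only [this]
  obtain ⟨hadd, hJ'⟩ := azJ_add he hw0 hws (J := J) (by linarith only [hJ3, q2])
  obtain ⟨J', hJ'e⟩ : ∃ J' : ℕ, J' = azJ Q w s J := ⟨_, rfl⟩
  obtain ⟨q, hq⟩ : ∃ q : ℕ, q = ⌊g * (azJ Q w s J : ℝ)⌋₊ := ⟨_, rfl⟩
  have hqr : g * (azJ Q w s J : ℝ) - 1 < q := by
    rw [hq]
    have := Nat.lt_floor_add_one (g * (azJ Q w s J : ℝ))
    linarith only [this]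
  have hq1 : q ≤ azJ Q w s J := by
    rw [hq]
    refine Nat.floor_le_of_le ?_
    exact mul_le_of_le_one_left (Nat.cast_nonneg _) hg1
  have hgJ' : e * g / 2 * J ≤ g * (azJ Q w s J : ℝ) := by
    have := mul_le_mul_of_nonneg_left hJ' hg.le
    linarith only [this]
  have hStt := Fam.Stt.mono (by linarith only [hψ0, hψ2] : ψ ≤ τ₁) (H.st _ _ _ _ hSt)
  have hle : (azJ Q w s J : ℝ) ≤ J := by
    have : azJ Q w s J ≤ J := by omega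
    exact_mod_cast this
  obtain ⟨B', hB', hPB', hline⟩ := hS J hJ2 F A hStt (H.lb _ _ _ _ hSt) ⌊Q * J⌋₊ ⌊w * J⌋₊
    ⌊s * J⌋₊ (azJ Q w s J) z h hadd.le (floor_le_J H.Q1 J) hz hA B (3 * ψ) (by linarith only [hψ2])
    (le_trans (Real.exp_le_exp.2 (by
      have := mul_le_mul_of_nonneg_left hle (by positivity : 0 ≤ 3 * ψ)
      linarith only [this])) hB) q (by linarith only [heg, hqr, hgJ']) hq1 (by rw [hq]; exact hP)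
  have hSt' : S.St c₁ J F B' := by
    have h1 := S.res (τ' := 3 * ψ + c₁ / 8) (by positivity) hSt hB' hPB'
    refine S.mono ?_ h1
    linarith only [hψ0, hψ1]
  refine hn J hJn F B' hSt' ?_
  rcases le_or_gt (pi + y) 0 with h0 | h0
  · exact Or.inl h0
  · right
    have hs0 : s ≤ max s 0 := le_max_left _ _
    have hgle : e * g ≤ e := by nlinarith only [he, hg1]
    have hQ1 := H.Q1
    refine ⟨by linarith only [he, hy, hw0, hws, hs, hs0, hgle, hQ1], ?_⟩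
    refine LineU.mono hline ?_
    have e1 : ⌊(pi + y) * (J : ℝ)⌋₊ + 2 ≤ ⌊s * (J : ℝ)⌋₊ + q / 2 := by
      have f1 : (⌊(pi + y) * (J : ℝ)⌋₊ : ℝ) ≤ (pi + y) * J := Nat.floor_le (by positivity)
      have f2 : s * J < ⌊s * (J : ℝ)⌋₊ + 1 := Nat.lt_floor_add_one _
      have f3 : q < 2 * (q / 2) + 2 := by omega
      have f3' : (q : ℝ) < 2 * ((q / 2 : ℕ) : ℝ) + 2 := by exact_mod_cast f3
      have f4 : ((⌊(pi + y) * (J : ℝ)⌋₊ + 2 : ℕ) : ℝ) <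
          ((⌊s * (J : ℝ)⌋₊ + q / 2 + 1 : ℕ) : ℝ) := by
        push_cast
        have f5 : (pi + y) * J ≤ (s + 2 * y) * J :=
          mul_le_mul_of_nonneg_right (by linarith only [hy, hs]) hJr.le
        rw [hy] at f5 f1 ⊢
        nlinarith only [heg, hqr, hgJ', f1, f2, f3', f5]
      have := Nat.cast_lt.1 f4
      omega
    have e2 : (4 : ℝ) / 2 ^ (⌊s * (J : ℝ)⌋₊ + q / 2) ≤ 4 / 2 ^ (⌊(pi + y) * (J : ℝ)⌋₊ + 2) :=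
      div_le_div_of_nonneg_left (by norm_num) (by positivity)
        (pow_le_pow_right₀ (by norm_num) e1)
    refine e2.trans (le_of_eq ?_)
    rw [pow_add]
    norm_num
    ring

/-- **(R)** in a class. -/
theorem az_R_bas {S : PCl 3} {a R h₁ : ℝ} {i₀ : Fin 3} {Q pi : ℝ} (H : AzH S a R h₁ i₀ Q pi)
    {c : ℝ} (hT : BTail S c Q) {e ρ : ℝ} (he : 0 < e) (hρ : 0 < ρ) : ∃ ψ > 0, ∀ w s : ℝ, 0 ≤ w →
    w + max s 0 + e ≤ Q → ∃ J₁ : ℕ, ∀ J ≥ J₁, ∀ (F : Fam 3 J)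
    (A : F.Ω → Prop), S.St ψ J F A → ∀ z : F.Ω → Fin 3 → ℝ,
    AzF F i₀ ⌊Q * J⌋₊ ⌊s * J⌋₊ ⌊w * J⌋₊ A z → ∀ (h : ⌊w * J⌋₊ + azJ Q w s J ≤ J)
    (hA : IsLaw (cond F.p A True)) (B : F.Ω → Prop),
    Real.exp (-(3 * ψ * azJ Q w s J)) ≤ Pe (cond F.p A True) B → ∀ P ≤ azJ Q w s J,
    CH (Pool.Agent.H49.Ent.cond (cond F.p A True) B True)
      (((F.res A True hA).zm ⌊w * J⌋₊ (azJ Q w s J) h (Box.plkC ⌊s * J⌋₊ i₀) z).X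
        (azJ Q w s J))
      (fun ω => (((F.res A True hA).zm ⌊w * J⌋₊ (azJ Q w s J) h
        (Box.plkC ⌊s * J⌋₊ i₀) z).X P ω, ((F.res A True hA).zm ⌊w * J⌋₊ (azJ Q w s J) h
        (Box.plkC ⌊s * J⌋₊ i₀) z).W ω)) ≤
      ((3 : ℕ) * Real.log 2 - c * Real.log 2) * ((azJ Q w s J : ℝ) - P) +
        ρ * azJ Q w s J := by
  classical
  obtain ⟨τ₁, hτ₁, J₁, hR⟩ := az_R (m := 3) H.a1 H.R0 H.ub H.h₁0 i₀ (e := ρ * e / 4)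
    (by positivity)
  obtain ⟨τ₂, hτ₂, J₂, hB⟩ := hT (ρ * e / 4) (by positivity)
  obtain ⟨ψ, hψ⟩ : ∃ ψ, ψ = min (τ₂ / 4) (τ₁ / 3) := ⟨_, rfl⟩
  have hψ0 : 0 < ψ := by rw [hψ]; exact lt_min (by positivity) (by positivity)
  have hψ1 : ψ ≤ τ₂ / 4 := by rw [hψ]; exact min_le_left _ _
  have hψ2 : ψ ≤ τ₁ / 3 := by rw [hψ]; exact min_le_right _ _
  refine ⟨ψ, hψ0, fun w s hw0 hws => ?_⟩
  obtain ⟨J₃, hJ₃⟩ := exists_nat_gt (2 / e)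
  refine ⟨max J₁ (max J₂ J₃), fun J hJ F A hSt z hz h hA B hPB P hP => ?_⟩
  have hJ1 : J₁ ≤ J := (le_max_left _ _).trans hJ
  have hJ2 : J₂ ≤ J := (le_max_left _ _).trans ((le_max_right _ _).trans hJ)
  have hJ3 : 2 / e < J :=
    hJ₃.trans_le (by exact_mod_cast (le_max_right _ _).trans ((le_max_right _ _).trans hJ))
  have q1 : 0 < 2 / e := by positivity
  have hJr : (0 : ℝ) < J := by linarith only [hJ3, q1]
  obtain ⟨hadd, hJ'⟩ := azJ_add he hw0 hws (J := J) hJ3.le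
  have hle : (azJ Q w s J : ℝ) ≤ J := by
    have : azJ Q w s J ≤ J := by omega
    exact_mod_cast this
  have hStt := Fam.Stt.mono (by linarith only [hψ0, hψ2] : ψ ≤ τ₁) (H.st _ _ _ _ hSt)
  have hA0 : 0 < Pe F.p A := lt_of_lt_of_le (Real.exp_pos _) hStt.2.2.2
  have hPB' : Real.exp (-(3 * ψ * J)) ≤ Pe (cond F.p A True) B :=
    le_trans (Real.exp_le_exp.2 (by
      have := mul_le_mul_of_nonneg_left hle (by positivity : 0 ≤ 3 * ψ)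
      linarith only [this])) hPB
  have h1 := hR J hJ1 F A hStt (H.lb _ _ _ _ hSt) ⌊Q * J⌋₊ ⌊w * J⌋₊
    ⌊s * J⌋₊ (azJ Q w s J) z h hadd.le (floor_le_J H.Q1 J) hz hA B
    (le_trans (Real.exp_le_exp.2 (by
      have := mul_le_mul_of_nonneg_right hψ2 hJr.le
      linarith only [this])) hPB') P hP
  refine h1.trans ?_
  rw [cond_and F.p hA0.ne', hadd]
  have hAB : Real.exp (-(3 * ψ * J)) * Pe F.p A ≤ Pe F.p (fun ω => A ω ∧ B ω) := by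
    rw [Pe_cond, le_div_iff₀ hA0] at hPB'
    exact hPB'
  have hSt' : S.St τ₂ J F (fun ω => A ω ∧ B ω) := by
    have h2 := S.res (τ' := 3 * ψ) (by positivity) hSt (fun ω hω => hω.1) hAB
    exact S.mono (by linarith only [hψ1]) h2
  have h3 := hB J hJ2 F _ hSt' (⌊w * J⌋₊ + P + ⌊s * J⌋₊) (by omega)
  have e1 : (⌊Q * (J : ℝ)⌋₊ : ℝ) - ((⌊w * (J : ℝ)⌋₊ + P + ⌊s * (J : ℝ)⌋₊ : ℕ) : ℝ) =
      (azJ Q w s J : ℝ) - P := by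
    rw [← hadd]
    push_cast
    ring
  rw [e1] at h3
  have e2 : ((3 - c) * Real.log 2) * ((azJ Q w s J : ℝ) - P) =
      ((3 : ℕ) * Real.log 2 - c * Real.log 2) * ((azJ Q w s J : ℝ) - P) := by
    push_cast
    ring
  rw [e2] at h3
  have e3 : ρ * e / 4 * J + ρ * e / 4 * J ≤ ρ * azJ Q w s J := by
    have := mul_le_mul_of_nonneg_left hJ' hρ.le
    linarith only [this]
  linarith only [h3, e3]

/-- The A-zoom. -/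
noncomputable abbrev azG {J : ℕ} (F : Fam 3 J) (i₀ : Fin 3) (Q w s : ℝ) (A : F.Ω → Prop)
    (z : F.Ω → Fin 3 → ℝ) (hA : IsLaw (cond F.p A True)) (h : ⌊w * J⌋₊ + azJ Q w s J ≤ J) :
    Fam 3 (azJ Q w s J) :=
  (F.res A True hA).zm ⌊w * J⌋₊ (azJ Q w s J) h (Box.plkC ⌊s * J⌋₊ i₀) z

theorem exists_low {ψ : ℕ → ℝ} (hψ : ∀ i, 0 < ψ i) : ∀ n : ℕ, ∃ μ > 0, ∀ i ≤ n, μ ≤ ψ i
  | 0 => ⟨ψ 0, hψ 0, fun i hi => by
      have : i = 0 := by omega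
      rw [this]⟩
  | n + 1 => by
    obtain ⟨μ, h0, h1⟩ := exists_low hψ n
    refine ⟨min μ (ψ (n + 1)), lt_min h0 (hψ _), fun i hi => ?_⟩
    rcases Nat.lt_or_ge i (n + 1) with h2 | h2
    · exact (min_le_left _ _).trans (h1 i (by omega))
    · have : i = n + 1 := by omega
      rw [this]
      exact min_le_right _ _

/-- The hypotheses of `zoom_sec_g` and `zoom_leaf`. -/
structure ZHyp {J : ℕ} (G : Fam 3 J) (gs : ℕ → ℝ) (r : ℝ) (ψ : ℕ → ℝ) (n : ℕ) (η : ℝ) :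
    Prop where
  tm : G.Tm (η * J)
  ln : ∀ z, 0 < law G.p G.Z z → H (cond G.p G.Z z) G.l ≤ 6 * J
  sp : ∀ i ≤ n, ∀ B : G.Ω → Prop, Real.exp (-(3 * ψ i * J)) ≤ Pe G.p B →
    ¬ PlU 1 (1 / 2 ^ ⌊gs i * J⌋₊) (Fam.pt G) G.d B
  tl : ∀ i ≤ n, ∀ B : G.Ω → Prop, Real.exp (-(3 * ψ i * J)) ≤ Pe G.p B →
    ∀ P : ℕ, P ≤ J → J ≤ 2 * P →
    CH (Pool.Agent.H49.Ent.cond G.p B True) (G.X J) (fun ω => (G.X P ω, G.W ω)) ≤
      ((3 : ℕ) * Real.log 2 - r) * ((J : ℝ) - P) + 1 / ((i : ℝ) + 1) * J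

/-- **The hypotheses of the zoom hold for the A-zoom**, for all events of small cost with frames.
The freedoms `ψ` depend on the class, on `e` and on the scales `gs` only. -/
theorem az_hyp_bas {S : PCl 3} {a R h₁ : ℝ} {i₀ : Fin 3} {Q pi : ℝ} (H : AzH S a R h₁ i₀ Q pi)
    {c : ℝ} (hT : BTail S c Q) {e : ℝ} (he : 0 < e) {gs : ℕ → ℝ} (hg0 : ∀ i, 0 < gs i)
    (hg1 : ∀ i, gs i ≤ 1) : ∃ ψ : ℕ → ℝ, (∀ i, 0 < ψ i) ∧ ∀ (n : ℕ) (η : ℝ), 0 < η →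
    ∀ w s : ℝ, 0 ≤ w → w + max s 0 + e ≤ Q → (∀ i ≤ n, pi - e * gs i / 16 ≤ s) → ∀ J₀ : ℕ,
    Bas S (fun J F A => ∀ z : F.Ω → Fin 3 → ℝ, AzF F i₀ ⌊Q * J⌋₊ ⌊s * J⌋₊ ⌊w * J⌋₊ A z →
      ∃ (hA : IsLaw (cond F.p A True)) (h : ⌊w * J⌋₊ + azJ Q w s J ≤ J),
        J₀ ≤ azJ Q w s J ∧ e / 2 * J ≤ azJ Q w s J ∧
        ZHyp (azG F i₀ Q w s A z hA h) gs (c * Real.log 2) ψ n η) := by
  classical
  have hS : ∀ i : ℕ, ∃ ψ > 0, ∀ w s : ℝ, 0 ≤ w →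
      w + max s 0 + e ≤ Q → pi - e * gs i / 16 ≤ s → ∃ J₁ : ℕ, ∀ J ≥ J₁, ∀ (F : Fam 3 J)
      (A : F.Ω → Prop), S.St ψ J F A → ∀ z : F.Ω → Fin 3 → ℝ,
      AzF F i₀ ⌊Q * J⌋₊ ⌊s * J⌋₊ ⌊w * J⌋₊ A z → ∀ (h : ⌊w * J⌋₊ + azJ Q w s J ≤ J)
      (hA : IsLaw (cond F.p A True)) (B : F.Ω → Prop),
      Real.exp (-(3 * ψ * azJ Q w s J)) ≤ Pe (cond F.p A True) B →
      ¬ PlU 1 (1 / 2 ^ ⌊gs i * azJ Q w s J⌋₊)
        (Fam.pt (azG F i₀ Q w s A z hA h)) (azG F i₀ Q w s A z hA h).d B :=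
    fun i => az_S_bas H he (hg0 i) (hg1 i)
  choose ψS hS0 hS1 using hS
  have hR : ∀ i : ℕ, _ := fun i : ℕ => az_R_bas H hT he (by positivity : 0 < 1 / ((i : ℝ) + 1))
  choose ψR hR0 hR1 using hR
  obtain ⟨ψ, hψ⟩ : ∃ ψ : ℕ → ℝ, ψ = fun i => min (ψS i) (ψR i) := ⟨_, rfl⟩
  have hψ0 : ∀ i, 0 < ψ i := fun i => by
    rw [hψ]
    exact lt_min (hS0 i) (hR0 i)
  have hψS : ∀ i, ψ i ≤ ψS i := fun i => by
    rw [hψ]
    exact min_le_left _ _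
  have hψR : ∀ i, ψ i ≤ ψR i := fun i => by
    rw [hψ]
    exact min_le_right _ _
  refine ⟨ψ, hψ0, fun n η hη w s hw0 hws hs J₀ => ?_⟩
  have ha := H.a1
  obtain ⟨μ, hμ0, hμ⟩ := exists_low hψ0 n
  obtain ⟨ψ₁, hψ₁⟩ : ∃ ψ₁, ψ₁ = min μ (η * e / (12 * (1 + a))) := ⟨_, rfl⟩
  have hψ₁0 : 0 < ψ₁ := by rw [hψ₁]; exact lt_min hμ0 (by positivity)
  have hψ₁1 : ψ₁ ≤ μ := by rw [hψ₁]; exact min_le_left _ _
  have hψ₁2 : ψ₁ ≤ η * e / (12 * (1 + a)) := by rw [hψ₁]; exact min_le_right _ _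
  -- the resolutions
  have hJS : ∀ i : ℕ, ∃ J₁ : ℕ, i ≤ n → ∀ J ≥ J₁, ∀ (F : Fam 3 J)
      (A : F.Ω → Prop), S.St (ψS i) J F A → ∀ z : F.Ω → Fin 3 → ℝ,
      AzF F i₀ ⌊Q * J⌋₊ ⌊s * J⌋₊ ⌊w * J⌋₊ A z → ∀ (h : ⌊w * J⌋₊ + azJ Q w s J ≤ J)
      (hA : IsLaw (cond F.p A True)) (B : F.Ω → Prop),
      Real.exp (-(3 * ψS i * azJ Q w s J)) ≤ Pe (cond F.p A True) B →
      ¬ PlU 1 (1 / 2 ^ ⌊gs i * azJ Q w s J⌋₊)
        (Fam.pt (azG F i₀ Q w s A z hA h)) (azG F i₀ Q w s A z hA h).d B := by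
    intro i
    by_cases hi : i ≤ n
    · obtain ⟨J₁, h1⟩ := hS1 i w s hw0 hws (hs i hi)
      exact ⟨J₁, fun _ => h1⟩
    · exact ⟨0, fun h => absurd h hi⟩
  choose JS hJS using hJS
  have hJR : ∀ i : ℕ, _ := fun i : ℕ => hR1 i w s hw0 hws
  choose JR hJR using hJR
  obtain ⟨J₂, hJ₂⟩ : ∃ J₂ : ℕ, ∀ i ≤ n, JS i ≤ J₂ ∧ JR i ≤ J₂ := by
    refine ⟨∑ i ∈ range (n + 1), (JS i + JR i), fun i hi => ?_⟩
    have := Finset.single_le_sum (f := fun i => JS i + JR i) (fun _ _ => Nat.zero_le _)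
      (Finset.mem_range.2 (by omega : i < n + 1))
    constructor <;> omega
  obtain ⟨J₃, hJ₃⟩ := exists_nat_gt (2 / e + 2 * J₀ / e)
  refine ⟨ψ₁, hψ₁0, max J₂ J₃, fun J hJ F A hSt z hz => ?_⟩
  have hJ2 : J₂ ≤ J := (le_max_left _ _).trans hJ
  have hJ3 : 2 / e + 2 * J₀ / e < J := hJ₃.trans_le (by exact_mod_cast (le_max_right _ _).trans hJ)
  have q1 : 0 < 2 / e := by positivity
  have q2 : 0 ≤ 2 * (J₀ : ℝ) / e := by positivity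
  have hJr : (0 : ℝ) < J := by linarith only [hJ3, q1, q2]
  have hp := F.isLaw
  have hStt := H.st _ _ _ _ hSt
  obtain ⟨hadd, hJ'⟩ := azJ_add he hw0 hws (J := J) (by linarith only [hJ3, q2])
  have hh : ⌊w * (J : ℝ)⌋₊ + azJ Q w s J ≤ J := by
    have := floor_le_J H.Q1 J
    omega
  obtain ⟨hlaw, -, hMx, -⟩ := hStt.res ha hψ₁0.le
  have hJ'0 : (0 : ℝ) ≤ (azJ Q w s J : ℝ) := Nat.cast_nonneg _
  refine ⟨hlaw, hh, ?_, hJ', ⟨?_, ?_, ?_, ?_⟩⟩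
  · have h2 : 2 * (J₀ : ℝ) / e < J := by linarith only [hJ3, q1]
    rw [div_lt_iff₀ he] at h2
    have : (J₀ : ℝ) ≤ azJ Q w s J := by linarith only [hJ', h2]
    exact_mod_cast this
  · -- times
    have h2 := hMx.1
    have h3 : (F.res A True hlaw).Tm (η * azJ Q w s J) := by
      unfold Fam.Tm at h2 ⊢
      have h4 : (1 + a) * (6 * ψ₁) * J ≤ η * azJ Q w s J := by
        have h5 : (1 + a) * (6 * ψ₁) ≤ η * (e / 2) := by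
          rw [le_div_iff₀ (by positivity)] at hψ₁2
          linarith only [hψ₁2]
        calc (1 + a) * (6 * ψ₁) * J ≤ η * (e / 2) * J := mul_le_mul_of_nonneg_right h5 hJr.le
          _ = η * (e / 2 * J) := by ring
          _ ≤ _ := mul_le_mul_of_nonneg_left hJ' hη.le
      linarith only [hlaw, h2, h4]
    refine zm_Tm (F.res A True hlaw) hh (Box.plkC ⌊s * J⌋₊ i₀) z ?_ h3
    intro ω ω' _ _ h4
    refine hz.win ω ω' ?_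
    have h5 := Prod.ext_iff.1 h4
    have h6 := Prod.ext_iff.1 h5.2
    exact Prod.ext h5.1 (Prod.ext h6.2 h6.1)
  · -- lines
    intro y hy
    have h2 := zm_lines (F.res A True hlaw) hh (Box.plkC ⌊s * J⌋₊ i₀) z y hy
    have e1 : 2 * ((3 : ℕ) : ℝ) * (azJ Q w s J : ℝ) = 6 * azJ Q w s J := by
      push_cast
      ring
    rw [e1] at h2
    exact h2
  · -- spread
    intro i hi B hB
    have hμi := hμ i hi
    have hSi : S.St (ψS i) J F A := S.mono (by linarith only [hψ₁1, hμi, hψS, hψS i]) hSt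
    refine hJS i hi J ((hJ₂ i hi).1.trans hJ2) F A hSi z hz hh hlaw B (le_trans ?_ hB)
    refine Real.exp_le_exp.2 ?_
    have := mul_le_mul_of_nonneg_right (hψS i) hJ'0
    linarith only [this]
  · -- the tail
    intro i hi B hB P hP _
    have hμi := hμ i hi
    have hSi : S.St (ψR i) J F A := S.mono (by linarith only [hψ₁1, hμi, hψR, hψR i]) hSt
    refine hJR i J ((hJ₂ i hi).2.trans hJ2) F A hSi z hz hh hlaw B (le_trans ?_ hB) P hP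
    refine Real.exp_le_exp.2 ?_
    have := mul_le_mul_of_nonneg_right (hψR i) hJ'0
    linarith only [this]

/-- **Claims in the sections of the A-zoom**, base form. -/
theorem az_sec_bas {S : PCl 3} {a R h₁ : ℝ} {i₀ : Fin 3} {Q pi : ℝ} (H : AzH S a R h₁ i₀ Q pi)
    {c : ℝ} (hT : BTail S c Q) {e : ℝ} (he : 0 < e) {gs : ℕ → ℝ} (hg0 : ∀ i, 0 < gs i)
    (hg1 : ∀ i, gs i ≤ 1) : ∃ ψ : ℕ → ℝ, (∀ i, 0 < ψ i) ∧ ∀ Φ : Stat 3,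
    Clg (zg 3 1 gs (c * Real.log 2) ψ) Φ → ∀ δ : ℝ, 0 < δ → ∃ n : ℕ,
    ∀ w s : ℝ, 0 ≤ w → w + max s 0 + e ≤ Q → (∀ i ≤ n, pi - e * gs i / 16 ≤ s) →
    Bas S (fun J F A => ∀ z : F.Ω → Fin 3 → ℝ, AzF F i₀ ⌊Q * J⌋₊ ⌊s * J⌋₊ ⌊w * J⌋₊ A z →
      ∃ (hA : IsLaw (cond F.p A True)) (h : ⌊w * J⌋₊ + azJ Q w s J ≤ J),
        e / 2 * J ≤ azJ Q w s J ∧
        ∃ (V : Type) (v : F.Ω → V) (B : F.Ω → Prop),
          Sel (azG F i₀ Q w s A z hA h) v B ∧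
          Real.exp (-(δ * azJ Q w s J)) ≤ Pe (cond F.p A True) B ∧
          ∀ ω, 0 < cond F.p A True ω → B ω →
            ∀ hl : IsLaw (cond (cond F.p A True) v (v ω)),
              Φ (azJ Q w s J) ((azG F i₀ Q w s A z hA h).res v (v ω) hl)
                (fun ω' => B ω' ∧ v ω' = v ω)) := by
  obtain ⟨ψ, hψ0, hyp⟩ := az_hyp_bas H hT he hg0 hg1
  refine ⟨ψ, hψ0, fun Φ hΦ δ hδ => ?_⟩
  obtain ⟨η, hη, n, J₁, hsec⟩ := zoom_sec_g hψ0 hΦ (B₀ := 6) (by norm_num) hδ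
  refine ⟨n, fun w s hw0 hws hs => (hyp n η hη w s hw0 hws hs J₁).mono 0 ?_⟩
  intro J _ F A h1 z hz
  obtain ⟨hA, hh, h5, hJ', h6⟩ := h1 z hz
  obtain ⟨V, v, B, k1, k2, k3⟩ := hsec _ h5 (azG F i₀ Q w s A z hA hh) h6.tm h6.ln h6.sp h6.tl
  exact ⟨hA, hh, hJ', V, v, B, k1, k2, k3⟩

/-- **Leaves in the A-zoom**, base form. -/
theorem az_leaf_bas (hSTP : ∀ S : FCl 3, SPS S 1 → STP S)
    (hSLP : ∀ S : FCl 3, SPS S 1 → SLP S)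
    (hCHS : ∀ S : FCl 3, TLS S → CHS S) {S : PCl 3} {a R h₁ : ℝ} {i₀ : Fin 3} {Q pi : ℝ}
    (H : AzH S a R h₁ i₀ Q pi) {c : ℝ} (hc : 0 < c) (hT : BTail S c Q) {e : ℝ} (he : 0 < e)
    {x : ℝ} (hx : 0 < x) (nf : ℕ → ℕ) : ∃ N K₁ : ℕ, ∀ δ : ℝ, 0 < δ → ∃ b > 0,
    ∀ w s : ℝ, 0 ≤ w → w + max s 0 + e ≤ Q → pi - b ≤ s →
    Bas S (fun J F A => ∀ z : F.Ω → Fin 3 → ℝ, AzF F i₀ ⌊Q * J⌋₊ ⌊s * J⌋₊ ⌊w * J⌋₊ A z →
      ∃ (hA : IsLaw (cond F.p A True)) (h : ⌊w * J⌋₊ + azJ Q w s J ≤ J),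
        e / 2 * J ≤ azJ Q w s J ∧
        ∃ B : F.Ω → Prop, Real.exp (-(δ * azJ Q w s J)) ≤ Pe (cond F.p A True) B ∧
        ∃ K ≤ K₁, nf K ≤ N ∧ ∃ (i₁ : Fin 3) (i p ρ : ℕ), (i : ℝ) ≤ x * N ∧ i ≤ ρ ∧
          (1 - x) * N ≤ p ∧ p < ρ ∧ ρ ≤ N ∧
          Bl (azG F i₀ Q w s A z hA h) i₁ N K ρ i p B) := by
  obtain ⟨ψ, hψ0, hyp⟩ := az_hyp_bas H hT he (gs := fun i => 1 / ((i : ℝ) + 1))
    (fun i => by positivity) (fun i => by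
      rw [div_le_one (by positivity)]
      have : (0 : ℝ) ≤ i := Nat.cast_nonneg i
      linarith only)
  obtain ⟨N, K₁, hleaf⟩ := zoom_leaf (m := 3) hSTP hSLP hCHS (r := c * Real.log 2)
    (mul_pos hc (Real.log_pos one_lt_two)) hψ0 (B₀ := 6) (by norm_num) hx nf
  refine ⟨N, K₁, fun δ hδ => ?_⟩
  obtain ⟨η, hη, n, J₁, hl⟩ := hleaf δ hδ
  refine ⟨e * (1 / ((n : ℝ) + 1)) / 16, by positivity, fun w s hw0 hws hs => ?_⟩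
  refine (hyp n η hη w s hw0 hws (fun i hi => by
    have h1 : 1 / ((n : ℝ) + 1) ≤ 1 / ((i : ℝ) + 1) :=
      one_div_le_one_div_of_le (by positivity) (by
        have : (i : ℝ) ≤ n := by exact_mod_cast hi
        linarith only [this])
    have h2 := mul_le_mul_of_nonneg_left h1 he.le
    linarith only [hs, h2]) J₁).mono 0 ?_
  intro J _ F A h1 z hz
  obtain ⟨hA, hh, h5, hJ', h6⟩ := h1 z hz
  obtain ⟨B, k1, k2⟩ := hl _ h5 (azG F i₀ Q w s A z hA hh) h6.tm h6.ln h6.sp h6.tl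
  exact ⟨hA, hh, hJ', B, k1, k2⟩

/-- **From the base form to events of small cost.** The frames may be finer than the zoom. -/
theorem frames_of_bas {S : PCl 3} {a R h₁ : ℝ} {i₀ : Fin 3} {Q pi : ℝ}
    (H : AzH S a R h₁ i₀ Q pi) {w s s' : ℝ} (hss : s ≤ s')
    (hrot : Clp S (capS 1 (qRot i₀ Q w) s'))
    {Ψ : ∀ (J : ℕ) (F : Fam 3 J), (F.Ω → Prop) → (F.Ω → Fin 3 → ℝ) → Prop}
    (hB : Bas S (fun J F A => ∀ z : F.Ω → Fin 3 → ℝ,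
      AzF F i₀ ⌊Q * J⌋₊ ⌊s * J⌋₊ ⌊w * J⌋₊ A z → Ψ J F A z)) {κ : ℝ} (hκ : 0 < κ) :
    ∃ ψ₀ > 0, Clp S (fun J F A => ∀ A₁ : F.Ω → Prop, Sub A₁ A →
      Real.exp (-(ψ₀ * J)) * Pe F.p A ≤ Pe F.p A₁ →
      ∃ (A₂ : F.Ω → Prop) (z : F.Ω → Fin 3 → ℝ), Sub A₂ A₁ ∧
        Real.exp (-(κ * J)) * Pe F.p A₁ ≤ Pe F.p A₂ ∧
        AzF F i₀ ⌊Q * J⌋₊ ⌊s' * J⌋₊ ⌊w * J⌋₊ A₂ z ∧ Ψ J F A₂ z) := by
  obtain ⟨ψ₁, hψ₁0, J₁, hbas⟩ := hB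
  obtain ⟨κ', hκ'⟩ : ∃ κ', κ' = min κ (ψ₁ / 4) := ⟨_, rfl⟩
  have hκ0 : 0 < κ' := by rw [hκ']; exact lt_min hκ (by positivity)
  have hκ1 : κ' ≤ κ := by rw [hκ']; exact min_le_left _ _
  have hκ2 : κ' ≤ ψ₁ / 4 := by rw [hκ']; exact min_le_right _ _
  obtain ⟨ψf, hψf, hfr⟩ := az_frames H hrot hκ0
  refine ⟨min ψf (ψ₁ / 4), lt_min hψf (by positivity), Clp.mono (J₂ := J₁)
    (hfr.and (Clp.of (S := S) (Φ := fun J F A => S.St (ψ₁ / 4) J F A)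
    (by positivity : 0 < ψ₁ / 4) 0 fun J _ F A hA => hA)) ?_⟩
  rintro J hJ F A ⟨h1, hSt⟩ A₁ hA₁ hPA₁
  have hJr : (0 : ℝ) ≤ J := Nat.cast_nonneg J
  have hp := F.isLaw
  have hPe := Pe_nonneg hp A
  obtain ⟨A₂, z, hA₂, hPA₂, hz⟩ := h1 A₁ hA₁ (le_trans (mul_le_mul_of_nonneg_right
    (Real.exp_le_exp.2 (by
      have := mul_le_mul_of_nonneg_right (min_le_left ψf (ψ₁ / 4)) hJr
      linarith only [this])) hPe) hPA₁)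
  have hStA₁ : S.St (ψ₁ / 2) J F A₁ := by
    have h2 := S.res (τ' := ψ₁ / 4) (by positivity) hSt hA₁ (le_trans
      (mul_le_mul_of_nonneg_right (Real.exp_le_exp.2 (by
        have := mul_le_mul_of_nonneg_right (min_le_right ψf (ψ₁ / 4)) hJr
        linarith only [this])) hPe) hPA₁)
    have e1 : ψ₁ / 4 + ψ₁ / 4 = ψ₁ / 2 := by ring
    rwa [e1] at h2
  have hStA₂ : S.St ψ₁ J F A₂ := by
    have h2 := S.res (τ' := κ') hκ0.le hStA₁ hA₂ hPA₂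
    exact S.mono (by linarith only [hκ0, hκ2]) h2
  refine ⟨A₂, z, hA₂, le_trans (mul_le_mul_of_nonneg_right (Real.exp_le_exp.2 (by
      have := mul_le_mul_of_nonneg_right hκ1 hJr
      linarith only [this])) (Pe_nonneg hp A₁)) hPA₂, hz, hbas J hJ F A₂ hStA₂ z
    (hz.coarse (Nat.floor_le_floor (mul_le_mul_of_nonneg_right hss hJr)))⟩

/-- **Leaves in the A-zoom.** -/
theorem az_leaf (hSTP : ∀ S : FCl 3, SPS S 1 → STP S) (hSLP : ∀ S : FCl 3, SPS S 1 → SLP S)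
    (hCHS : ∀ S : FCl 3, TLS S → CHS S) {S : PCl 3} {a R h₁ : ℝ} {i₀ : Fin 3} {Q pi : ℝ}
    (H : AzH S a R h₁ i₀ Q pi) {c : ℝ} (hc : 0 < c) (hT : BTail S c Q) {e : ℝ} (he : 0 < e)
    {x : ℝ} (hx : 0 < x) (nf : ℕ → ℕ) : ∃ N K₁ : ℕ, ∀ δ : ℝ, 0 < δ → ∃ b > 0, ∀ κ : ℝ, 0 < κ →
    ∀ w s : ℝ, 0 ≤ w → w + max s 0 + e ≤ Q → pi - b ≤ s →
    Clp S (capS 1 (qRot i₀ Q w) s) → ∃ ψ₀ > 0, Clp S (fun J F A =>
      ∀ A₁ : F.Ω → Prop, Sub A₁ A → Real.exp (-(ψ₀ * J)) * Pe F.p A ≤ Pe F.p A₁ →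
      ∃ (A₂ : F.Ω → Prop) (z : F.Ω → Fin 3 → ℝ), Sub A₂ A₁ ∧
        Real.exp (-(κ * J)) * Pe F.p A₁ ≤ Pe F.p A₂ ∧
        AzF F i₀ ⌊Q * J⌋₊ ⌊s * J⌋₊ ⌊w * J⌋₊ A₂ z ∧
        ∃ (hA₂ : IsLaw (cond F.p A₂ True)) (h : ⌊w * J⌋₊ + azJ Q w s J ≤ J),
          e / 2 * J ≤ azJ Q w s J ∧
          ∃ B : F.Ω → Prop, Real.exp (-(δ * azJ Q w s J)) ≤ Pe (cond F.p A₂ True) B ∧
          ∃ K ≤ K₁, nf K ≤ N ∧ ∃ (i₁ : Fin 3) (i p ρ : ℕ), (i : ℝ) ≤ x * N ∧ i ≤ ρ ∧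
            (1 - x) * N ≤ p ∧ p < ρ ∧ ρ ≤ N ∧
            Bl (azG F i₀ Q w s A₂ z hA₂ h) i₁ N K ρ i p B) := by
  obtain ⟨N, K₁, hl⟩ := az_leaf_bas hSTP hSLP hCHS H hc hT he hx nf
  refine ⟨N, K₁, fun δ hδ => ?_⟩
  obtain ⟨b, hb, hl2⟩ := hl δ hδ
  refine ⟨b, hb, fun κ hκ w s hw0 hws hs hrot => ?_⟩
  exact frames_of_bas H le_rfl hrot (hl2 w s hw0 hws hs) hκ

end Pool.ZCL
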