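import Pool.Agent.H35.ZCL.Az2
import Pool.Agent.H80.S6C.Cls

/-!
# The A-zoom at class level

Frames of the A-zoom in a class, and the spread of the fans of the zoom.
-/

set_option autoImplicit false

namespace Pool.ZCL

open Finset Real
open Pool.Agent.H49.Ent Pool.Agent.H32.Dense Pool.STK Pool.KA Pool.KSAT Pool.K2S Pool.PB Pool.S6C
open Pool.S6K (exact_label steep_ball ball_claim)

/-- The resolution of the A-zoom. -/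
noncomputable def azJ (Q w s : ℝ) (J : ℕ) : ℕ := ⌊Q * J⌋₊ - ⌊w * J⌋₊ - ⌊s * J⌋₊

theorem azJ_le {Q w s : ℝ} (hQ : Q ≤ 1) (hw : w ≤ Q) (J : ℕ) : ⌊w * J⌋₊ + azJ Q w s J ≤ J := by
  have h1 : ⌊w * (J : ℝ)⌋₊ ≤ ⌊Q * (J : ℝ)⌋₊ :=
    Nat.floor_le_floor (mul_le_mul_of_nonneg_right hw (Nat.cast_nonneg J))
  have h2 : ⌊Q * (J : ℝ)⌋₊ ≤ J := by
    refine Nat.floor_le_of_le ?_
    exact mul_le_of_le_one_left (Nat.cast_nonneg J) hQ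
  unfold azJ
  omega

theorem floor_le_J {Q : ℝ} (hQ : Q ≤ 1) (J : ℕ) : ⌊Q * (J : ℝ)⌋₊ ≤ J :=
  Nat.floor_le_of_le (mul_le_of_le_one_left (Nat.cast_nonneg J) hQ)

/-- The rows of the A-zoom add up. -/
theorem azJ_add {Q w s e : ℝ} (he : 0 < e) (hw0 : 0 ≤ w) (hws : w + max s 0 + e ≤ Q) {J : ℕ}
    (hJ : 2 / e ≤ J) : ⌊w * J⌋₊ + azJ Q w s J + ⌊s * J⌋₊ = ⌊Q * J⌋₊ ∧
      e / 2 * J ≤ azJ Q w s J := by
  have hJr : (0 : ℝ) ≤ J := Nat.cast_nonneg J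
  rw [div_le_iff₀ he] at hJ
  have hs0 : 0 ≤ max s 0 := le_max_right _ _
  have h1 : (⌊w * (J : ℝ)⌋₊ : ℝ) ≤ w * J := Nat.floor_le (by positivity)
  have h2 : (⌊s * (J : ℝ)⌋₊ : ℝ) ≤ max s 0 * J := by
    have h3 : ⌊s * (J : ℝ)⌋₊ ≤ ⌊max s 0 * (J : ℝ)⌋₊ :=
      Nat.floor_le_floor (mul_le_mul_of_nonneg_right (le_max_left _ _) hJr)
    exact (by exact_mod_cast h3 : (⌊s * (J : ℝ)⌋₊ : ℝ) ≤ ⌊max s 0 * (J : ℝ)⌋₊).trans
      (Nat.floor_le (by positivity))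
  have h4 : Q * J < ⌊Q * (J : ℝ)⌋₊ + 1 := Nat.lt_floor_add_one _
  have h5 : (w + max s 0 + e) * J ≤ Q * J := mul_le_mul_of_nonneg_right hws hJr
  have h6 : ⌊w * (J : ℝ)⌋₊ + ⌊s * (J : ℝ)⌋₊ ≤ ⌊Q * (J : ℝ)⌋₊ := by
    have : ((⌊w * (J : ℝ)⌋₊ + ⌊s * (J : ℝ)⌋₊ : ℕ) : ℝ) < ((⌊Q * (J : ℝ)⌋₊ + 1 : ℕ) : ℝ) := by
      push_cast
      nlinarith
    have := Nat.cast_lt.1 this
    omega
  unfold azJ
  refine ⟨by omega, ?_⟩
  have h7 : ((⌊Q * (J : ℝ)⌋₊ - ⌊w * (J : ℝ)⌋₊ - ⌊s * (J : ℝ)⌋₊ : ℕ) : ℝ) =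
      ⌊Q * (J : ℝ)⌋₊ - ⌊w * (J : ℝ)⌋₊ - ⌊s * (J : ℝ)⌋₊ := by
    rw [Nat.cast_sub (by omega), Nat.cast_sub (by omega)]
  rw [h7]
  nlinarith

/-- Trivial frames. -/
theorem AzF.trivial {m J : ℕ} (F : Fam m J) (i₀ : Fin m) (r w : ℕ) (A : F.Ω → Prop) :
    AzF F i₀ r 0 w A (fun _ _ => 0) := by
  refine ⟨fun _ _ _ => rfl, fun _ => rfl, ⟨fun _ _ => 0, fun _ _ => rfl⟩,
    fun _ _ _ => by simp, ⟨fun _ _ => 0, fun ω _ j _ => ?_⟩⟩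
  have := F.dir ω j
  simp only [zero_mul, sub_zero, pow_zero, div_one]
  linarith

/-- **Frames of the A-zoom**, on events. -/
theorem az_frames_ev {a R h₁ : ℝ} {i₀ : Fin 3} (ha : 1 ≤ a) (hR : 0 < R)
    (hU : UBa 3 a R) (hh₁ : 0 < h₁) {s : ℝ} (hs : 0 < s) (hs1 : s ≤ 1) {κ : ℝ} (hκ : 0 < κ) :
    ∃ τ > 0, ∃ J₁ : ℕ, ∀ J ≥ J₁, ∀ (F : Fam 3 J) (A : F.Ω → Prop), Fam.Stt F a R τ A →
      Lb F i₀ ⌊h₁ * J⌋₊ A → ∀ r w : ℕ, r ≤ J →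
      RotU i₀ (1 / 2 ^ ⌊s * J⌋₊) (1 / 2 ^ ⌊s * J⌋₊) (ptr F r) (slam F w) F.d A →
      ∃ (A₂ : F.Ω → Prop) (z : F.Ω → Fin 3 → ℝ), Sub A₂ A ∧
        Real.exp (-(κ * J)) * Pe F.p A ≤ Pe F.p A₂ ∧ AzF F i₀ r ⌊s * J⌋₊ w A₂ z := by
  classical
  obtain ⟨x, hx⟩ : ∃ x, x = min (s / 2) (h₁ / 2) := ⟨_, rfl⟩
  have hx0 : 0 < x := by rw [hx]; exact lt_min (by positivity) (by positivity)
  have hx1 : x ≤ s / 2 := by rw [hx]; exact min_le_left _ _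
  have hx2 : x ≤ h₁ / 2 := by rw [hx]; exact min_le_right _ _
  obtain ⟨τb, hτb, Jb, hball⟩ := ball_claim (m := 3) ha hR hU hx0
  obtain ⟨κ', hκ'⟩ : ∃ κ', κ' = min κ (τb / 2) := ⟨_, rfl⟩
  have hκ0 : 0 < κ' := by rw [hκ']; exact lt_min hκ (by positivity)
  have hκ1 : κ' ≤ κ := by rw [hκ']; exact min_le_left _ _
  have hκ2 : κ' ≤ τb / 2 := by rw [hκ']; exact min_le_right _ _
  obtain ⟨Je, hJe⟩ := Pool.S6K.exp_small hκ0 (C := 2 * 7 ^ 3) (by norm_num)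
  obtain ⟨Jx, hJx⟩ := exists_nat_gt (8 / x)
  refine ⟨τb / 2, by positivity, max Je (max Jb Jx), ?_⟩
  intro J hJ F A hS hL r w hr h1
  have hJe' : Je ≤ J := (le_max_left _ _).trans hJ
  have hJb : Jb ≤ J := (le_max_left _ _).trans ((le_max_right _ _).trans hJ)
  have hJx' : 8 / x < J :=
    hJx.trans_le (by exact_mod_cast (le_max_right _ _).trans ((le_max_right _ _).trans hJ))
  have hq : 0 < 8 / x := by positivity
  have hJr : (0 : ℝ) < J := by linarith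
  have hxJ : 8 ≤ x * J := by
    rw [div_lt_iff₀ hx0] at hJx'
    linarith
  have hp := F.isLaw
  have hA0 : 0 < Pe F.p A := lt_of_lt_of_le (Real.exp_pos _) hS.2.2.2
  have hexp : ∀ B : F.Ω → Prop, Pe F.p A ≤ 2 * 7 ^ 3 * Pe F.p B →
      Real.exp (-(κ' * J)) * Pe F.p A ≤ Pe F.p B := by
    intro B hB
    have h2 := hJe J hJe'
    rw [le_div_iff₀ (by norm_num)] at h2
    calc Real.exp (-(κ' * J)) * Pe F.p A ≤ Real.exp (-(κ' * J)) * (2 * 7 ^ 3 * Pe F.p B) :=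
          mul_le_mul_of_nonneg_left hB (Real.exp_pos _).le
      _ = (Real.exp (-(κ' * J)) * (2 * 7 ^ 3)) * Pe F.p B := by ring
      _ ≤ 1 * Pe F.p B := mul_le_mul_of_nonneg_right h2 (Pe_nonneg hp B)
      _ = _ := one_mul _
  rcases az_frame F hr hL h1 with ⟨B, hB, hP, hb⟩ | ⟨B, z, hB, hP, hz⟩
  · exfalso
    have hPB : Real.exp (-(κ' * J)) * Pe F.p A ≤ Pe F.p B := by
      refine hexp B (hP.trans ?_)
      have := Pe_nonneg hp B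
      nlinarith
    have hS₂ : Fam.Stt F a R τb B := by
      have h4 := Fam.Stt.mono (by linarith : τb / 2 ≤ τb) hS
      refine ⟨h4.1, h4.2.1, h4.2.2.1, le_trans ?_ hPB⟩
      refine le_trans ?_ (mul_le_mul_of_nonneg_left hS.2.2.2 (Real.exp_pos _).le)
      rw [← Real.exp_add]
      refine Real.exp_le_exp.2 ?_
      have := mul_le_mul_of_nonneg_right hκ2 hJr.le
      linarith
    obtain ⟨t, ht⟩ : ∃ t : ℕ, t = ⌈x * J⌉₊ := ⟨_, rfl⟩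
    have ht1 : x * J ≤ t := by rw [ht]; exact Nat.le_ceil _
    have ht2 : (t : ℝ) < x * J + 1 := by rw [ht]; exact Nat.ceil_lt_add_one (by positivity)
    have e1 : 2 * (x * J) ≤ s * J := by
      have := mul_le_mul_of_nonneg_right hx1 hJr.le
      linarith
    have e2 : 2 * (x * J) ≤ h₁ * J := by
      have := mul_le_mul_of_nonneg_right hx2 hJr.le
      linarith
    have ht3 : t + 3 ≤ ⌊s * (J : ℝ)⌋₊ := by
      refine Nat.le_floor ?_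
      push_cast
      linarith
    have ht4 : t + 3 ≤ ⌊h₁ * (J : ℝ)⌋₊ := by
      refine Nat.le_floor ?_
      push_cast
      linarith
    have ht5 : t ≤ J := by
      have h6 : (t : ℝ) ≤ J := by
        have : s * J ≤ 1 * J := mul_le_mul_of_nonneg_right hs1 hJr.le
        linarith
      exact_mod_cast h6
    refine hball J hJb F B hS₂ t ht5 ht1 ?_
    obtain ⟨ζ, hζ⟩ := hb
    refine ⟨ζ, fun ω hω j => (hζ ω hω j).trans ?_⟩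
    have f1 : (2 : ℝ) / 2 ^ ⌊s * (J : ℝ)⌋₊ ≤ 2 / 2 ^ (t + 3) :=
      div_le_div_of_nonneg_left (by norm_num) (by positivity)
        (pow_le_pow_right₀ (by norm_num) ht3)
    have f2 : (4 : ℝ) / 2 ^ ⌊h₁ * (J : ℝ)⌋₊ ≤ 4 / 2 ^ (t + 3) :=
      div_le_div_of_nonneg_left (by norm_num) (by positivity)
        (pow_le_pow_right₀ (by norm_num) ht4)
    have f3 : (2 : ℝ) / 2 ^ (t + 3) = 2 / 8 * (1 / 2 ^ t) := by
      rw [pow_add]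
      norm_num
      ring
    have f4 : (4 : ℝ) / 2 ^ (t + 3) = 4 / 8 * (1 / 2 ^ t) := by
      rw [pow_add]
      norm_num
      ring
    have f5 : (0 : ℝ) < 1 / 2 ^ t := by positivity
    linarith
  · refine ⟨B, z, hB, le_trans ?_ (hexp B hP), hz⟩
    refine mul_le_mul_of_nonneg_right (Real.exp_le_exp.2 ?_) hA0.le
    have := mul_le_mul_of_nonneg_right hκ1 hJr.le
    linarith

/-- **The hypotheses of the A-zoom** at the row `Q`. -/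
structure AzH (S : PCl 3) (a R h₁ : ℝ) (i₀ : Fin 3) (Q pi : ℝ) : Prop where
  a1 : 1 ≤ a
  R0 : 0 < R
  ub : UBa 3 a R
  h₁0 : 0 < h₁
  st : ∀ (τ : ℝ) (J : ℕ) (F : Fam 3 J) (A : F.Ω → Prop), S.St τ J F A → Fam.Stt F a R τ A
  lb : ∀ (τ : ℝ) (J : ℕ) (F : Fam 3 J) (A : F.Ω → Prop), S.St τ J F A → Lb F i₀ ⌊h₁ * J⌋₊ A
  Q1 : Q ≤ 1
  pi : PNum S (capS 1 (qPi i₀ Q)) pi

theorem AzH.of_cs {S : PCl 3} {a R h₁ : ℝ} {i₀ : Fin 3} {c s₂ : ℝ} {r : ℝ → ℝ} {D : Set ℝ}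
    {σ : ℝ → Row} (hC : Cs S a R h₁ i₀ c s₂ r D σ) {Q : ℝ} (hQ0 : 0 < Q) (hQ1 : Q ≤ 1)
    (hQ : Q ∉ D) : AzH S a R h₁ i₀ Q (σ Q).pi :=
  ⟨hC.a1.le, hC.R0, hC.ub, hC.h₁0, hC.st, hC.lb, hQ1, (hC.row Q hQ0 hQ1 hQ).pi⟩

theorem AzH.sub {S S' : PCl 3} {a R h₁ : ℝ} {i₀ : Fin 3} {Q pi : ℝ} (hS : SubC S' S)
    (h : AzH S a R h₁ i₀ Q pi) : AzH S' a R h₁ i₀ Q pi :=
  ⟨h.a1, h.R0, h.ub, h.h₁0, fun τ J F A hA => h.st τ J F A (hS.sub τ J F A hA),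
    fun τ J F A hA => h.lb τ J F A (hS.sub τ J F A hA), h.Q1, h.pi.le hS.le⟩

/-- **Frames of the A-zoom in a class**, inside events of small cost. -/
theorem az_frames {S : PCl 3} {a R h₁ : ℝ} {i₀ : Fin 3} {Q pi : ℝ}
    (H : AzH S a R h₁ i₀ Q pi) {w s : ℝ}
    (hrot : Clp S (capS 1 (qRot i₀ Q w) s)) {κ : ℝ} (hκ : 0 < κ) :
    ∃ ψ > 0, Clp S (fun J F A => ∀ A₁ : F.Ω → Prop, Sub A₁ A →
      Real.exp (-(ψ * J)) * Pe F.p A ≤ Pe F.p A₁ →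
      ∃ (A₂ : F.Ω → Prop) (z : F.Ω → Fin 3 → ℝ), Sub A₂ A₁ ∧
      Real.exp (-(κ * J)) * Pe F.p A₁ ≤ Pe F.p A₂ ∧
      AzF F i₀ ⌊Q * J⌋₊ ⌊s * J⌋₊ ⌊w * J⌋₊ A₂ z) := by
  classical
  rcases le_or_gt s 0 with hs | hs
  · refine ⟨1, one_pos, Clp.of one_pos 0 fun J _ F A hA A₁ hA₁ hP =>
      ⟨A₁, fun _ _ => 0, fun _ h => h, ?_, ?_⟩⟩
    · have : Real.exp (-(κ * J)) ≤ 1 := by
        rw [Real.exp_le_one_iff]
        have : 0 ≤ κ * (J : ℝ) := by positivity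
        linarith
      calc _ ≤ 1 * Pe F.p A₁ := mul_le_mul_of_nonneg_right this (Pe_nonneg F.isLaw A₁)
        _ = _ := one_mul _
    · have h1 : ⌊s * (J : ℝ)⌋₊ = 0 :=
        Nat.floor_of_nonpos (mul_nonpos_of_nonpos_of_nonneg hs (Nat.cast_nonneg J))
      rw [h1]
      exact AzF.trivial F i₀ _ _ A₁
  · rcases le_or_gt s 1 with hs1 | hs1
    · obtain ⟨τ, hτ, J₁, hfr⟩ := az_frames_ev (i₀ := i₀) H.a1 H.R0 H.ub H.h₁0 hs hs1 hκ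
      refine ⟨τ / 2, by positivity, Clp.mono (J₂ := J₁) (hrot.and (Clp.of (S := S)
        (Φ := fun J F A => S.St (τ / 2) J F A) (by positivity : 0 < τ / 2) 0
        fun J _ F A hA => hA)) ?_⟩
      rintro J hJ F A ⟨h1, hA⟩ A₁ hA₁ hP
      have hSt : S.St τ J F A₁ := by
        have := S.res (τ' := τ / 2) (by positivity) hA hA₁ hP
        have e : τ / 2 + τ / 2 = τ := by ring
        rwa [e] at this
      rcases h1 with h1 | ⟨-, h1⟩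
      · linarith
      · exact hfr J hJ F A₁ (H.st _ _ _ _ hSt) (H.lb _ _ _ _ hSt) _ _ (floor_le_J H.Q1 J)
          (RotU.hered _ _ _ _ _ _ _ _ hA₁ h1)
    · refine ⟨1, one_pos, Clp.mono (J₂ := 0) hrot ?_⟩
      rintro J - F A (h1 | ⟨h1, -⟩)
      · linarith
      · linarith

end Pool.ZCL
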