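import Pool.Agent.H35.ZCL.LeafC
import Pool.Agent.H35.ZCL.Asec
import Pool.Agent.H42.PB.ChU

/-!
# Leaves with charts in the A-zoom, base form
-/

set_option autoImplicit false

namespace Pool.ZCL

open Finset Real
open Pool.Agent.H49.Ent Pool.Agent.H32.Dense Pool.STK Pool.KA Pool.KSAT Pool.K2S Pool.PB Pool.S6C

/-- The precision of the charts of the zooms: it depends on the tail only. -/
theorem exists_chart {c : ℝ} (hc : 0 < c) : ∃ h₂ : ℝ, 0 < h₂ ∧ h₂ ≤ 1 ∧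
    ∀ (gs ψ : ℕ → ℝ), (∀ i, 0 < ψ i) → Clg (zg 3 1 gs (c * Real.log 2) ψ)
      (fun J F A => ∃ i₁ : Fin 3, Ch F i₁ ⌊h₂ * J⌋₊ A) := by
  obtain ⟨h₂, hh₂, η, hη, hch⟩ := chs_unif 2 (mul_pos hc (Real.log_pos one_lt_two))
  refine ⟨min h₂ 1, lt_min hh₂ one_pos, min_le_right _ _, fun gs ψ hψ => ?_⟩
  refine Clg.mono (J₂ := 0) ((hch (zg 3 1 gs (c * Real.log 2) ψ)).and (tl_zg hψ hη)) ?_
  rintro J - F A ⟨h1, h2⟩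
  obtain ⟨i₁, n, s, h3⟩ := h1 h2
  refine ⟨i₁, n, s, fun ω hω => ⟨(h3 ω hω).1, (h3 ω hω).2.1, (h3 ω hω).2.2.trans ?_⟩⟩
  exact inv_mono (Nat.floor_le_floor (mul_le_mul_of_nonneg_right (min_le_left _ _)
    (Nat.cast_nonneg J)))

/-- **Leaves with charts in the A-zoom**, base form. -/
theorem az_leafc_bas (hSTP : ∀ S : FCl 3, SPS S 1 → STP S)
    (hSLP : ∀ S : FCl 3, SPS S 1 → SLP S) {c : ℝ} (hc : 0 < c) {h₂ : ℝ} (hh₂ : 0 < h₂)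
    (hcht : ∀ (gs ψ : ℕ → ℝ), (∀ i, 0 < ψ i) → Clg (zg 3 1 gs (c * Real.log 2) ψ)
      (fun J F A => ∃ i₁ : Fin 3, Ch F i₁ ⌊h₂ * J⌋₊ A))
    {S : PCl 3} {a R h₁ : ℝ} {i₀ : Fin 3} {Q pi : ℝ}
    (H : AzH S a R h₁ i₀ Q pi) (hT : BTail S c Q) {e : ℝ} (he : 0 < e)
    {x : ℝ} (hx : 0 < x) (nf : ℕ → ℕ) : ∃ N K₁ : ℕ, ∀ δ : ℝ, 0 < δ → ∃ b > 0,
    ∀ w s : ℝ, 0 ≤ w → w + max s 0 + e ≤ Q → pi - b ≤ s →
    Bas S (fun J F A => ∀ z : F.Ω → Fin 3 → ℝ, AzF F i₀ ⌊Q * J⌋₊ ⌊s * J⌋₊ ⌊w * J⌋₊ A z →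
      ∃ (hA : IsLaw (cond F.p A True)) (h : ⌊w * J⌋₊ + azJ Q w s J ≤ J),
        e / 2 * J ≤ azJ Q w s J ∧
        ∃ B : F.Ω → Prop, Real.exp (-(δ * azJ Q w s J)) ≤ Pe (cond F.p A True) B ∧
        ∃ K ≤ K₁, nf K ≤ N ∧ ∃ (i₁ : Fin 3) (i p ρ : ℕ), (i : ℝ) ≤ x * N ∧ i ≤ ρ ∧
          (1 - x) * N ≤ p ∧ p < ρ ∧ ρ ≤ N ∧
          Ch (azG F i₀ Q w s A z hA h) i₁ ⌊h₂ * azJ Q w s J⌋₊ B ∧
          Bl (azG F i₀ Q w s A z hA h) i₁ N K ρ i p B) := by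
  obtain ⟨ψ, hψ0, hyp⟩ := az_hyp_bas H hT he (gs := fun i => 1 / ((i : ℝ) + 1))
    (fun i => by positivity) (fun i => by
      rw [div_le_one (by positivity)]
      have : (0 : ℝ) ≤ i := Nat.cast_nonneg i
      linarith)
  obtain ⟨N, K₁, hleaf⟩ := zoom_leafc (m := 3) hSTP hSLP (r := c * Real.log 2)
    (mul_pos hc (Real.log_pos one_lt_two)) hψ0 hh₂ (hcht _ ψ hψ0) (B₀ := 6) (by norm_num) hx nf
  refine ⟨N, K₁, fun δ hδ => ?_⟩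
  obtain ⟨η, hη, n, J₁, hl⟩ := hleaf δ hδ
  refine ⟨e * (1 / ((n : ℝ) + 1)) / 16, by positivity, fun w s hw0 hws hs => ?_⟩
  refine (hyp n η hη w s hw0 hws (fun i hi => by
    have h1 : 1 / ((n : ℝ) + 1) ≤ 1 / ((i : ℝ) + 1) :=
      one_div_le_one_div_of_le (by positivity) (by
        have : (i : ℝ) ≤ n := by exact_mod_cast hi
        linarith)
    have h2 := mul_le_mul_of_nonneg_left h1 he.le
    linarith) J₁).mono 0 ?_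
  intro J _ F A h1 z hz
  obtain ⟨hA, hh, h5, hJ', h6⟩ := h1 z hz
  obtain ⟨B, k1, k2⟩ := hl _ h5 (azG F i₀ Q w s A z hA hh) h6.tm h6.ln h6.sp h6.tl
  exact ⟨hA, hh, hJ', B, k1, k2⟩

end Pool.ZCL
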