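import Pool.Agent.H18.PB.Skel2
import Pool.Agent.H35.ZCL.Core

/-!
# Classes of zooms

The class `zs m Good r ψ`: regular families with nearly uniform times, with spread fans at all
scales and with a tail which is not full, on all events which are not too small. It satisfies
`SPS` and `TLS`; if `Good` is a chart, it satisfies `CHS`.
-/

set_option autoImplicit false

namespace Pool.ZCL

open Finset Real
open Pool.Agent.H49.Ent Pool.Agent.H32.Dense Pool.STK Pool.KA Pool.K2S Pool.PB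

/-- The fans lie within `2 ^ (-g J)` of affine `j`-planes. -/
def BadS (m j : ℕ) (g : ℝ) : Stat m := fun J F B =>
  PlU j (1 / 2 ^ ⌊g * J⌋₊) (Fam.pt F) F.d B

/-- The tail is almost full from some row on. -/
def BadT (m : ℕ) (r η : ℝ) : Stat m := fun J F B => ∃ P : ℕ, P ≤ J ∧ J ≤ 2 * P ∧
  (m * Real.log 2 - r) * ((J : ℝ) - P) + η * J <
    CH (Pool.Agent.H49.Ent.cond F.p B True) (F.X J) (fun ω => (F.X P ω, F.W ω))

/-- The list of the bad properties. -/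
def stdBad (m j : ℕ) (r : ℝ) (i : ℕ) : Stat m := fun J F B =>
  BadS m j (1 / ((i : ℝ) + 1)) J F B ∨ BadT m r (1 / ((i : ℝ) + 1)) J F B

/-- The class of zooms. -/
def zs (m j : ℕ) (Good : ∀ J : ℕ, Fam m J → Prop) (r : ℝ) (ψ : ℕ → ℝ) : FCl m :=
  zc m Good (stdBad m j r) ψ

theorem cond_supp {Ω : Type} [Fintype Ω] (p : Ω → ℝ) (A : Ω → Prop) :
    cond p (fun ω => A ω ∧ p ω ≠ 0) True = cond p A True := by
  classical
  have h1 : law p (fun ω => A ω ∧ p ω ≠ 0) True = law p A True := Pe_supp p A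
  funext ω
  unfold Pool.Agent.H49.Ent.cond
  rw [h1]
  by_cases h2 : p ω = 0
  · rw [h2, zero_div]
    simp
  · by_cases h3 : A ω
    · have e1 : (A ω ∧ p ω ≠ 0) = True := by simp [h3, h2]
      have e2 : A ω = True := by simp [h3]
      rw [if_pos e1, if_pos e2]
    · have e1 : ¬ ((A ω ∧ p ω ≠ 0) = True) := by simp [h3]
      have e2 : ¬ (A ω = True) := by simp [h3]
      rw [if_neg e1, if_neg e2]

theorem stdBad_inv {m j : ℕ} {r : ℝ} (i J : ℕ) (F : Fam m J) (A : F.Ω → Prop)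
    (h : stdBad m j r i J F A) : stdBad m j r i J F (fun ω => A ω ∧ F.p ω ≠ 0) := by
  rcases h with h | ⟨P, h1, h2, h3⟩
  · exact Or.inl (PlU.hered _ _ _ _ A _ (fun ω hω => hω.1) h)
  · refine Or.inr ⟨P, h1, h2, ?_⟩
    rw [cond_supp]
    exact h3

variable {m : ℕ}

theorem exists_inv {g : ℝ} (hg : 0 < g) : ∃ i : ℕ, 1 / ((i : ℝ) + 1) ≤ g := by
  obtain ⟨i, hi⟩ := exists_nat_gt (1 / g)
  refine ⟨i, ?_⟩
  rw [div_lt_iff₀ hg] at hi
  rw [div_le_iff₀ (by positivity)]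
  nlinarith

/-- The fans are spread at all scales. -/
theorem sps_zs {j : ℕ} {Good : ∀ J : ℕ, Fam m J → Prop} {r : ℝ} {ψ : ℕ → ℝ}
    (hψ : ∀ i, 0 < ψ i) : SPS (zs m j Good r ψ) j := by
  intro g hg
  obtain ⟨i, hi⟩ := exists_inv hg
  have hψi := hψ i
  refine ⟨ψ i / 2, by positivity, Clg.of (τ := min (1 / ((i : ℝ) + 1)) (ψ i / 2))
    (lt_min (by positivity) (by positivity)) 0 fun J _ F A hS => ?_⟩
  intro B hB hPB hBad
  have hJ : (0 : ℝ) ≤ J := Nat.cast_nonneg J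
  have hiτ : (i : ℝ) * min (1 / ((i : ℝ) + 1)) (ψ i / 2) ≤ 1 := by
    have h1 : min (1 / ((i : ℝ) + 1)) (ψ i / 2) ≤ 1 / ((i : ℝ) + 1) := min_le_left _ _
    have h2 : (0 : ℝ) ≤ i := Nat.cast_nonneg i
    calc (i : ℝ) * min (1 / ((i : ℝ) + 1)) (ψ i / 2) ≤ i * (1 / ((i : ℝ) + 1)) :=
          mul_le_mul_of_nonneg_left h1 h2
      _ ≤ 1 := by
          rw [mul_one_div, div_le_one (by positivity)]
          linarith
  refine hS.1.2.2.2.2 i hiτ B ?_ (Or.inl ?_)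
  · refine le_trans ?_ hPB
    refine le_trans ?_ (mul_le_mul_of_nonneg_left hS.2 (Real.exp_pos _).le)
    rw [← Real.exp_add]
    refine Real.exp_le_exp.2 ?_
    have h1 : min (1 / ((i : ℝ) + 1)) (ψ i / 2) * (J : ℝ) ≤ ψ i / 2 * J :=
      mul_le_mul_of_nonneg_right (min_le_right _ _) hJ
    linarith
  · exact hBad.mono (inv_mono (Nat.floor_le_floor (mul_le_mul_of_nonneg_right hi hJ)))

/-- The tail is not full. -/
theorem tls_zs {j : ℕ} {Good : ∀ J : ℕ, Fam m J → Prop} {r : ℝ} {ψ : ℕ → ℝ} (hr : 0 < r)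
    (hψ : ∀ i, 0 < ψ i) : TLS (zs m j Good r ψ) := by
  refine ⟨r, hr, fun η hη => ?_⟩
  obtain ⟨i, hi⟩ := exists_inv hη
  have hψi := hψ i
  refine Clg.of (τ := min (1 / ((i : ℝ) + 1)) (ψ i))
    (lt_min (by positivity) (by positivity)) 0 fun J _ F A hS => ?_
  intro P hP1 hP2
  by_contra hcon
  push Not at hcon
  have hJ : (0 : ℝ) ≤ J := Nat.cast_nonneg J
  have hiτ : (i : ℝ) * min (1 / ((i : ℝ) + 1)) (ψ i) ≤ 1 := by
    have h1 : min (1 / ((i : ℝ) + 1)) (ψ i) ≤ 1 / ((i : ℝ) + 1) := min_le_left _ _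
    have h2 : (0 : ℝ) ≤ i := Nat.cast_nonneg i
    calc (i : ℝ) * min (1 / ((i : ℝ) + 1)) (ψ i) ≤ i * (1 / ((i : ℝ) + 1)) :=
          mul_le_mul_of_nonneg_left h1 h2
      _ ≤ 1 := by
          rw [mul_one_div, div_le_one (by positivity)]
          linarith
  refine hS.1.2.2.2.2 i hiτ A ?_ (Or.inr ⟨P, hP1, hP2, ?_⟩)
  · refine le_trans ?_ hS.2
    refine Real.exp_le_exp.2 ?_
    have h1 : min (1 / ((i : ℝ) + 1)) (ψ i) * (J : ℝ) ≤ ψ i * J :=
      mul_le_mul_of_nonneg_right (min_le_right _ _) hJ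
    linarith
  · refine lt_of_le_of_lt ?_ hcon
    have := mul_le_mul_of_nonneg_right hi hJ
    linarith

/-- The chart. -/
theorem chs_zs {j : ℕ} {i₁ : Fin m} {h₁ r : ℝ} {ψ : ℕ → ℝ} (hh₁ : 0 < h₁) :
    CHS (zs m j (fun J F => Ch F i₁ ⌊h₁ * J⌋₊ (fun _ => True)) r ψ) := by
  refine ⟨h₁, hh₁, Clg.of (τ := 1) one_pos 0 fun J _ F A hS => ⟨i₁, ?_⟩⟩
  exact Ch.hered F i₁ _ _ _ (fun _ _ => trivial) hS.1.2.2.2.1

/-- The class of zooms with the leaf property. -/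
theorem leaf_zs {j : ℕ} {Good : ∀ J : ℕ, Fam m J → Prop} {r : ℝ} {ψ : ℕ → ℝ}
    (hcht : CHS (zs m j Good r ψ)) (hrow : ROWS (zs m j Good r ψ))
    (hstp : STP (zs m j Good r ψ)) (hslp : SLP (zs m j Good r ψ)) : LEAF (zs m j Good r ψ) :=
  leaf_thm hcht hrow hstp hslp

end Pool.ZCL
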