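import Pool.Agent.H35.ZCL.Az2

/-!
# Covectors which kill the fans, and elongated fans
-/

set_option autoImplicit false

namespace Pool.ZCL

open Finset Real
open Pool.Agent.H49.Ent Pool.Agent.H32.Dense Pool.STK Pool.KA Pool.KSAT Pool.K2S Pool.PB

variable {Ω U : Type}

/-- A covector of norm `1`, a function of the point, kills the differences of the directions at the
point to precision `ρ`. -/
def Cov (ρ : ℝ) (pt : Ω → U) (d : Ω → Fin 3 → ℝ) (A : Ω → Prop) : Prop :=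
  ∃ ν : U → Fin 3 → ℝ, (∀ y, (∀ i, |ν y i| ≤ 1) ∧ ∃ i, |ν y i| = 1) ∧
    ∀ ω ω', A ω → A ω' → pt ω = pt ω' → |∑ i, ν (pt ω) i * (d ω i - d ω' i)| ≤ ρ

theorem Cov.hered (ρ : ℝ) (pt : Ω → U) (d : Ω → Fin 3 → ℝ) : Hered (Cov ρ pt d) := by
  rintro A B hB ⟨ν, h1, h2⟩
  exact ⟨ν, h1, fun ω ω' hω hω' => h2 ω ω' (hB ω hω) (hB ω' hω')⟩

theorem Cov.mono {ρ ρ' : ℝ} {pt : Ω → U} {d : Ω → Fin 3 → ℝ} {A : Ω → Prop} (h : ρ ≤ ρ')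
    (H : Cov ρ pt d A) : Cov ρ' pt d A := by
  obtain ⟨ν, h1, h2⟩ := H
  exact ⟨ν, h1, fun ω ω' hω hω' e => (h2 ω ω' hω hω' e).trans h⟩

/-- The fan of every exact point is longer than `2 ^ (-x)` in the chart coordinate. -/
def Elg {J : ℕ} (F : Fam 3 J) (i₀ : Fin 3) (x : ℕ) (A : F.Ω → Prop) : Prop :=
  ∀ ω, A ω → ∃ ω' ω'', A ω' ∧ A ω'' ∧ Fam.pt F ω' = Fam.pt F ω ∧ Fam.pt F ω'' = Fam.pt F ω ∧
    1 / 2 ^ x < |F.d ω' i₀ - F.d ω'' i₀|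

/-- **Statement of `cov_of_ch`**: a chart of the zoom of precision `q`, in any index, gives a
covector at the points of precision `r`, of precision `lam + q - y J`. -/
def CovOfChStmt : Prop :=
  ∀ {a R h₁ : ℝ}, 1 ≤ a → 0 < R → UBa 3 a R → 0 < h₁ → ∀ (i₀ : Fin 3) {y : ℝ}, 0 < y →
    ∀ {κ : ℝ}, 0 < κ → ∃ τ > 0, ∃ J₁ : ℕ, ∀ J ≥ J₁, ∀ (F : Fam 3 J)
    (A : F.Ω → Prop), Fam.Stt F a R τ A → Lb F i₀ ⌊h₁ * J⌋₊ A →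
    ∀ (r w lam J' : ℕ) (z : F.Ω → Fin 3 → ℝ) (h : w + J' ≤ J), w + J' + lam ≤ r → r ≤ J →
    AzF F i₀ r lam w A z → ∀ (hA : IsLaw (cond F.p A True)) (B : F.Ω → Prop),
    ∀ θ ≤ τ, Real.exp (-(θ * J)) ≤ Pe (cond F.p A True) B →
    ∀ (i₁ : Fin 3) (q : ℕ), y * J ≤ q → q ≤ J' →
    Ch ((F.res A True hA).zm w J' h (Box.plkC lam i₀) z) i₁ q B →
    ∃ B' : F.Ω → Prop, Sub B' A ∧ Real.exp (-((θ + κ) * J)) * Pe F.p A ≤ Pe F.p B' ∧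
      Cov (1 / 2 ^ (lam + q - ⌈y * J⌉₊)) (ptr F r) F.d B'

end Pool.ZCL
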