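import Pool.Agent.H35.ZCL.SecG
import Pool.Agent.H36.PB.RowU

/-!
# Leaves with their charts
-/

set_option autoImplicit false

namespace Pool.PB

open Finset Real
open Pool.Agent.H49.Ent Pool.Agent.H32.Dense Pool.STK Pool.KA Pool.KSAT Pool.K2S

variable {m J : ℕ}

/-- Leaves with their charts. -/
def LEAFC (S : FCl m) (h₁ : ℝ) : Prop :=
  ∀ x : ℝ, 0 < x → ∀ n : ℕ → ℕ, ∃ N K₁ : ℕ, Clg S (fun J F A => ∃ K ≤ K₁, n K ≤ N ∧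
    ∃ (i₁ : Fin m) (i p ρ : ℕ), (i : ℝ) ≤ x * N ∧ i ≤ ρ ∧ (1 - x) * N ≤ p ∧ p < ρ ∧ ρ ≤ N ∧
      Ch F i₁ ⌊h₁ * J⌋₊ A ∧ Bl F i₁ N K ρ i p A)

/-- **The leaf theorem, with the chart.** -/
theorem leafc_thm {S : FCl m} {h₁ : ℝ} (hh₁ : 0 < h₁)
    (hcht : Clg S (fun J F A => ∃ i₁ : Fin m, Ch F i₁ ⌊h₁ * J⌋₊ A)) (hROW : ROWS S)
    (hSTP : STP S) (hSLP : SLP S) : LEAFC S h₁ := by
  classical
  intro x₀ hx₀ n
  obtain ⟨x, hx'⟩ : ∃ x, x = min x₀ 1 := ⟨_, rfl⟩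
  have hx : 0 < x := by rw [hx']; exact lt_min hx₀ one_pos
  have hx1 : x ≤ 1 := by rw [hx']; exact min_le_right _ _
  have hxx : x ≤ x₀ := by rw [hx']; exact min_le_left _ _
  obtain ⟨c, X, hc, hX, Z₀, hZ₀, hrow⟩ := hROW (x / 2) (by linarith only [hx])
  obtain ⟨Cs, E₁, hCs8, hstp⟩ := hSTP c h₁ X hc hh₁ hX
  have hCs : 0 < Cs := by omega
  obtain ⟨ν, hν, E₂, hslp⟩ := hSLP c h₁ X hc hh₁ hX (2 * Cs)
  have hCsr : (0 : ℝ) < Cs := by exact_mod_cast hCs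
  obtain ⟨M, hrow⟩ := hrow (ν / (2 * Cs)) (by positivity)
  -- the constants of a level
  have lev : ∀ Z : ℕ, ∃ (K q N₁ : ℕ), 0 < q ∧ (0 < Z → max E₁ E₂ ≤ Z →
      (∀ N ≥ N₁, ∀ d : ℕ, N = 2 * Cs * Z * d → ∀ (i₁ : Fin m) (i ρ : ℕ), 2 * d ≤ i → i ≤ ρ →
        Cs * d ≤ ρ → (ρ : ℝ) + X * N ≤ N →
        Clg S (fun J F A => Ch F i₁ ⌊h₁ * J⌋₊ A → Pls F c N ρ A → Zr F c N (ρ - Cs * d) ρ A →
          Bl F i₁ N K ρ i (ρ - 1) A → Bl F i₁ N K ρ (i - d) (ρ - Cs * d) A)) ∧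
      (∀ L ≥ N₁, ∀ N : ℕ, N = 2 * Cs * Z * q * L → ∀ (i₁ : Fin m) (i₀ i p₀ p ρ : ℕ),
        2 * i₀ + q * L ≤ 2 * i → i ≤ p → p₀ ≤ p → p + 1 ≤ ρ → ρ ≤ p + L →
        p ≤ p₀ + 2 * Cs * (i - i₀) → (ρ : ℝ) + X * N ≤ N →
        Clg S (fun J F A => Ch F i₁ ⌊h₁ * J⌋₊ A →
          Pls F c N ρ A → (nbad F c (2 * Cs * Z * q) L p₀ p A : ℝ) ≤ ν * q →
          Bl F i₁ N K ρ i₀ p₀ A → Bl F i₁ N K ρ i p A))) := by
    intro Z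
    by_cases hZ : 0 < Z ∧ max E₁ E₂ ≤ Z
    · obtain ⟨hZ, hZE⟩ := hZ
      have hE : 0 < 2 * Cs * Z := by positivity
      have hZE2 : Z ≤ 2 * Cs * Z := Nat.le_mul_of_pos_left _ (by positivity)
      obtain ⟨K₁, hK₁⟩ := hstp (2 * Cs * Z) (((le_max_left _ _).trans hZE).trans hZE2) hE
      obtain ⟨K₂, hK₂⟩ := hslp (2 * Cs * Z) (((le_max_right _ _).trans hZE).trans hZE2) hE
      obtain ⟨K, hK⟩ : ∃ K, K = max K₁ K₂ := ⟨_, rfl⟩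
      have hKb : K₁ ≤ K := by rw [hK]; exact le_max_left _ _
      have hKc : K₂ ≤ K := by rw [hK]; exact le_max_right _ _
      obtain ⟨N₁, ht⟩ := hK₁ K hKb
      obtain ⟨q, hq, N₂, hsl⟩ := hK₂ K hKc
      refine ⟨K, q, max N₁ N₂, hq, fun _ _ => ⟨?_, ?_⟩⟩
      · intro N hN d hd i₁ i ρ k1 k2 k3 k4
        exact ht N ((le_max_left _ _).trans hN) d hd i₁ i ρ k1 k2 k3 k4
      · intro L hL N hN i₁ i₀ i p₀ p ρ k1 k2 k3 k4 k5 k6 k7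
        exact hsl L ((le_max_right _ _).trans hL) N hN i₁ i₀ i p₀ p ρ k1 k2 k3 k4 k5 k6 k7
    · exact ⟨0, 1, 0, one_pos, fun h1 h2 => absurd ⟨h1, h2⟩ hZ⟩
  choose K q N₁ hq lev using lev
  -- the chain of zones
  obtain ⟨Zm, hZm⟩ : ∃ Zm, Zm = max (max Z₀ (⌈1 / x⌉₊ + 1)) (max E₁ E₂) := ⟨_, rfl⟩
  have hZma : max Z₀ (⌈1 / x⌉₊ + 1) ≤ Zm := by rw [hZm]; exact le_max_left _ _
  have hZmb : max E₁ E₂ ≤ Zm := by rw [hZm]; exact le_max_right _ _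
  have hZm0 : 0 < Zm := lt_of_lt_of_le hZ₀ ((le_max_left _ _).trans hZma)
  obtain ⟨nx, hnx⟩ : ∃ nx : ℕ → ℕ, nx = fun _ => Zm := ⟨_, rfl⟩
  have hnx0 : ∀ Z, 0 < nx Z := fun Z => by rw [hnx]; exact hZm0
  obtain ⟨σ, hσ⟩ : ∃ σ : ℕ → ℕ, σ = fun Z => 2 * Cs * q Z := ⟨_, rfl⟩
  have hσ16 : ∀ Z, 16 ≤ σ Z := fun Z => by
    rw [hσ]
    have h1 : 2 * Cs ≤ 2 * Cs * q Z := Nat.le_mul_of_pos_right _ (hq Z)
    exact le_trans (by omega) h1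
  have hσ0 : ∀ Z, 0 < σ Z := fun Z => by
    have := hσ16 Z
    omega
  obtain ⟨L₀, hrow⟩ := hrow σ nx hσ16 hnx0 (by
    rw [hnx]
    exact (le_max_left _ _).trans hZma)
  have hck := chn_pos hσ0 hnx0
  have hZk : ∀ k, Zm ≤ chn σ nx k := fun k => by
    have := chn_le hσ0 hnx0 k
    rwa [hnx] at this ⊢
  have hZE : ∀ k, max E₁ E₂ ≤ chn σ nx k := fun k => hZmb.trans (hZk k)
  -- the mesh
  obtain ⟨L, hL⟩ : ∃ L, L = L₀ + (∑ k ∈ range M, N₁ (chn σ nx k)) +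
    (∑ k ∈ range M, n (K (chn σ nx k))) + ⌈2 / x⌉₊ + 2 := ⟨_, rfl⟩
  have hLk : ∀ k < M, N₁ (chn σ nx k) ≤ L := by
    intro k hk
    have := Finset.single_le_sum (f := fun k => N₁ (chn σ nx k)) (fun _ _ => Nat.zero_le _)
      (Finset.mem_range.2 hk)
    omega
  have hLn : ∀ k < M, n (K (chn σ nx k)) ≤ L := by
    intro k hk
    have := Finset.single_le_sum (f := fun k => n (K (chn σ nx k))) (fun _ _ => Nat.zero_le _)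
      (Finset.mem_range.2 hk)
    omega
  obtain ⟨N, hN⟩ : ∃ N, N = chn σ nx M * L := ⟨_, rfl⟩
  have hNL : L ≤ N := by rw [hN]; exact Nat.le_mul_of_pos_left _ (hck M)
  have hN0 : 0 < N := by omega
  have hNr : (0 : ℝ) < N := by exact_mod_cast hN0
  have hNx : 2 ≤ x * N := by
    have h1 : 2 / x ≤ (⌈2 / x⌉₊ : ℝ) := Nat.le_ceil _
    have h2 : (⌈2 / x⌉₊ : ℝ) ≤ N := by
      have : ⌈2 / x⌉₊ ≤ N := by omega
      exact_mod_cast this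
    have h3 : 2 / x ≤ N := h1.trans h2
    rw [div_le_iff₀ hx] at h3
    linarith only [h3]
  have hmesh : ∀ k < M, ∃ l, N = 2 * Cs * chn σ nx k * q (chn σ nx k) * l ∧ L ≤ l := by
    intro k hk
    obtain ⟨t, ht⟩ := chn_dvd (σ := σ) (ρ := nx) hk
    have ht0 : 0 < t := by
      rcases Nat.eq_zero_or_pos t with h | h
      · rw [h, Nat.mul_zero] at ht
        have := hck M
        omega
      · exact h
    refine ⟨t * L, ?_, Nat.le_mul_of_pos_left _ ht0⟩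
    rw [hN, ht, hσ]
    ring
  choose! l hl1 hl2 using hmesh
  obtain ⟨K₁, hK₁⟩ : ∃ K₁, K₁ = ∑ k ∈ range M, K (chn σ nx k) := ⟨_, rfl⟩
  have hKk : ∀ k < M, K (chn σ nx k) ≤ K₁ := by
    intro k hk
    rw [hK₁]
    exact Finset.single_le_sum (f := fun k => K (chn σ nx k)) (fun _ _ => Nat.zero_le _)
      (Finset.mem_range.2 hk)
  refine ⟨N, K₁, ?_⟩
  -- the claims
  have c2 : Clg S (fun J F A => ∀ v : Fin M × Fin m × Fin (N + 1) × Fin (N + 1),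
      (2 * (q (chn σ nx v.1) * l v.1) ≤ (v.2.2.1 : ℕ) ∧ (v.2.2.1 : ℕ) ≤ (v.2.2.2 : ℕ) ∧
        Cs * (q (chn σ nx v.1) * l v.1) ≤ (v.2.2.2 : ℕ) ∧
        ((v.2.2.2 : ℕ) : ℝ) + X * N ≤ N) →
      (Ch F v.2.1 ⌊h₁ * J⌋₊ A → Pls F c N (v.2.2.2 : ℕ) A →
        Zr F c N ((v.2.2.2 : ℕ) - Cs * (q (chn σ nx v.1) * l v.1)) (v.2.2.2 : ℕ) A →
        Bl F v.2.1 N (K (chn σ nx v.1)) (v.2.2.2 : ℕ) (v.2.2.1 : ℕ) ((v.2.2.2 : ℕ) - 1) A →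
        Bl F v.2.1 N (K (chn σ nx v.1)) (v.2.2.2 : ℕ)
          ((v.2.2.1 : ℕ) - q (chn σ nx v.1) * l v.1)
          ((v.2.2.2 : ℕ) - Cs * (q (chn σ nx v.1) * l v.1)) A)) :=
    Clg.finite fun v => Clg.cnd fun k => (lev _ (hck _) (hZE _)).1 N
      ((hLk v.1 v.1.2).trans hNL) (q (chn σ nx v.1) * l v.1)
      (by rw [← Nat.mul_assoc]; exact hl1 v.1 v.1.2) v.2.1 v.2.2.1 v.2.2.2 k.1 k.2.1 k.2.2.1
      k.2.2.2
  have c3 : Clg S (fun J F A => ∀ v : Fin M × Fin m × Fin (N + 1) × Fin (N + 1) ×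
      Fin (N + 1) × Fin (N + 1) × Fin (N + 1),
      (2 * (v.2.2.1 : ℕ) + q (chn σ nx v.1) * l v.1 ≤ 2 * (v.2.2.2.1 : ℕ) ∧
        (v.2.2.2.1 : ℕ) ≤ (v.2.2.2.2.2.1 : ℕ) ∧ (v.2.2.2.2.1 : ℕ) ≤ (v.2.2.2.2.2.1 : ℕ) ∧
        (v.2.2.2.2.2.1 : ℕ) + 1 ≤ (v.2.2.2.2.2.2 : ℕ) ∧
        (v.2.2.2.2.2.2 : ℕ) ≤ (v.2.2.2.2.2.1 : ℕ) + l v.1 ∧
        (v.2.2.2.2.2.1 : ℕ) ≤ (v.2.2.2.2.1 : ℕ) + 2 * Cs * ((v.2.2.2.1 : ℕ) - (v.2.2.1 : ℕ)) ∧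
        ((v.2.2.2.2.2.2 : ℕ) : ℝ) + X * N ≤ N) →
      (Ch F v.2.1 ⌊h₁ * J⌋₊ A → Pls F c N (v.2.2.2.2.2.2 : ℕ) A →
        (nbad F c (2 * Cs * chn σ nx v.1 * q (chn σ nx v.1)) (l v.1) (v.2.2.2.2.1 : ℕ)
          (v.2.2.2.2.2.1 : ℕ) A : ℝ) ≤ ν * q (chn σ nx v.1) →
        Bl F v.2.1 N (K (chn σ nx v.1)) (v.2.2.2.2.2.2 : ℕ) (v.2.2.1 : ℕ) (v.2.2.2.2.1 : ℕ) A →
        Bl F v.2.1 N (K (chn σ nx v.1)) (v.2.2.2.2.2.2 : ℕ) (v.2.2.2.1 : ℕ)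
          (v.2.2.2.2.2.1 : ℕ) A)) :=
    Clg.finite fun v => Clg.cnd fun k => (lev _ (hck _) (hZE _)).2 (l v.1)
      ((hLk v.1 v.1.2).trans (hl2 v.1 v.1.2)) N (hl1 v.1 v.1.2) v.2.1 v.2.2.1 v.2.2.2.1
      v.2.2.2.2.1 v.2.2.2.2.2.1 v.2.2.2.2.2.2 k.1 k.2.1 k.2.2.1 k.2.2.2.1 k.2.2.2.2.1
      k.2.2.2.2.2.1 k.2.2.2.2.2.2
  refine Clg.mono (J₂ := N) ((c2.and c3).and (hcht.and (hrow L (by omega) N hN))) ?_
  rintro J hJ F A ⟨⟨d2, d3⟩, ⟨i₁, hch⟩, k, hk, j, p, hp⟩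
  obtain ⟨Z, hZ⟩ : ∃ Z, Z = chn σ nx k := ⟨_, rfl⟩
  obtain ⟨L', hL'⟩ : ∃ L', L' = l k := ⟨_, rfl⟩
  have hZ0 : 0 < Z := by rw [hZ]; exact hck k
  have hNZ : N = 2 * Cs * Z * q Z * L' := by rw [hL', hZ]; exact hl1 k hk
  have hLL' : L ≤ L' := by rw [hL']; exact hl2 k hk
  obtain ⟨r1, r2, r3, r4, r5, r6, r7⟩ := hp Z (σ Z) L' hZ rfl (by rw [hNZ, hσ]; ring)
  have hsL : σ Z * L' = 2 * (Cs * (q Z * L')) := by rw [hσ]; ring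
  have hqL : 2 ≤ q Z * L' := by
    have h1 : L' ≤ q Z * L' := Nat.le_mul_of_pos_left _ (hq Z)
    omega
  have hCq : 2 ≤ Cs * (q Z * L') := le_trans hqL (Nat.le_mul_of_pos_left _ hCs)
  have hpN : p ≤ N := by
    have : (p : ℝ) ≤ N := by
      have : 0 ≤ X * N := by positivity
      linarith only [r2, this]
    exact_mod_cast this
  have r3' : j * (σ Z * L') + Cs * (q Z * L') ≤ p := by
    have e1 : (2 * j + 1) * (σ Z * L') = 2 * (j * (σ Z * L')) + σ Z * L' := by ring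
    omega
  -- `(1 - x) N + 1 ≤ p`
  have hpx : (1 - x) * N + 1 ≤ p := by
    have h1 : ((j * (σ Z * L') : ℕ) : ℝ) ≤ p := by
      have : j * (σ Z * L') ≤ p := by omega
      exact_mod_cast this
    linarith only [hNx, r1, h1]
  have hfin : ∃ i : ℕ, (i : ℝ) ≤ x * N ∧ i ≤ p ∧ Bl F i₁ N (K Z) p i (p - 1) A := by
    refine core2 (F := F) (A := A) (i₁ := i₁) (N := N) (K := K Z) (Cs := Cs) (E := 2 * Cs * Z)
      (q := q Z) (L := L') (ρ := p) (x := x) (c := c) (ν := ν) (X := X) hN0 hJ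
      hqL hCs hpN (by omega) ?_ (by omega) r2 ?_ ?_ ?_
    · -- `2 q L' ≤ x N`
      have h1 : (2 : ℝ) ≤ x * (2 * Cs * Z : ℕ) := by
        have h3 : ⌈1 / x⌉₊ ≤ Z := by
          have h3a : ⌈1 / x⌉₊ + 1 ≤ Zm := (le_max_right _ _).trans hZma
          have h3b : Zm ≤ Z := by rw [hZ]; exact hZk k
          omega
        have h4 : 1 / x ≤ Z := (Nat.le_ceil _).trans (by exact_mod_cast h3)
        rw [div_le_iff₀ hx] at h4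
        have h5 : 2 * (Z : ℝ) ≤ (2 * Cs * Z : ℕ) := by
          have : 2 * Z ≤ 2 * Cs * Z := Nat.mul_le_mul_right _ (by omega)
          exact_mod_cast this
        nlinarith only [h4, hx, h5]
      have h2 : (N : ℝ) = (2 * Cs * Z : ℕ) * (q Z * L' : ℕ) := by
        rw [hNZ]; push_cast; ring
      rw [h2]
      have h3 : (0 : ℝ) ≤ ((q Z * L' : ℕ) : ℝ) := Nat.cast_nonneg _
      nlinarith only [h1]
    · -- bad blocks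
      have h1 := nbad_le (F := F) (A := A) (c := c) (M := 2 * Cs * Z * q Z) (L := L') (s := σ Z)
        (j := j) (p := p - 1) (p₀ := p - Cs * (q Z * L')) (by omega) (by omega)
      have h2 : 2 * Cs * Z * q Z * L' = N := hNZ.symm
      rw [h2] at h1
      have h3 : (nbad F c (2 * Cs * Z * q Z) L' (p - Cs * (q Z * L')) (p - 1) A : ℝ) ≤
          ν / (2 * Cs) * σ Z := by
        refine le_trans ?_ r7
        exact_mod_cast h1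
      refine h3.trans (le_of_eq ?_)
      rw [hσ]
      push_cast
      field_simp
    · intro i h1 h2 h3 h4 h5
      have := d2 (⟨k, hk⟩, i₁, ⟨i, by omega⟩, ⟨p, by omega⟩) ⟨by rw [← hZ, ← hL']; exact h1, h2,
        by rw [← hZ, ← hL']; exact h3, h4⟩ hch r5
        (by rw [← hZ, ← hL']; exact r6 _ (by simp only; omega)) (by rw [← hZ]; exact h5)
      rw [← hZ, ← hL'] at this
      exact this
    · intro i₀ i p₀ p' h1 h2 h3 h4 h4' h5 h6 h7 h8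
      have := d3 (⟨k, hk⟩, i₁, ⟨i₀, by omega⟩, ⟨i, by omega⟩, ⟨p₀, by omega⟩, ⟨p', by omega⟩,
        ⟨p, by omega⟩) ⟨by rw [← hZ, ← hL']; exact h1, h2, h3, h4, by rw [← hL']; exact h4',
        h5, h6⟩ hch r5
        (by rw [← hZ, ← hL']; exact h7) (by rw [← hZ]; exact h8)
      rw [← hZ] at this
      exact this
  obtain ⟨i, hi1, hi0, hi2⟩ := hfin
  refine ⟨K Z, ?_, ?_, i₁, i, p - 1, p, ?_, hi0, ?_, by omega, hpN, hch, hi2⟩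
  · rw [hZ]; exact hKk k hk
  · rw [hZ]; exact (hLn k hk).trans hNL
  · exact hi1.trans (mul_le_mul_of_nonneg_right hxx hNr.le)
  · have h1 : ((p - 1 : ℕ) : ℝ) = p - 1 := by
      rw [Nat.cast_sub (by omega)]
      push_cast
      rfl
    rw [h1]
    have h2 : (1 - x₀) * N ≤ (1 - x) * N := mul_le_mul_of_nonneg_right (by linarith only [hxx]) hNr.le
    linarith only [hpx, h2]

end Pool.PB

namespace Pool.ZCL

open Finset Real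
open Pool.Agent.H49.Ent Pool.Agent.H32.Dense Pool.STK Pool.KA Pool.KSAT Pool.K2S Pool.PB

variable {m J : ℕ}

/-- The tail of the zooms. -/
theorem tl_zg {j : ℕ} {gs : ℕ → ℝ} {r : ℝ} {ψ : ℕ → ℝ} (hψ : ∀ i, 0 < ψ i) {η : ℝ}
    (hη : 0 < η) : Clg (zg m j gs r ψ) (fun _ F A => Tl F r η A) := by
  obtain ⟨i, hi⟩ := exists_inv hη
  have hψi := hψ i
  refine Clg.of (τ := min (1 / ((i : ℝ) + 1)) (ψ i))
    (lt_min (by positivity) (by positivity)) 0 fun J _ F A hS => ?_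
  intro P hP1 hP2
  by_contra hcon
  push Not at hcon
  have hJ : (0 : ℝ) ≤ J := Nat.cast_nonneg J
  have hiτ : (i : ℝ) * min (1 / ((i : ℝ) + 1)) (ψ i) ≤ 1 := by
    have h1 : min (1 / ((i : ℝ) + 1)) (ψ i) ≤ 1 / ((i : ℝ) + 1) := min_le_left _ _
    have h2 : (0 : ℝ) ≤ i := Nat.cast_nonneg i
    calc (i : ℝ) * min (1 / ((i : ℝ) + 1)) (ψ i) ≤ i * (1 / ((i : ℝ) + 1)) :=
          mul_le_mul_of_nonneg_left h1 h2
      _ ≤ 1 := by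
          rw [mul_one_div, div_le_one (by positivity)]
          linarith only
  refine hS.1.2.2.2.2 i hiτ A ?_ (Or.inr ⟨P, hP1, hP2, ?_⟩)
  · refine le_trans ?_ hS.2
    refine Real.exp_le_exp.2 ?_
    have h1 : min (1 / ((i : ℝ) + 1)) (ψ i) * (J : ℝ) ≤ ψ i * J :=
      mul_le_mul_of_nonneg_right (min_le_right _ _) hJ
    linarith only [h1]
  · refine lt_of_le_of_lt ?_ hcon
    have := mul_le_mul_of_nonneg_right hi hJ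
    linarith only [this]

/-- **Charts, glued.** -/
theorem chart_glue {G : Fam m J} {κ : Type} {c : G.Ω → κ} {B : G.Ω → Prop} (hS : Sel G c B)
    {i₁ : Fin m} {q : ℕ}
    (h : ∀ ω, 0 < G.p ω → B ω → ∀ hl : IsLaw (cond G.p c (c ω)),
      Ch (G.res c (c ω) hl) i₁ q (fun ω' => B ω' ∧ c ω' = c ω)) :
    Ch G i₁ q (fun ω => B ω ∧ G.p ω ≠ 0) := by
  classical
  have hp := G.isLaw
  obtain ⟨f, hf⟩ := sel_choice hS
    (α := ((Fin m → ℤ) × (ℕ × G.ζ) → ℝ) × ((Fin m → ℤ) × (ℕ × G.ζ) → Fin m → ℝ))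
    (P := fun x ω => x.2 (Fam.pt G ω) i₁ = 0 ∧ (∀ j, |x.2 (Fam.pt G ω) j| ≤ 1) ∧
      |G.d ω i₁ - x.1 (Fam.pt G ω) - ∑ j, x.2 (Fam.pt G ω) j * G.d ω j| ≤ 1 / 2 ^ q) (by
      intro ω hω hB
      obtain ⟨n, s, h1⟩ := h ω hω hB (isLaw_sec hp c hω)
      exact ⟨(n, s), fun ω' hω' => h1 ω' hω'⟩)
  exact ⟨fun s => (f s.2.2).1 s, fun s => (f s.2.2).2 s, fun ω hω => hf ω hω.1 hω.2⟩

/-- **Leaves with charts in families with side information.** -/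
theorem zoom_leafc (hSTP : ∀ S : FCl m, SPS S (m - 2) → STP S)
    (hSLP : ∀ S : FCl m, SPS S (m - 2) → SLP S)
    {r : ℝ} (hr : 0 < r) {ψ : ℕ → ℝ} (hψ : ∀ i, 0 < ψ i) {h₁ : ℝ} (hh₁ : 0 < h₁)
    (hcht : Clg (zg m (m - 2) (fun i => 1 / ((i : ℝ) + 1)) r ψ)
      (fun J F A => ∃ i₁ : Fin m, Ch F i₁ ⌊h₁ * J⌋₊ A))
    {B₀ : ℝ} (hB₀ : 0 < B₀) {x : ℝ} (hx : 0 < x) (nf : ℕ → ℕ) :
    ∃ N K₁ : ℕ, ∀ δ > 0, ∃ η > 0, ∃ n J₁ : ℕ, ∀ J ≥ J₁, ∀ G : Fam m J, G.Tm (η * J) →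
      (∀ z, 0 < law G.p G.Z z → H (cond G.p G.Z z) G.l ≤ B₀ * J) →
      (∀ i ≤ n, ∀ B : G.Ω → Prop, Real.exp (-(3 * ψ i * J)) ≤ Pe G.p B →
        ¬ PlU (m - 2) (1 / 2 ^ ⌊1 / ((i : ℝ) + 1) * J⌋₊) (Fam.pt G) G.d B) →
      (∀ i ≤ n, ∀ B : G.Ω → Prop, Real.exp (-(3 * ψ i * J)) ≤ Pe G.p B →
        ∀ P : ℕ, P ≤ J → J ≤ 2 * P →
        CH (Pool.Agent.H49.Ent.cond G.p B True) (G.X J) (fun ω => (G.X P ω, G.W ω)) ≤
          (m * Real.log 2 - r) * ((J : ℝ) - P) + 1 / ((i : ℝ) + 1) * J) →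
      ∃ B : G.Ω → Prop, Real.exp (-(δ * J)) ≤ Pe G.p B ∧ ∃ K ≤ K₁, nf K ≤ N ∧
        ∃ (i₁ : Fin m) (i p ρ : ℕ), (i : ℝ) ≤ x * N ∧ i ≤ ρ ∧ (1 - x) * N ≤ p ∧ p < ρ ∧
          ρ ≤ N ∧ Ch G i₁ ⌊h₁ * J⌋₊ B ∧ Bl G i₁ N K ρ i p B := by
  classical
  obtain ⟨S, hS⟩ : ∃ S : FCl m, S = zs m (m - 2) (fun _ _ => True) r ψ := ⟨_, rfl⟩
  have hsps : SPS S (m - 2) := by rw [hS]; exact sps_zs hψ
  have htls : TLS S := by rw [hS]; exact tls_zs hr hψ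
  have hcht' : Clg S (fun J F A => ∃ i₁ : Fin m, Ch F i₁ ⌊h₁ * J⌋₊ A) := by rw [hS]; exact hcht
  obtain ⟨N, K₁, hleaf⟩ := leafc_thm hh₁ hcht' (row_cls htls) (hSTP S hsps) (hSLP S hsps) x hx nf
  refine ⟨N, K₁, fun δ hδ => ?_⟩
  rw [hS] at hleaf
  obtain ⟨η, hη, n, J₁, hcore⟩ := zoom_sec hψ hleaf hB₀ (half_pos hδ)
  obtain ⟨M, hM⟩ : ∃ M : ℕ, M = Fintype.card (Fin (K₁ + 1) × Fin m × Fin (N + 1) × Fin (N + 1) ×
    Fin (N + 1)) := ⟨_, rfl⟩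
  obtain ⟨J₃, hJ₃⟩ := exists_nat_gt (2 * |Real.log (M + 1)| / δ)
  refine ⟨η, hη, n, max J₁ J₃, fun J hJ G hTm hl hspr htail => ?_⟩
  have hJ1 : J₁ ≤ J := (le_max_left _ _).trans hJ
  have hJ3 : J₃ ≤ J := (le_max_right _ _).trans hJ
  have hp := G.isLaw
  obtain ⟨κ, c, B, hSel, hPB, hsec⟩ := hcore J hJ1 G hTm hl hspr htail
  have hB0 : 0 < Pe G.p B := lt_of_lt_of_le (Real.exp_pos _) hPB
  obtain ⟨a, B', hB', hP, hsec'⟩ := sec_pigeon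
    (ι := Fin (K₁ + 1) × Fin m × Fin (N + 1) × Fin (N + 1) × Fin (N + 1)) hp c B hB0
    (fun a v E => ∀ hl : IsLaw (cond G.p c v), nf (a.1 : ℕ) ≤ N ∧
      (((a.2.2.1 : ℕ) : ℝ) ≤ x * N ∧ (a.2.2.1 : ℕ) ≤ (a.2.2.2.2 : ℕ) ∧
        (1 - x) * N ≤ ((a.2.2.2.1 : ℕ) : ℝ) ∧ (a.2.2.2.1 : ℕ) < (a.2.2.2.2 : ℕ)) ∧
      (Ch (G.res c v hl) a.2.1 ⌊h₁ * J⌋₊ E ∧
      Bl (G.res c v hl) a.2.1 N (a.1 : ℕ) (a.2.2.2.2 : ℕ) (a.2.2.1 : ℕ) (a.2.2.2.1 : ℕ) E))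
    (by
      intro ω hω hBω
      obtain ⟨K, hK, hn, i₁, i, p, ρ, h1, h2, h3, h4, h5, h6⟩ :=
        hsec ω hω hBω (isLaw_sec hp c hω)
      exact ⟨(⟨K, by omega⟩, i₁, ⟨i, by omega⟩, ⟨p, by omega⟩, ⟨ρ, by omega⟩),
        fun hl => ⟨hn, ⟨h1, h2, h3, h4⟩, h6⟩⟩)
  rw [← hM] at hP
  have hPB' : Real.exp (-(δ * J)) ≤ Pe G.p B' := by
    have h1 : 2 * |Real.log (M + 1)| / δ < J := hJ₃.trans_le (by exact_mod_cast hJ3)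
    rw [div_lt_iff₀ hδ] at h1
    have h2 : Real.log (M + 1) ≤ δ / 2 * J := by
      have := le_abs_self (Real.log ((M : ℝ) + 1))
      linarith only [h1, this]
    rw [Real.log_le_iff_le_exp (by positivity)] at h2
    have h3 : Real.exp (-(δ / 2 * J)) ≤ Real.exp (δ / 2 * J) * Pe G.p B' :=
      hPB.trans (hP.trans (mul_le_mul_of_nonneg_right (by linarith only [h2]) (Pe_nonneg hp B')))
    have h4 : Real.exp (-(δ * J)) = Real.exp (-(δ / 2 * J)) * Real.exp (-(δ / 2 * J)) := by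
      rw [← Real.exp_add]
      congr 1
      ring
    rw [h4]
    calc _ ≤ Real.exp (-(δ / 2 * J)) * (Real.exp (δ / 2 * J) * Pe G.p B') :=
          mul_le_mul_of_nonneg_left h3 (Real.exp_pos _).le
      _ = Pe G.p B' := by
          rw [← mul_assoc, ← Real.exp_add]
          have : -(δ / 2 * (J : ℝ)) + δ / 2 * J = 0 := by ring
          rw [this, Real.exp_zero, one_mul]
  obtain ⟨ω₀, g1, g2⟩ : ∃ ω, 0 < G.p ω ∧ B' ω := by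
    by_contra hcon
    push Not at hcon
    have : Pe G.p B' ≤ 0 := by
      rw [Pe_eq]
      refine Finset.sum_nonpos fun ω _ => ?_
      split_ifs with hω
      · by_contra h3
        push Not at h3
        exact hcon ω h3 hω
      · exact le_rfl
    have := lt_of_lt_of_le (Real.exp_pos _) hPB'
    linarith
  obtain ⟨k1, ⟨k2, k3, k4, k5⟩, -⟩ := hsec' ω₀ g1 g2 (isLaw_sec hp c g1)
  refine ⟨fun ω => B' ω ∧ G.p ω ≠ 0, ?_, a.1, by have := a.1.2; omega, k1, a.2.1, a.2.2.1,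
    a.2.2.2.1, a.2.2.2.2, k2, k3, k4, k5, by have := a.2.2.2.2.2; omega, ?_, ?_⟩
  · rw [Pe_supp]
    exact hPB'
  · exact chart_glue (hSel.sub hB') fun ω hω hBω hl => (hsec' ω hω hBω hl).2.2.1
  · exact lab_glue (hSel.sub hB') fun ω hω hBω hl => (hsec' ω hω hBω hl).2.2.2

end Pool.ZCL
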