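import Pool.Agent.H35.ZCL.Cov

/-!
# No chart in the direction of the fans

If a covector kills the fans (which are long in the chart coordinate `i₀`) to a high precision, then
a chart of the zoom in the index `i₀` puts the fans of an event into lines.
-/

set_option autoImplicit false

namespace Pool.ZCL

open Finset Real
open Pool.Agent.H49.Ent Pool.Agent.H32.Dense Pool.STK Pool.KA Pool.KSAT Pool.K2S Pool.PB
open Pool.S6K (exact_label steep_ball ball_claim)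

/-- The two other indices. -/
theorem fin3_split (i₀ u : Fin 3) (hu : u ≠ i₀) : ∃ N : Fin 3, N ≠ i₀ ∧ N ≠ u ∧
    (∀ j, j = i₀ ∨ j = u ∨ j = N) ∧ ∀ f : Fin 3 → ℝ, ∑ i, f i = f i₀ + f u + f N := by
  have key : ∀ i₀ u : Fin 3, u ≠ i₀ → ∃ N : Fin 3, N ≠ i₀ ∧ N ≠ u ∧
      (∀ j, j = i₀ ∨ j = u ∨ j = N) := by decide
  obtain ⟨N, h1, h2, h3⟩ := key i₀ u hu
  refine ⟨N, h1, h2, h3, fun f => ?_⟩
  have h4 : (univ : Finset (Fin 3)) = {i₀, u, N} := by
    ext j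
    simp only [mem_univ, mem_insert, mem_singleton, true_iff]
    exact h3 j
  rw [h4, Finset.sum_insert (by
    simp only [mem_insert, mem_singleton, not_or]
    exact ⟨fun h => hu h.symm, fun h => h1 h.symm⟩), Finset.sum_insert (by
    simp only [mem_singleton]
    exact fun h => h2 h.symm), Finset.sum_singleton]
  ring

/-- The algebra at one point: `X = (t, p, q)` differences, covector `(μ, a, b)`, chart
`t = s p + s' q`. -/
theorem line_alg {μ a b s s' ε ε' : ℝ} (ha : 1 / 12 ≤ |a + μ * s|)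
    (hμ : |μ| ≤ 1 / 64) (hs : |s| ≤ 1) {t p q : ℝ} (h1 : |t - s * p - s' * q| ≤ ε) (h2 : |μ * t + a * p + b * q| ≤ ε') :
    |p - (-(b + μ * s') / (a + μ * s)) * q| ≤ 12 * (ε' + ε / 64) ∧
    |t - (s * (-(b + μ * s') / (a + μ * s)) + s') * q| ≤ ε + 12 * (ε' + ε / 64) := by
  obtain ⟨c, hc⟩ : ∃ c, c = a + μ * s := ⟨_, rfl⟩
  obtain ⟨e, he⟩ : ∃ e, e = b + μ * s' := ⟨_, rfl⟩
  rw [← hc] at ha ⊢
  rw [← he]
  have hc0 : c ≠ 0 := by
    intro h0
    rw [h0, abs_zero] at ha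
    norm_num at ha
  have hcp : 0 < |c| := abs_pos.2 hc0
  have h3 : |c * p + e * q| ≤ ε' + ε / 64 := by
    have e1 : c * p + e * q = (μ * t + a * p + b * q) - μ * (t - s * p - s' * q) := by
      rw [hc, he]
      ring
    rw [e1]
    have h4 : |μ * (t - s * p - s' * q)| ≤ ε / 64 := by
      rw [abs_mul]
      have := mul_le_mul hμ h1 (abs_nonneg _) (by norm_num)
      linarith only [this]
    exact (abs_sub _ _).trans (add_le_add h2 h4)
  have h5 : |p - (-e / c) * q| ≤ 12 * (ε' + ε / 64) := by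
    have e1 : p - (-e / c) * q = (c * p + e * q) / c := by
      field_simp
      ring
    rw [e1, abs_div, div_le_iff₀ hcp]
    have h6 : 0 ≤ ε' + ε / 64 := (abs_nonneg _).trans h3
    nlinarith only [h3, ha, h6]
  refine ⟨h5, ?_⟩
  have e1 : t - (s * (-e / c) + s') * q = (t - s * p - s' * q) + s * (p - (-e / c) * q) := by
    ring
  rw [e1]
  have h7 : |s * (p - (-e / c) * q)| ≤ 12 * (ε' + ε / 64) := by
    rw [abs_mul]
    have := mul_le_mul hs h5 (abs_nonneg _) (by norm_num)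
    linarith only [this]
  exact (abs_add_le _ _).trans (add_le_add h1 h7)

variable {J : ℕ}

/-- **The covector and the chart `i₀` give lines.** -/
theorem noch_geo (F : Fam 3 J) {i₀ : Fin 3} {r w lam l J' x k q : ℕ} {A B : F.Ω → Prop}
    {z : F.Ω → Fin 3 → ℝ} (h : w + J' ≤ J) (hrJ : r ≤ J) (hz : AzF F i₀ r l w A z)
    (hE : Elg F i₀ x A) (hC : Cov (1 / 2 ^ (lam + k)) (ptr F r) F.d A)
    (hxk : x + 7 ≤ k) (hxl : x + lam + 11 ≤ l) (hq : q ≤ J') (hB : Sub B A)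
    (hv : ∃ φ : (Fin 3 → ℤ) × (ℕ × F.ζ) → Fin 3 → ℤ, ∀ ω, B ω →
      F.bvl (Box.plkC lam i₀) z ω = φ (ptr F r ω))
    (hφ : ∃ φ : (Fin 3 → ℤ) × (ℕ × F.ζ) → (Fin 3 → ℤ) ×
        (ℕ × (F.zm w J' h (Box.plkC lam i₀) z).ζ),
        ∀ ω, B ω → Fam.pt (F.zm w J' h (Box.plkC lam i₀) z) ω = φ (ptr F r ω))
    (hCh : Ch (F.zm w J' h (Box.plkC lam i₀) z) i₀ q B) :
    PlU 1 (12 / 2 ^ q + 12 / 2 ^ k) (ptr F r) (fun ω => pco lam i₀ (z ω) (F.d ω)) B := by
  classical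
  obtain ⟨ν, hν1, hν2⟩ := hC
  obtain ⟨γ, hγ⟩ := hz.vis
  obtain ⟨nn, hnn⟩ := hz.str
  obtain ⟨φv, hφv⟩ := hv
  obtain ⟨φ, hφ⟩ := hφ
  obtain ⟨n, s, hns⟩ := hCh
  obtain ⟨ψ, hψ⟩ := ptr_coarse F hrJ
  have p0 : (0 : ℝ) < 2 ^ lam := by positivity
  have pq : (0 : ℝ) < 1 / 2 ^ q := by positivity
  have pk : (0 : ℝ) < 1 / 2 ^ k := by positivity
  have hex : ∀ y : (Fin 3 → ℤ) × (ℕ × F.ζ), ∃ S : (Fin 3 → ℝ) × (Fin 1 → Fin 3 → ℝ),
      ∀ ω, B ω → ptr F r ω = y → ∃ c : Fin 1 → ℝ, ∀ i, |pco lam i₀ (z ω) (F.d ω) i - S.1 i -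
        ∑ l, c l * S.2 l i| ≤ 12 / 2 ^ q + 12 / 2 ^ k := by
    intro y
    by_cases hy : ∃ ω, B ω ∧ ptr F r ω = y
    · obtain ⟨ω₀, h0, h00⟩ := hy
      have hA0 := hB ω₀ h0
      obtain ⟨Z, hZ⟩ : ∃ Z, Z = z ω₀ := ⟨_, rfl⟩
      have hzZ : ∀ ω, A ω → ptr F r ω = y → z ω = Z := fun ω hω e => by
        rw [hZ, hγ ω hω, hγ ω₀ hA0, e, h00]
      have hZ0 : Z i₀ = 0 := by rw [hZ]; exact hz.zer ω₀
      have hZb : ∀ j, |Z j| ≤ 4 := fun j => by rw [hZ]; exact hz.bd ω₀ hA0 j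
      -- the transversal differences
      have htr : ∀ ω ω', A ω → A ω' → ptr F r ω = y → ptr F r ω' = y → ∀ j, j ≠ i₀ →
          |(F.d ω j - F.d ω' j) - Z j * (F.d ω i₀ - F.d ω' i₀)| ≤ 6 / 2 ^ l := by
        intro ω ω' hω hω' e e' j hj
        have a1 := hnn ω hω j hj
        have a2 := hnn ω' hω' j hj
        rw [hzZ ω hω e, e] at a1
        rw [hzZ ω' hω' e', e'] at a2
        have e6 : (6 : ℝ) / 2 ^ l = 3 / 2 ^ l + 3 / 2 ^ l := by ring
        rw [e6]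
        rw [abs_le] at a1 a2 ⊢
        constructor <;> linarith only [a1, a2, a1.1, a1.2, a2.1, a2.2]
      obtain ⟨V, hV⟩ : ∃ V, V = ν y := ⟨_, rfl⟩
      have hV1 : ∀ i, |V i| ≤ 1 := fun i => by rw [hV]; exact (hν1 y).1 i
      have hVc : ∀ ω ω', A ω → A ω' → ptr F r ω = y → ptr F r ω' = y →
          |∑ i, V i * (F.d ω i - F.d ω' i)| ≤ 1 / 2 ^ (lam + k) := by
        intro ω ω' hω hω' e e'
        have := hν2 ω ω' hω hω' (e.trans e'.symm)
        rw [e, ← hV] at this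
        exact this
      -- an index with a large transversal component
      obtain ⟨u₀, N₀, hu₀, hN₀, hsum₀⟩ : ∃ u₀ N₀ : Fin 3, u₀ ≠ i₀ ∧ N₀ ≠ i₀ ∧
          ∀ f : Fin 3 → ℝ, ∑ i, f i = f i₀ + f u₀ + f N₀ := by
        have : ∃ u : Fin 3, u ≠ i₀ := by
          have key : ∀ i₀ : Fin 3, ∃ u : Fin 3, u ≠ i₀ := by decide
          exact key i₀
        obtain ⟨u, hu⟩ := this
        obtain ⟨N, k1, k2, -, k4⟩ := fin3_split i₀ u hu
        exact ⟨u, N, hu, k1, k4⟩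
      obtain ⟨μ, hμ⟩ : ∃ μ, μ = V i₀ + V u₀ * Z u₀ + V N₀ * Z N₀ := ⟨_, rfl⟩
      have hμs : ∀ ω ω', (∑ i, V i * (F.d ω i - F.d ω' i)) = μ * (F.d ω i₀ - F.d ω' i₀) +
          V u₀ * ((F.d ω u₀ - F.d ω' u₀) - Z u₀ * (F.d ω i₀ - F.d ω' i₀)) +
          V N₀ * ((F.d ω N₀ - F.d ω' N₀) - Z N₀ * (F.d ω i₀ - F.d ω' i₀)) := by
        intro ω ω'
        rw [hsum₀, hμ]
        ring
      have hμ64 : |2 ^ lam * μ| ≤ 1 / 64 := by
        obtain ⟨ω', ω'', g1, g2, g3, g4, g5⟩ := hE ω₀ hA0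
        have y1 : ptr F r ω' = y := by
          rw [← h00, hψ ω', hψ ω₀]
          exact congrArg ψ g3
        have y2 : ptr F r ω'' = y := by
          rw [← h00, hψ ω'', hψ ω₀]
          exact congrArg ψ g4
        have b1 := hVc ω' ω'' g1 g2 y1 y2
        have b2 := htr ω' ω'' g1 g2 y1 y2 u₀ hu₀
        have b3 := htr ω' ω'' g1 g2 y1 y2 N₀ hN₀
        rw [hμs] at b1
        have b4 : |V u₀ * ((F.d ω' u₀ - F.d ω'' u₀) - Z u₀ * (F.d ω' i₀ - F.d ω'' i₀))| ≤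
            6 / 2 ^ l := by
          rw [abs_mul]
          calc _ ≤ 1 * (6 / 2 ^ l : ℝ) := mul_le_mul (hV1 _) b2 (abs_nonneg _) zero_le_one
            _ = _ := one_mul _
        have b5 : |V N₀ * ((F.d ω' N₀ - F.d ω'' N₀) - Z N₀ * (F.d ω' i₀ - F.d ω'' i₀))| ≤
            6 / 2 ^ l := by
          rw [abs_mul]
          calc _ ≤ 1 * (6 / 2 ^ l : ℝ) := mul_le_mul (hV1 _) b3 (abs_nonneg _) zero_le_one
            _ = _ := one_mul _
        have b6 : |μ * (F.d ω' i₀ - F.d ω'' i₀)| ≤ 1 / 2 ^ (lam + k) + 12 / 2 ^ l := by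
          have e12 : (12 : ℝ) / 2 ^ l = 6 / 2 ^ l + 6 / 2 ^ l := by ring
          rw [e12]
          rw [abs_le] at b1 b4 b5 ⊢
          constructor <;> linarith only [b1, b4, b5, b1.1, b1.2, b4.1, b4.2, b5.1, b5.2]
        rw [abs_mul] at b6
        have b7 : |μ| * (1 / 2 ^ x) ≤ 1 / 2 ^ (lam + k) + 12 / 2 ^ l :=
          (mul_le_mul_of_nonneg_left g5.le (abs_nonneg _)).trans b6
        have c1 : (1 : ℝ) / 2 ^ (lam + k) ≤ 1 / 2 ^ (lam + (x + 7)) := inv_mono (by omega)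
        have c2 : (12 : ℝ) / 2 ^ l ≤ 12 / 2 ^ (x + lam + 11) :=
          div_le_div_of_nonneg_left (by norm_num) (by positivity)
            (pow_le_pow_right₀ (by norm_num) hxl)
        have c3 : (1 : ℝ) / 2 ^ (lam + (x + 7)) = 1 / 128 * (1 / 2 ^ lam) * (1 / 2 ^ x) := by
          rw [pow_add, pow_add]
          norm_num
          ring
        have c4 : (12 : ℝ) / 2 ^ (x + lam + 11) = 12 / 2048 * (1 / 2 ^ lam) * (1 / 2 ^ x) := by
          rw [pow_add, pow_add]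
          norm_num
          ring
        have c5 : |μ| * (1 / 2 ^ x) ≤ (1 / 64 * (1 / 2 ^ lam)) * (1 / 2 ^ x) := by
          rw [c3] at c1
          rw [c4] at c2
          have c6 : (0 : ℝ) ≤ 1 / 2 ^ lam * (1 / 2 ^ x) := by positivity
          nlinarith only [b7, c1, c2, c6]
        have c7 : |μ| ≤ 1 / 64 * (1 / 2 ^ lam) :=
          le_of_mul_le_mul_right c5 (by positivity)
        rw [abs_mul, abs_of_pos p0]
        calc (2 : ℝ) ^ lam * |μ| ≤ 2 ^ lam * (1 / 64 * (1 / 2 ^ lam)) :=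
              mul_le_mul_of_nonneg_left c7 p0.le
          _ = 1 / 64 := by field_simp
      obtain ⟨u, hu, hVu⟩ : ∃ u, u ≠ i₀ ∧ 1 / 9 ≤ |V u| := by
        by_contra hcon
        push Not at hcon
        have k1 := hcon u₀ hu₀
        have k2 := hcon N₀ hN₀
        obtain ⟨i, hi⟩ := (hν1 y).2
        rw [← hV] at hi
        by_cases hii : i = i₀
        · rw [hii] at hi
          have k3 : |μ| ≤ 1 / 64 := by
            have p1 : (1 : ℝ) ≤ 2 ^ lam := one_le_pow₀ (by norm_num)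
            rw [abs_mul, abs_of_pos p0] at hμ64
            have := mul_le_mul_of_nonneg_right p1 (abs_nonneg μ)
            linarith only [hμ64, this]
          have k4 : |V u₀ * Z u₀| ≤ 4 / 9 := by
            rw [abs_mul]
            have := mul_le_mul k1.le (hZb u₀) (abs_nonneg _) (by norm_num)
            linarith only [this]
          have k5 : |V N₀ * Z N₀| ≤ 4 / 9 := by
            rw [abs_mul]
            have := mul_le_mul k2.le (hZb N₀) (abs_nonneg _) (by norm_num)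
            linarith only [this]
          have k6 : |V i₀| ≤ |μ| + |V u₀ * Z u₀| + |V N₀ * Z N₀| := by
            have : V i₀ = μ - V u₀ * Z u₀ - V N₀ * Z N₀ := by rw [hμ]; ring
            rw [this]
            exact (abs_sub _ _).trans (add_le_add_left (abs_sub _ _) _)
          linarith only [hi, k3, k4, k5, k6]
        · have := hcon i hii
          rw [hi] at this
          norm_num at this
      obtain ⟨N, hN, hNu, hall, hsum⟩ := fin3_split i₀ u hu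
      obtain ⟨M, hM⟩ : ∃ M, M = 2 ^ lam * μ := ⟨_, rfl⟩
      obtain ⟨S, hS⟩ : ∃ S, S = s (φ y) := ⟨_, rfl⟩
      rw [← hM] at hμ64
      -- the chart
      have hchart : ∀ ω, B ω → ptr F r ω = y →
          |(pco lam i₀ Z (F.d ω) i₀ - pco lam i₀ Z (F.d ω₀) i₀) -
            S u * (pco lam i₀ Z (F.d ω) u - pco lam i₀ Z (F.d ω₀) u) -
            S N * (pco lam i₀ Z (F.d ω) N - pco lam i₀ Z (F.d ω₀) N)| ≤ 8 / 2 ^ q := by
        intro ω hω e
        have a1 := hns ω hω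
        have a2 := hns ω₀ h0
        rw [hφ ω hω, e, ← hS] at a1
        rw [hφ ω₀ h0, h00, ← hS] at a2
        obtain ⟨a3, a4, a5⟩ := a1
        obtain ⟨-, -, a6⟩ := a2
        rw [hsum, a3] at a5 a6
        have d1 : ∀ i, |((F.zm w J' h (Box.plkC lam i₀) z).d ω i -
            (F.zm w J' h (Box.plkC lam i₀) z).d ω₀ i) -
            (pco lam i₀ Z (F.d ω) i - pco lam i₀ Z (F.d ω₀) i)| ≤ 2 / 2 ^ q := by
          intro i
          have b1 := zm_d F h (Box.plkC lam i₀) z ω i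
          have b2 := zm_d F h (Box.plkC lam i₀) z ω₀ i
          have b3 : F.bvl (Box.plkC lam i₀) z ω i = F.bvl (Box.plkC lam i₀) z ω₀ i := by
            rw [hφv ω hω, hφv ω₀ h0, e, h00]
          have b4 : (Box.plkC lam i₀).L (z ω) (F.d ω) i = pco lam i₀ Z (F.d ω) i := by
            rw [hzZ ω (hB ω hω) e]
            rfl
          have b5 : (Box.plkC lam i₀).L (z ω₀) (F.d ω₀) i = pco lam i₀ Z (F.d ω₀) i := by
            rw [hzZ ω₀ hA0 h00]
            rfl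
          rw [b4, b3] at b1
          rw [b5] at b2
          have b6 : (1 : ℝ) / 2 ^ J' ≤ 1 / 2 ^ q := inv_mono hq
          have e2 : (2 : ℝ) / 2 ^ q = 1 / 2 ^ q + 1 / 2 ^ q := by ring
          rw [e2]
          rw [abs_le] at b1 b2 ⊢
          constructor <;> linarith only [h, b1, b2, b6, b1.1, b1.2, b2.1, b2.2]
        obtain ⟨D, hD⟩ : ∃ D : Fin 3 → ℝ, D = fun i =>
          (F.zm w J' h (Box.plkC lam i₀) z).d ω i - (F.zm w J' h (Box.plkC lam i₀) z).d ω₀ i :=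
          ⟨_, rfl⟩
        have d2 : ∀ i, |D i - (pco lam i₀ Z (F.d ω) i - pco lam i₀ Z (F.d ω₀) i)| ≤ 2 / 2 ^ q :=
          fun i => by rw [hD]; exact d1 i
        have d3 : |D i₀ - S u * D u - S N * D N| ≤ 2 / 2 ^ q := by
          rw [hD]
          have e2 : (2 : ℝ) / 2 ^ q = 1 / 2 ^ q + 1 / 2 ^ q := by ring
          rw [e2]
          simp only
          rw [abs_le] at a5 a6 ⊢
          constructor <;> linarith only [h, a5, a6, a5.1, a5.2, a6.1, a6.2]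
        have f1 := d2 i₀
        have f2 : |S u * (D u - (pco lam i₀ Z (F.d ω) u - pco lam i₀ Z (F.d ω₀) u))| ≤
            2 / 2 ^ q := by
          rw [abs_mul]
          calc _ ≤ 1 * (2 / 2 ^ q : ℝ) := mul_le_mul (a4 u) (d2 u) (abs_nonneg _) zero_le_one
            _ = _ := one_mul _
        have f3 : |S N * (D N - (pco lam i₀ Z (F.d ω) N - pco lam i₀ Z (F.d ω₀) N))| ≤
            2 / 2 ^ q := by
          rw [abs_mul]
          calc _ ≤ 1 * (2 / 2 ^ q : ℝ) := mul_le_mul (a4 N) (d2 N) (abs_nonneg _) zero_le_one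
            _ = _ := one_mul _
        have e8 : (8 : ℝ) / 2 ^ q = 2 / 2 ^ q + 2 / 2 ^ q + 2 / 2 ^ q + 2 / 2 ^ q := by ring
        rw [e8]
        rw [abs_le] at d3 f1 f2 f3 ⊢
        constructor <;> nlinarith only [d3, f1, f2, f3, d3.1, d3.2, f1.1, f1.2, f2.1, f2.2, f3.1, f3.2]
      have hSb : ∀ i, |S i| ≤ 1 := fun i => by
        have := (hns ω₀ h0).2.1 i
        rw [hφ ω₀ h0, h00, ← hS] at this
        exact this
      -- the covector
      have hcov : ∀ ω, B ω → ptr F r ω = y →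
          |M * (pco lam i₀ Z (F.d ω) i₀ - pco lam i₀ Z (F.d ω₀) i₀) +
            V u * (pco lam i₀ Z (F.d ω) u - pco lam i₀ Z (F.d ω₀) u) +
            V N * (pco lam i₀ Z (F.d ω) N - pco lam i₀ Z (F.d ω₀) N)| ≤ 1 / 2 ^ k := by
        intro ω hω e
        have a1 := hVc ω ω₀ (hB ω hω) hA0 e h00
        have e1 : M * (pco lam i₀ Z (F.d ω) i₀ - pco lam i₀ Z (F.d ω₀) i₀) +
            V u * (pco lam i₀ Z (F.d ω) u - pco lam i₀ Z (F.d ω₀) u) +
            V N * (pco lam i₀ Z (F.d ω) N - pco lam i₀ Z (F.d ω₀) N) =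
            2 ^ lam * ∑ i, V i * (F.d ω i - F.d ω₀ i) := by
          have m1 : μ = V i₀ + V u * Z u + V N * Z N := by
            have k1 : V i₀ * Z i₀ = 0 := by rw [hZ0, mul_zero]
            have k2 := hsum (fun i => V i * Z i)
            have k3 := hsum₀ (fun i => V i * Z i)
            rw [hμ]
            linarith only [k2, k3]
          rw [hsum, hM, m1]
          unfold pco
          rw [if_pos rfl, if_pos rfl, if_neg hu, if_neg hu, if_neg hN, if_neg hN]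
          ring
        rw [e1, abs_mul, abs_of_pos p0]
        rw [pow_add] at a1
        calc (2 : ℝ) ^ lam * |∑ i, V i * (F.d ω i - F.d ω₀ i)| ≤
              2 ^ lam * (1 / (2 ^ lam * 2 ^ k)) := mul_le_mul_of_nonneg_left a1 p0.le
          _ = 1 / 2 ^ k := by field_simp
      have hbig : 1 / 12 ≤ |V u + M * S u| := by
        have k1 : |M * S u| ≤ 1 / 64 := by
          rw [abs_mul]
          have := mul_le_mul hμ64 (hSb u) (abs_nonneg _) (by norm_num)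
          linarith only [this]
        have k2 : |V u| ≤ |V u + M * S u| + |M * S u| := by
          have : V u = (V u + M * S u) - M * S u := by ring
          calc |V u| = |(V u + M * S u) - M * S u| := by rw [← this]
            _ ≤ _ := abs_sub _ _
        linarith only [hVu, k1, k2]
      obtain ⟨ρN, hρN⟩ : ∃ ρN, ρN = -(V N + M * S N) / (V u + M * S u) := ⟨_, rfl⟩
      refine ⟨(fun i => pco lam i₀ Z (F.d ω₀) i, fun _ i => if i = i₀ then S u * ρN + S N else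
        if i = u then ρN else 1), fun ω hω e => ⟨fun _ => pco lam i₀ Z (F.d ω) N -
          pco lam i₀ Z (F.d ω₀) N, fun i => ?_⟩⟩
      obtain ⟨r1, r2⟩ := line_alg hbig hμ64 (hSb u) (hchart ω hω e) (hcov ω hω e)
      rw [← hρN] at r1 r2
      rw [Fin.sum_univ_one, hzZ ω (hB ω hω) e]
      simp only
      have t1 : 12 * (1 / 2 ^ k + 8 / 2 ^ q / 64) ≤ (12 : ℝ) / 2 ^ q + 12 / 2 ^ k := by
        have e1 : 12 * (1 / 2 ^ k + 8 / 2 ^ q / 64) = (12 : ℝ) / 2 ^ k + 3 / 2 * (1 / 2 ^ q) := by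
          ring
        have e2 : (12 : ℝ) / 2 ^ q = 12 * (1 / 2 ^ q) := by ring
        rw [e1, e2]
        linarith only [pq]
      have t2 : 8 / 2 ^ q + 12 * (1 / 2 ^ k + 8 / 2 ^ q / 64) ≤ (12 : ℝ) / 2 ^ q + 12 / 2 ^ k := by
        have e1 : 8 / 2 ^ q + 12 * (1 / 2 ^ k + 8 / 2 ^ q / 64) =
            (12 : ℝ) / 2 ^ k + 19 / 2 * (1 / 2 ^ q) := by
          ring
        have e2 : (12 : ℝ) / 2 ^ q = 12 * (1 / 2 ^ q) := by ring
        rw [e1, e2]
        linarith only [pq]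
      rcases hall i with hi | hi | hi
      · rw [hi, if_pos rfl]
        refine le_trans (le_of_eq ?_) (r2.trans t2)
        congr 1
        ring
      · rw [hi, if_neg hu, if_pos rfl]
        refine le_trans (le_of_eq ?_) (r1.trans t1)
        congr 1
        ring
      · rw [hi, if_neg hN, if_neg hNu]
        have : pco lam i₀ Z (F.d ω) N - pco lam i₀ Z (F.d ω₀) N -
            (pco lam i₀ Z (F.d ω) N - pco lam i₀ Z (F.d ω₀) N) * 1 = 0 := by ring
        rw [this, abs_zero]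
        positivity
    · exact ⟨(fun _ => 0, fun _ _ => 0), fun ω hω e => absurd ⟨ω, hω, e⟩ hy⟩
  choose S hS using hex
  exact ⟨S, fun ω hω => hS _ ω hω rfl⟩

/-- **No chart in the direction of the fans**, except on events on which the fans are straight to a
higher precision. -/
theorem az_noch {a R h₁ : ℝ} (ha : 1 ≤ a) (hR : 0 < R) (hU : UBa 3 a R) (hh₁ : 0 < h₁)
    (i₀ : Fin 3) {g : ℝ} (hg : 0 < g) {κ : ℝ} (hκ : 0 < κ) : ∃ τ > 0, ∃ J₁ : ℕ, ∀ J ≥ J₁,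
    ∀ (F : Fam 3 J) (A : F.Ω → Prop), Fam.Stt F a R τ A → Lb F i₀ ⌊h₁ * J⌋₊ A →
    ∀ (r w lam l J' : ℕ) (z : F.Ω → Fin 3 → ℝ) (h : w + J' ≤ J), w + J' + lam ≤ r → r ≤ J →
    lam ≤ l → AzF F i₀ r l w A z → ∀ x k : ℕ, Elg F i₀ x A →
    Cov (1 / 2 ^ (lam + k)) (ptr F r) F.d A → x + 7 ≤ k → x + lam + 11 ≤ l →
    ∀ (hA : IsLaw (cond F.p A True)) (B : F.Ω → Prop),
    ∀ θ ≤ τ, Real.exp (-(θ * J)) ≤ Pe (cond F.p A True) B → ∀ q n : ℕ, q ≤ J' →
    2 * n + 5 ≤ q → 2 * n + 5 ≤ k → g * J ≤ n →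
    Ch ((F.res A True hA).zm w J' h (Box.plkC lam i₀) z) i₀ q B →
    ∃ B' : F.Ω → Prop, Sub B' A ∧ Real.exp (-((θ + κ) * J)) * Pe F.p A ≤ Pe F.p B' ∧
      LineU i₀ (4 / 2 ^ (lam + n)) (ptr F r) F.d B' := by
  classical
  obtain ⟨x₀, hx⟩ : ∃ x, x = min (g / 4) (h₁ / 4) := ⟨_, rfl⟩
  have hx0 : 0 < x₀ := by rw [hx]; exact lt_min (by positivity) (by positivity)
  have hx1 : x₀ ≤ g / 4 := by rw [hx]; exact min_le_left _ _
  have hx2 : x₀ ≤ h₁ / 4 := by rw [hx]; exact min_le_right _ _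
  obtain ⟨τb, hτb, Jb, hball⟩ := ball_claim (m := 3) ha hR hU hx0
  obtain ⟨C, hC⟩ : ∃ C : ℝ, C = ((2 * ((5 + 6 + 7 : ℕ) : ℝ) + 1) ^ 3) ^ 3 * 2 := ⟨_, rfl⟩
  have hC1 : 1 ≤ C := by
    rw [hC]
    norm_num
  obtain ⟨κ', hκ'⟩ : ∃ κ', κ' = min κ (τb / 3) := ⟨_, rfl⟩
  have hκ0 : 0 < κ' := by rw [hκ']; exact lt_min hκ (by positivity)
  have hκ1 : κ' ≤ κ := by rw [hκ']; exact min_le_left _ _
  have hκ2 : κ' ≤ τb / 3 := by rw [hκ']; exact min_le_right _ _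
  obtain ⟨Je, hJe⟩ := Pool.S6K.exp_small hκ0 hC1
  obtain ⟨Jx, hJx⟩ := exists_nat_gt (8 / x₀ + 8 / h₁ + 8 / g)
  refine ⟨τb / 3, by positivity, max (max Jb Je) Jx, ?_⟩
  intro J hJ F A hS hL r w lam l J' z h hr hrJ hll hz x k hE hCv hxk hxl hA B θ hθ hB q n hqJ
    hnq hnk hgn hCh
  have hJb : Jb ≤ J := (le_max_left _ _).trans ((le_max_left _ _).trans hJ)
  have hJe' : Je ≤ J := (le_max_right _ _).trans ((le_max_left _ _).trans hJ)
  have hJx' : 8 / x₀ + 8 / h₁ + 8 / g < J :=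
    hJx.trans_le (by exact_mod_cast (le_max_right _ _).trans hJ)
  have q1 : 0 < 8 / x₀ := by positivity
  have q2 : 0 < 8 / h₁ := by positivity
  have q3 : 0 < 8 / g := by positivity
  have hJr : (0 : ℝ) < J := by linarith only [hJx', q1, q2, q3]
  have hxJ : 8 ≤ x₀ * J := by
    have : 8 / x₀ ≤ J := by linarith only [hJx', q2, q3]
    rw [div_le_iff₀ hx0] at this
    linarith only [this]
  have hp := F.isLaw
  have hA0 : 0 < Pe F.p A := lt_of_lt_of_le (Real.exp_pos _) hS.2.2.2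
  have hzl := hz.coarse hll
  -- the event in the family
  obtain ⟨E, hE'⟩ : ∃ E : F.Ω → Prop, E = fun ω => A ω ∧ B ω := ⟨_, rfl⟩
  have hEA : Sub E A := fun ω hω => by rw [hE'] at hω; exact hω.1
  have hEB : Sub E B := fun ω hω => by rw [hE'] at hω; exact hω.2
  have hPE : Real.exp (-(θ * J)) * Pe F.p A ≤ Pe F.p E := by
    rw [Pe_cond, le_div_iff₀ hA0] at hB
    rw [hE']
    exact hB
  -- visibility
  obtain ⟨φ₀, hφ₀⟩ := hz.vis
  obtain ⟨B₁, hB₁, hP₁, hv₁, hφ₁⟩ := zm_vis F h hr (C := Box.plkC lam i₀) (b := 5) (b' := 6) z E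
    (fun ω hω x y hxy i => hzl.bound (hEA ω hω) x y hxy i) φ₀ (fun ω hω => hφ₀ ω (hEA ω hω))
    (fun ω ω' h1 h2 hpt i => by
      have := hzl.vel (hEA ω h1) (hEA ω' h2) hpt i
      exact_mod_cast this)
  have hB₁A : Sub B₁ A := fun ω hω => hEA ω (hB₁ ω hω)
  have hCh1 : Ch (F.zm w J' h (Box.plkC lam i₀) z) i₀ q B₁ :=
    Ch.hered _ _ _ _ _ (fun ω hω => hEB ω (hB₁ ω hω)) hCh
  have hPl := noch_geo F h hrJ hz hE hCv hxk hxl hqJ hB₁A hv₁ hφ₁ hCh1
  have hPl2 : PlU 1 (2 / 2 ^ (2 * n)) (ptr F r)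
      (fun ω => pco lam i₀ (z ω) (F.d ω)) B₁ := by
    refine PlU.mono ?_ hPl
    have e1 : (12 : ℝ) / 2 ^ q ≤ 12 / 2 ^ (2 * n + 5) :=
      div_le_div_of_nonneg_left (by norm_num) (by positivity)
        (pow_le_pow_right₀ (by norm_num) hnq)
    have e2 : (12 : ℝ) / 2 ^ k ≤ 12 / 2 ^ (2 * n + 5) :=
      div_le_div_of_nonneg_left (by norm_num) (by positivity)
        (pow_le_pow_right₀ (by norm_num) hnk)
    have e3 : (12 : ℝ) / 2 ^ (2 * n + 5) = 12 / 32 * (1 / 2 ^ (2 * n)) := by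
      rw [pow_add]
      norm_num
      ring
    have e4 : (2 : ℝ) / 2 ^ (2 * n) = 2 * (1 / 2 ^ (2 * n)) := by ring
    have e5 : (0 : ℝ) < 1 / 2 ^ (2 * n) := by positivity
    rw [e4]
    rw [e3] at e1 e2
    linarith only [e1, e2, e5]
  obtain ⟨B₂, hB₂, hP₂, halt⟩ := az_spread2 F (hzl.sub hB₁A) hPl2
  have hPB₂ : Real.exp (-((θ + κ') * J)) * Pe F.p A ≤ Pe F.p B₂ := by
    have h1 : Pe F.p E ≤ C * Pe F.p B₂ := by
      rw [hC, mul_assoc]
      refine hP₁.trans (mul_le_mul_of_nonneg_left hP₂ (by positivity))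
    have h2 := hJe J hJe'
    have h3 : Real.exp (-(κ' * J)) * C ≤ 1 := by
      have hC0 : 0 < C := by linarith only [hC1]
      rw [le_div_iff₀ hC0] at h2
      exact h2
    have e1 : Real.exp (-((θ + κ') * J)) =
        Real.exp (-(κ' * J)) * Real.exp (-(θ * J)) := by
      rw [← Real.exp_add]
      congr 1
      ring
    rw [e1, mul_assoc]
    calc Real.exp (-(κ' * J)) * (Real.exp (-(θ * J)) * Pe F.p A) ≤
          Real.exp (-(κ' * J)) * (C * Pe F.p B₂) :=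
          mul_le_mul_of_nonneg_left (hPE.trans h1) (Real.exp_pos _).le
      _ = (Real.exp (-(κ' * J)) * C) * Pe F.p B₂ := by ring
      _ ≤ 1 * Pe F.p B₂ := mul_le_mul_of_nonneg_right h3 (Pe_nonneg hp B₂)
      _ = _ := one_mul _
  have hB₂A : Sub B₂ A := fun ω hω => hB₁A ω (hB₂ ω hω)
  rcases halt with h1 | h1
  · refine ⟨B₂, hB₂A, le_trans ?_ hPB₂, h1⟩
    refine mul_le_mul_of_nonneg_right (Real.exp_le_exp.2 ?_) hA0.le
    have := mul_le_mul_of_nonneg_right hκ1 hJr.le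
    linarith only [this]
  · exfalso
    have hb := thin_ball (h := n) (h₁ := ⌊h₁ * J⌋₊) hrJ (LineAt.hered _ _ _ _ _ _ hB₂A hL) h1
    -- the precision
    obtain ⟨s, hs⟩ : ∃ s : ℕ, s = ⌈x₀ * J⌉₊ := ⟨_, rfl⟩
    have hs1 : x₀ * J ≤ s := by rw [hs]; exact Nat.le_ceil _
    have hs2 : (s : ℝ) < x₀ * J + 1 := by rw [hs]; exact Nat.ceil_lt_add_one (by positivity)
    have hgJ : 4 * (x₀ * J) ≤ g * J := by
      have := mul_le_mul_of_nonneg_right hx1 hJr.le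
      linarith only [this]
    have hhJ : 4 * (x₀ * J) ≤ h₁ * J := by
      have := mul_le_mul_of_nonneg_right hx2 hJr.le
      linarith only [this]
    have hsq : s + 5 ≤ n := by
      have : ((s + 5 : ℕ) : ℝ) ≤ n := by
        push_cast
        linarith only [hgn, hxJ, hs2, hgJ]
      exact_mod_cast this
    have hsh : s + 2 ≤ ⌊h₁ * (J : ℝ)⌋₊ := by
      refine Nat.le_floor ?_
      push_cast
      linarith only [hxJ, hs2, hhJ]
    have hsJ : s ≤ J := by omega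
    have hS₂ : Fam.Stt F a R τb B₂ := by
      have h4 := Fam.Stt.mono (by linarith only [hκ0, hκ2] : τb / 3 ≤ τb) hS
      refine ⟨h4.1, h4.2.1, h4.2.2.1, le_trans ?_ hPB₂⟩
      refine le_trans ?_ (mul_le_mul_of_nonneg_left hS.2.2.2 (Real.exp_pos _).le)
      rw [← Real.exp_add]
      refine Real.exp_le_exp.2 ?_
      have := mul_le_mul_of_nonneg_right hκ2 hJr.le
      have := mul_le_mul_of_nonneg_right hθ hJr.le
      linarith
    refine hball J hJb F B₂ hS₂ s hsJ hs1 ?_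
    obtain ⟨ζ, hζ⟩ := hb
    refine ⟨ζ, fun ω hω j => (hζ ω hω j).trans ?_⟩
    have e1 : (14 : ℝ) / 2 ^ n ≤ 14 / 2 ^ (s + 5) :=
      div_le_div_of_nonneg_left (by norm_num) (by positivity)
        (pow_le_pow_right₀ (by norm_num) hsq)
    have e2 : (2 : ℝ) / 2 ^ ⌊h₁ * (J : ℝ)⌋₊ ≤ 2 / 2 ^ (s + 2) :=
      div_le_div_of_nonneg_left (by norm_num) (by positivity)
        (pow_le_pow_right₀ (by norm_num) hsh)
    have e3 : (14 : ℝ) / 2 ^ (s + 5) = 14 / 32 * (1 / 2 ^ s) := by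
      rw [pow_add]
      norm_num
      ring
    have e4 : (2 : ℝ) / 2 ^ (s + 2) = 1 / 2 * (1 / 2 ^ s) := by
      rw [pow_add]
      norm_num
      ring
    have e5 : (0 : ℝ) < 1 / 2 ^ s := by positivity
    linarith only [e1, e2, e3, e4, e5]

/-- **Elongated fans**: the points at which the fans are short are thrown away. -/
theorem elg_part {a R h₁ : ℝ} (ha : 1 ≤ a) (hR : 0 < R) (hU : UBa 3 a R) (hh₁ : 0 < h₁)
    (i₀ : Fin 3) {x : ℝ} (hx : 0 < x) : ∃ τ > 0, ∃ J₁ : ℕ, ∀ J ≥ J₁,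
    ∀ (F : Fam 3 J) (A : F.Ω → Prop), Fam.Stt F a R τ A → Lb F i₀ ⌊h₁ * J⌋₊ A →
    ∃ A' : F.Ω → Prop, Sub A' A ∧ Pe F.p A ≤ 2 * Pe F.p A' ∧ Elg F i₀ ⌈x * J⌉₊ A' := by
  classical
  obtain ⟨x₀, hx'⟩ : ∃ x', x' = min (x / 2) (min (h₁ / 4) (1 / 2)) := ⟨_, rfl⟩
  have hx0 : 0 < x₀ := by
    rw [hx']
    exact lt_min (by positivity) (lt_min (by positivity) (by norm_num))
  have hx1 : x₀ ≤ x / 2 := by rw [hx']; exact min_le_left _ _
  have hx2 : x₀ ≤ h₁ / 4 := by rw [hx']; exact (min_le_right _ _).trans (min_le_left _ _)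
  have hx3 : x₀ ≤ 1 / 2 := by rw [hx']; exact (min_le_right _ _).trans (min_le_right _ _)
  obtain ⟨τb, hτb, Jb, hball⟩ := ball_claim (m := 3) ha hR hU hx0
  obtain ⟨Je, hJe⟩ := Pool.S6K.exp_small (κ := τb / 2) (by positivity) (C := 2) (by norm_num)
  obtain ⟨Jx, hJx⟩ := exists_nat_gt (8 / x₀)
  refine ⟨τb / 2, by positivity, max (max Jb Je) Jx, fun J hJ F A hS hL => ?_⟩
  have hJb : Jb ≤ J := (le_max_left _ _).trans ((le_max_left _ _).trans hJ)
  have hJe' : Je ≤ J := (le_max_right _ _).trans ((le_max_left _ _).trans hJ)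
  have hJx' : 8 / x₀ < J := hJx.trans_le (by exact_mod_cast (le_max_right _ _).trans hJ)
  have q1 : 0 < 8 / x₀ := by positivity
  have hJr : (0 : ℝ) < J := by linarith only [hJx', q1]
  have hxJ : 8 ≤ x₀ * J := by
    rw [div_lt_iff₀ hx0] at hJx'
    linarith only [hJx']
  have hp := F.isLaw
  have hA0 : 0 < Pe F.p A := lt_of_lt_of_le (Real.exp_pos _) hS.2.2.2
  obtain ⟨G, hG⟩ : ∃ G : F.Ω → Prop, G = fun ω => ∃ ω' ω'', A ω' ∧ A ω'' ∧
    Fam.pt F ω' = Fam.pt F ω ∧ Fam.pt F ω'' = Fam.pt F ω ∧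
    1 / 2 ^ ⌈x * (J : ℝ)⌉₊ < |F.d ω' i₀ - F.d ω'' i₀| := ⟨_, rfl⟩
  rcases half_or hp (A := A) (S := fun ω => A ω ∧ G ω) (T := fun ω => A ω ∧ ¬ G ω)
    (fun ω hω => by
      by_cases h : G ω
      · exact Or.inl ⟨hω, h⟩
      · exact Or.inr ⟨hω, h⟩) with h1 | h1
  · refine ⟨fun ω => A ω ∧ G ω, fun ω hω => hω.1, h1, fun ω hω => ?_⟩
    have h2 := hω.2
    rw [hG] at h2
    obtain ⟨ω', ω'', a1, a2, a3, a4, a5⟩ := h2
    refine ⟨ω', ω'', ⟨a1, ?_⟩, ⟨a2, ?_⟩, a3, a4, a5⟩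
    · rw [hG]
      exact ⟨ω', ω'', a1, a2, rfl, a4.trans a3.symm, a5⟩
    · rw [hG]
      exact ⟨ω', ω'', a1, a2, a3.trans a4.symm, rfl, a5⟩
  · exfalso
    obtain ⟨T, hT⟩ : ∃ T : F.Ω → Prop, T = fun ω => A ω ∧ ¬ G ω := ⟨_, rfl⟩
    rw [← hT] at h1
    have hTA : Sub T A := fun ω hω => by rw [hT] at hω; exact hω.1
    have hPT : Real.exp (-(τb / 2 * J)) * Pe F.p A ≤ Pe F.p T := by
      have h2 := hJe J hJe'
      calc _ ≤ 1 / 2 * Pe F.p A := mul_le_mul_of_nonneg_right h2 hA0.le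
        _ ≤ 1 / 2 * (2 * Pe F.p T) := mul_le_mul_of_nonneg_left h1 (by norm_num)
        _ = _ := by ring
    obtain ⟨s, hs⟩ : ∃ s : ℕ, s = ⌈x₀ * J⌉₊ := ⟨_, rfl⟩
    have hs1 : x₀ * J ≤ s := by rw [hs]; exact Nat.le_ceil _
    have hs2 : (s : ℝ) < x₀ * J + 1 := by rw [hs]; exact Nat.ceil_lt_add_one (by positivity)
    have e1 : 2 * (x₀ * J) ≤ x * J := by
      have := mul_le_mul_of_nonneg_right hx1 hJr.le
      linarith only [this]
    have e2 : 4 * (x₀ * J) ≤ h₁ * J := by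
      have := mul_le_mul_of_nonneg_right hx2 hJr.le
      linarith only [this]
    have e3 : x₀ * J ≤ 1 / 2 * J := mul_le_mul_of_nonneg_right hx3 hJr.le
    have hsx : s + 2 ≤ ⌈x * (J : ℝ)⌉₊ := by
      have h3 : x * (J : ℝ) ≤ ⌈x * (J : ℝ)⌉₊ := Nat.le_ceil _
      have : ((s + 2 : ℕ) : ℝ) ≤ ⌈x * (J : ℝ)⌉₊ := by
        push_cast
        linarith only [hx0, hx3, hxJ, hs2, e1, h3]
      exact_mod_cast this
    have hsh : s + 3 ≤ ⌊h₁ * (J : ℝ)⌋₊ := by
      refine Nat.le_floor ?_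
      push_cast
      linarith only [hx0, hx3, hxJ, hs2, e2]
    have hsJ : s ≤ J := by
      have : (s : ℝ) ≤ J := by linarith only [hx0, hx3, hxJ, hs2, e3]
      exact_mod_cast this
    have hS₂ : Fam.Stt F a R τb T := by
      have h4 := Fam.Stt.mono (by linarith only [hτb] : τb / 2 ≤ τb) hS
      refine ⟨h4.1, h4.2.1, h4.2.2.1, le_trans ?_ hPT⟩
      refine le_trans ?_ (mul_le_mul_of_nonneg_left hS.2.2.2 (Real.exp_pos _).le)
      rw [← Real.exp_add]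
      refine Real.exp_le_exp.2 ?_
      linarith only
    refine hball J hJb F T hS₂ s hsJ hs1 ?_
    -- the fans are short
    obtain ⟨e, n, hf⟩ := LineAt.hered _ _ _ _ _ _ hTA hL
    have hex : ∀ y : (Fin 3 → ℤ) × (ℕ × F.ζ), ∃ V : Fin 3 → ℝ, ∀ ω, T ω → Fam.pt F ω = y →
        ∀ j, |F.d ω j - V j| ≤ 1 / 2 ^ s := by
      intro y
      by_cases hy : ∃ ω, T ω ∧ Fam.pt F ω = y
      · obtain ⟨ω₀, h0, h00⟩ := hy
        refine ⟨F.d ω₀, fun ω hω hωy j => ?_⟩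
        have hpt : Fam.pt F ω = Fam.pt F ω₀ := hωy.trans h00.symm
        have c1 : |F.d ω i₀ - F.d ω₀ i₀| ≤ 1 / 2 ^ ⌈x * (J : ℝ)⌉₊ := by
          have hω' := hω
          rw [hT] at hω'
          by_contra hcon
          push Not at hcon
          refine hω'.2 ?_
          rw [hG]
          exact ⟨ω, ω₀, hTA ω hω, hTA ω₀ h0, rfl, hpt.symm, hcon⟩
        have c2 := hf.line ω hω j
        have c3 := hf.line ω₀ h0 j
        have c4 := hf.bound ω hω j
        rw [← hpt] at c3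
        have c5 : |e (Fam.pt F ω) j * (F.d ω i₀ - F.d ω₀ i₀)| ≤ 1 / 2 ^ ⌈x * (J : ℝ)⌉₊ := by
          rw [abs_mul]
          calc _ ≤ 1 * (1 / 2 ^ ⌈x * (J : ℝ)⌉₊ : ℝ) :=
                mul_le_mul c4 c1 (abs_nonneg _) zero_le_one
            _ = _ := one_mul _
        have e5 : F.d ω j - F.d ω₀ j = (F.d ω j - e (Fam.pt F ω) j * F.d ω i₀ -
            n (Fam.pt F ω) j) - (F.d ω₀ j - e (Fam.pt F ω) j * F.d ω₀ i₀ - n (Fam.pt F ω) j) +
            e (Fam.pt F ω) j * (F.d ω i₀ - F.d ω₀ i₀) := by ring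
        have f1 : (1 : ℝ) / 2 ^ ⌈x * (J : ℝ)⌉₊ ≤ 1 / 2 ^ (s + 2) := inv_mono hsx
        have f2 : (1 : ℝ) / 2 ^ ⌊h₁ * (J : ℝ)⌋₊ ≤ 1 / 2 ^ (s + 3) := inv_mono hsh
        have f3 : (1 : ℝ) / 2 ^ (s + 2) = 1 / 4 * (1 / 2 ^ s) := by
          rw [pow_add]
          norm_num
        have f4 : (1 : ℝ) / 2 ^ (s + 3) = 1 / 8 * (1 / 2 ^ s) := by
          rw [pow_add]
          norm_num
        have f5 : (0 : ℝ) < 1 / 2 ^ s := by positivity
        rw [e5]
        rw [abs_le] at c2 c3 c5 ⊢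
        constructor <;> linarith only [c2, c3, c5, f1, f2, f3, f4, f5, c2.1, c2.2, c3.1, c3.2, c5.1, c5.2]
      · exact ⟨0, fun ω hω hωy => absurd ⟨ω, hω, hωy⟩ hy⟩
    choose V hV using hex
    exact ⟨V, fun ω hω => hV _ ω hω rfl⟩

end Pool.ZCL
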