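import Pool.Agent.H35.ZCL.Aleafc
import Pool.Agent.H35.ZCL.NoCh
import Pool.Agent.H28.ZCL.Cov1

/-!
# Leaves in the A-zoom with a chart in an index different from `i₀`

The hyperplanes of the fans are visible in the A-zoom of a window on which the directions are
constant; a chart in the index `i₀` would then give straighter fans.
-/

set_option autoImplicit false

namespace Pool.PB

open Finset Real
open Pool.Agent.H49.Ent Pool.Agent.H32.Dense Pool.STK Pool.KA Pool.K2S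

/-- A hereditary property which holds on subevents of arbitrarily small cost. -/
theorem Clp.up {m : ℕ} {S : PCl m} {q : Stat m} (her : ∀ (J : ℕ) (F : Fam m J), Hered (q J F))
    (h : ∀ δ : ℝ, 0 < δ → Clp S (fun J F A => ∃ B : F.Ω → Prop, Sub B A ∧
      Real.exp (-(δ * J)) * Pe F.p A ≤ Pe F.p B ∧ q J F B)) : Clp S q := by
  refine Clp.step ⟨1, fun J F _ => q J F, fun J F _ => her J F⟩ fun κ hκ => ?_
  refine Clp.mono (J₂ := 0) (h κ hκ) ?_
  rintro J - F A ⟨B, hB, hP, hq⟩ hS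
  rcases hS 0 with h1 | h1
  · exact h1
  · exact absurd hq (h1 B hB hP)

end Pool.PB

namespace Pool.ZCL

open Finset Real
open Pool.Agent.H49.Ent Pool.Agent.H32.Dense Pool.STK Pool.KA Pool.KSAT Pool.K2S Pool.PB Pool.S6C

/-- **The covector of the fans**, visible at precision `Q`: one window on which the directions are
constant is enough. -/
theorem cov_clp (hSTP : ∀ S : FCl 3, SPS S 1 → STP S)
    (hSLP : ∀ S : FCl 3, SPS S 1 → SLP S) {c : ℝ} (hc : 0 < c) {h₂ : ℝ} (hh₂ : 0 < h₂)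
    (hh₂1 : h₂ ≤ 1)
    (hcht : ∀ (gs ψ : ℕ → ℝ), (∀ i, 0 < ψ i) → Clg (zg 3 1 gs (c * Real.log 2) ψ)
      (fun J F A => ∃ i₁ : Fin 3, Ch F i₁ ⌊h₂ * J⌋₊ A))
    {S : PCl 3} {a R h₁ : ℝ} {i₀ : Fin 3} {Q pi : ℝ}
    (H : AzH S a R h₁ i₀ Q pi) (hT : BTail S c Q) (hpi : 0 < pi) {e : ℝ} (he : 0 < e)
    {v : ℝ} (hv0 : 0 ≤ v) (hv : v + pi + e ≤ Q)
    (hrot : ∀ s < pi, Clp S (capS 1 (qRot i₀ Q v) s)) :
    Clp S (fun J F A => Cov (1 / 2 ^ ⌊(pi + h₂ * e / 4) * J⌋₊) (ptr F ⌊Q * J⌋₊) F.d A) := by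
  classical
  refine Clp.up (fun J F => Cov.hered _ _ _) fun δ hδ => ?_
  have hhe : 0 < h₂ * e := mul_pos hh₂ he
  obtain ⟨y, hy⟩ : ∃ y, y = h₂ * e / 16 := ⟨_, rfl⟩
  have hy0 : 0 < y := by rw [hy]; positivity
  obtain ⟨τc, hτc, Jc, hcov⟩ := cov_of_ch H.a1 H.R0 H.ub H.h₁0 i₀ hy0 (κ := δ / 4)
    (by positivity)
  obtain ⟨N, K₁, hbas⟩ := az_leafc_bas hSTP hSLP hc hh₂ hcht H hT he one_pos (fun _ => 0)
  obtain ⟨b₁, hb₁, hbas1⟩ := hbas (min (δ / 4) τc) (lt_min (by positivity) hτc)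
  obtain ⟨b, hb⟩ : ∃ b, b = min b₁ (min y (pi / 2)) := ⟨_, rfl⟩
  have hb0 : 0 < b := by
    rw [hb]
    exact lt_min hb₁ (lt_min hy0 (by positivity))
  have hbb : b ≤ b₁ := by rw [hb]; exact min_le_left _ _
  have hby : b ≤ y := by rw [hb]; exact (min_le_right _ _).trans (min_le_left _ _)
  have hbp : b ≤ pi / 2 := by rw [hb]; exact (min_le_right _ _).trans (min_le_right _ _)
  obtain ⟨s, hs⟩ : ∃ s, s = pi - b := ⟨_, rfl⟩
  have hs0 : 0 < s := by rw [hs]; linarith only [hb0, hbp]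
  have hws : v + max s 0 + e ≤ Q := by
    rw [max_eq_left hs0.le, hs]
    linarith only [hv, hb0]
  obtain ⟨ψ₀, hψ₀, hfr⟩ := frames_of_bas H le_rfl (hrot s (by rw [hs]; linarith only [hb0]))
    (hbas1 v s hv0 hws (by rw [hs]; linarith only [hbb])) (κ := min (δ / 4) (τc / 2))
    (lt_min (by positivity) (by positivity))
  obtain ⟨Jx, hJx⟩ := exists_nat_gt (2 / e + 4 / y)
  refine Clp.mono (J₂ := max Jc Jx) (hfr.and (Clp.of (S := S)
    (Φ := fun J F A => S.St (τc / 2) J F A) (by positivity : 0 < τc / 2) 0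
    fun J _ F A hA => hA)) ?_
  rintro J hJ F A ⟨h1, hSt⟩
  have hJc : Jc ≤ J := (le_max_left _ _).trans hJ
  exact by
   have hJx' : 2 / e + 4 / y < J := hJx.trans_le (by exact_mod_cast (le_max_right _ _).trans hJ)
   have q1 : 0 < 2 / e := by positivity
   have q2 : 0 < 4 / y := by positivity
   have hJr : (0 : ℝ) < J := by linarith only [hJx', q1, q2]
   have hyJ : 4 ≤ y * J := by
     have : 4 / y ≤ J := by linarith only [hJx', q1]
     rw [div_le_iff₀ hy0] at this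
     linarith only [this]
   have hp := F.isLaw
   obtain ⟨A₂, z, hA₂, hPA₂, hz, hlaw, hw, hJ', B, hPB, K, -, -, i₁, i, p, ρ, -, -, -, -, -,
     hCh, -⟩ := h1 A (fun _ h => h) (by
       have : Real.exp (-(ψ₀ * J)) ≤ 1 := by
         rw [Real.exp_le_one_iff]
         have : 0 ≤ ψ₀ * (J : ℝ) := by positivity
         linarith only [this]
       calc _ ≤ 1 * Pe F.p A := mul_le_mul_of_nonneg_right this (Pe_nonneg hp A)
         _ = _ := one_mul _)
   have hle : (azJ Q v s J : ℝ) ≤ J := by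
     have : azJ Q v s J ≤ J := by omega
     exact_mod_cast this
   have hadd := (azJ_add he hv0 hws (J := J) (by linarith only [hJx', q2])).1
   have hSt₂ : S.St τc J F A₂ := by
     have h2 := S.res (τ' := min (δ / 4) (τc / 2)) (le_min (by positivity) (by positivity)) hSt
       hA₂ hPA₂
     refine S.mono ?_ h2
     have := min_le_right (δ / 4) (τc / 2)
     linarith only [this]
   have hPB' : Real.exp (-(min (δ / 4) τc * J)) ≤ Pe (cond F.p A₂ True) B := by
     refine le_trans (Real.exp_le_exp.2 ?_) hPB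
     have := mul_le_mul_of_nonneg_left hle (le_min (by positivity) hτc.le : 0 ≤ min (δ / 4) τc)
     linarith only [this]
   exact by
    obtain ⟨q, hq⟩ : ∃ q : ℕ, q = ⌊h₂ * (azJ Q v s J : ℝ)⌋₊ := ⟨_, rfl⟩
    have hqr : h₂ * (azJ Q v s J : ℝ) - 1 < q := by
      rw [hq]
      have := Nat.lt_floor_add_one (h₂ * (azJ Q v s J : ℝ))
      linarith only [this]
    have hq1 : q ≤ azJ Q v s J := by
      rw [hq]
      refine Nat.floor_le_of_le ?_
      exact mul_le_of_le_one_left (Nat.cast_nonneg _) hh₂1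
    have hqJ : 8 * (y * J) - 1 < q := by
      have h2 := mul_le_mul_of_nonneg_left hJ' hh₂.le
      have h3 : h₂ * (e / 2 * J) = 8 * (y * J) := by
        rw [hy]
        ring
      linarith only [hqr, h2, h3]
    rw [← hq] at hCh
    obtain ⟨B', hB', hPB'', hCov⟩ := hcov J hJc F A₂ (H.st _ _ _ _ hSt₂) (H.lb _ _ _ _ hSt₂)
      ⌊Q * J⌋₊ ⌊v * J⌋₊ ⌊s * J⌋₊ (azJ Q v s J) z hw hadd.le (floor_le_J H.Q1 J) hz hlaw B
      (min (δ / 4) τc) (min_le_right _ _) hPB' i₁ q (by linarith only [hyJ, hqJ]) hq1 hCh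
    refine ⟨B', fun ω hω => hA₂ ω (hB' ω hω), ?_, Cov.mono ?_ hCov⟩
    · refine le_trans ?_ hPB''
      refine le_trans ?_ (mul_le_mul_of_nonneg_left hPA₂ (Real.exp_pos _).le)
      rw [← mul_assoc, ← Real.exp_add]
      refine mul_le_mul_of_nonneg_right (Real.exp_le_exp.2 ?_) (Pe_nonneg hp A)
      have h2 := mul_le_mul_of_nonneg_right (min_le_left (δ / 4) τc) hJr.le
      have h3 := mul_le_mul_of_nonneg_right (min_le_left (δ / 4) (τc / 2)) hJr.le
      have h4 : 0 < δ * J := by positivity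
      linarith only [h2, h3, h4]
    · refine inv_mono ?_
      have f1 : (⌊(pi + h₂ * e / 4) * (J : ℝ)⌋₊ : ℝ) ≤ (pi + h₂ * e / 4) * J :=
        Nat.floor_le (by positivity)
      have f2 : s * J < ⌊s * (J : ℝ)⌋₊ + 1 := Nat.lt_floor_add_one _
      have f3 : (⌈y * (J : ℝ)⌉₊ : ℝ) < y * J + 1 := Nat.ceil_lt_add_one (by positivity)
      have f4 : h₂ * e / 4 * J = 4 * (y * J) := by
        rw [hy]
        ring
      have f5 : b * J ≤ y * J := mul_le_mul_of_nonneg_right hby hJr.le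
      have f6 : s * J = pi * J - b * J := by
        rw [hs]
        ring
      have f7 : ((⌊(pi + h₂ * e / 4) * (J : ℝ)⌋₊ + ⌈y * (J : ℝ)⌉₊ : ℕ) : ℝ) <
          ((⌊s * (J : ℝ)⌋₊ + q + 1 : ℕ) : ℝ) := by
        push_cast
        have f8 : (pi + h₂ * e / 4) * (J : ℝ) = pi * J + 4 * (y * J) := by
          rw [← f4]
          ring
        linarith only [hyJ, hqJ, f1, f2, f3, f4, f5, f6]
      have := Nat.cast_lt.1 f7
      omega

/-- **A label with a chart in the A-zoom** of `(v, s)`, on an event of cost `δ`: the chart is in an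
index different from `i₀`. -/
def XLch {J : ℕ} (F : Fam 3 J) (i₀ : Fin 3) (Q v s h₂ x : ℝ) (K₁ : ℕ) (δ : ℝ)
    (A : F.Ω → Prop) : Prop :=
  ∃ (B : F.Ω → Prop) (z : F.Ω → Fin 3 → ℝ), Sub B A ∧
    Real.exp (-(δ * J)) * Pe F.p A ≤ Pe F.p B ∧
    AzF F i₀ ⌊Q * J⌋₊ ⌊s * J⌋₊ ⌊v * J⌋₊ B z ∧
    ∃ (hB : IsLaw (cond F.p B True)) (h : ⌊v * J⌋₊ + azJ Q v s J ≤ J) (i₁ : Fin 3)
      (K a P : ℕ), i₁ ≠ i₀ ∧ K ≤ K₁ ∧ (a : ℝ) ≤ x * azJ Q v s J ∧
      (1 - x) * azJ Q v s J ≤ P ∧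
      Ch (azG F i₀ Q v s B z hB h) i₁ ⌊h₂ * azJ Q v s J⌋₊ B ∧
      Lab (azG F i₀ Q v s B z hB h) i₁ (azJ Q v s J) K a a P B

/-- The rows of a ball label. -/
theorem bl_rows {x : ℝ} (hx : 0 < x) {N i p J' : ℕ} (hN : 0 < N)
    (hJ' : 2 * (N : ℝ) / x ≤ J') (hi : (i : ℝ) ≤ min x 1 / 2 * N)
    (hp : (1 - min x 1 / 2) * N ≤ p) :
    ((i * (J' / N) : ℕ) : ℝ) ≤ x * J' ∧ (1 - x) * J' ≤ ((p * (J' / N) : ℕ) : ℝ) := by
  have hN0 : (0 : ℝ) < N := by exact_mod_cast hN
  have hq1 : (J' : ℝ) < N * ((J' / N : ℕ) : ℝ) + N := by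
    have h1 : J' < N * (J' / N) + N := by
      have := Nat.div_add_mod J' N
      have := Nat.mod_lt J' hN
      omega
    exact_mod_cast h1
  have hq2 : (N : ℝ) * ((J' / N : ℕ) : ℝ) ≤ J' := by exact_mod_cast Nat.mul_div_le J' N
  have hq0 : (0 : ℝ) ≤ ((J' / N : ℕ) : ℝ) := Nat.cast_nonneg _
  have hJ0 : (0 : ℝ) ≤ (J' : ℝ) := Nat.cast_nonneg _
  have h1 : min x 1 ≤ x := min_le_left _ _
  have h2 : min x 1 ≤ 1 := min_le_right _ _
  have h3 : 0 < min x 1 := lt_min hx one_pos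
  rw [div_le_iff₀ hx] at hJ'
  constructor
  · rw [Nat.cast_mul]
    calc (i : ℝ) * ((J' / N : ℕ) : ℝ) ≤ min x 1 / 2 * N * ((J' / N : ℕ) : ℝ) :=
          mul_le_mul_of_nonneg_right hi hq0
      _ = min x 1 / 2 * (N * ((J' / N : ℕ) : ℝ)) := by ring
      _ ≤ min x 1 / 2 * J' := mul_le_mul_of_nonneg_left hq2 (by positivity)
      _ ≤ x * J' := mul_le_mul_of_nonneg_right (by linarith only [hx, h1]) hJ0
  · rw [Nat.cast_mul]
    refine le_trans ?_ (mul_le_mul_of_nonneg_right hp hq0)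
    have h4 : (1 - min x 1 / 2) * N * ((J' / N : ℕ) : ℝ) =
        (1 - min x 1 / 2) * (N * ((J' / N : ℕ) : ℝ)) := by ring
    rw [h4]
    have h5 : (1 - min x 1 / 2) * ((J' : ℝ) - N) ≤
        (1 - min x 1 / 2) * (N * ((J' / N : ℕ) : ℝ)) :=
      mul_le_mul_of_nonneg_left (by linarith only [hq1]) (by linarith only [h2])
    refine le_trans ?_ h5
    have h6 : (1 - x) * (J' : ℝ) + x / 2 * J' ≤ (1 - min x 1 / 2) * J' := by
      have := mul_le_mul_of_nonneg_right (by linarith only [h1] : (1 - x) + x / 2 ≤ 1 - min x 1 / 2) hJ0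
      linarith only [this]
    have h7 : (1 - min x 1 / 2) * (N : ℝ) ≤ 1 * N :=
      mul_le_mul_of_nonneg_right (by linarith only [h3]) hN0.le
    have h8 : (1 - min x 1 / 2) * ((J' : ℝ) - N) =
        (1 - min x 1 / 2) * (J' : ℝ) - (1 - min x 1 / 2) * N := by ring
    rw [h8]
    linarith only [hJ', hi, h6]

/-- **Leaves with charts in the A-zoom**, in an index different from `i₀`. -/
theorem az_leafc (hSTP : ∀ S : FCl 3, SPS S 1 → STP S)
    (hSLP : ∀ S : FCl 3, SPS S 1 → SLP S) {c : ℝ} (hc : 0 < c) :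
    ∃ h₂ : ℝ, 0 < h₂ ∧ h₂ ≤ 1 ∧ ∀ {S : PCl 3} {a R h₁ : ℝ} {i₀ : Fin 3} {Q pi : ℝ},
    AzH S a R h₁ i₀ Q pi → BTail S c Q → 0 < pi → ∀ {e x : ℝ}, 0 < e → 0 < x →
    ∃ K₁ : ℕ, ∀ δ : ℝ, 0 < δ → ∃ b > 0, ∀ v s : ℝ, 0 ≤ v → v + pi + e ≤ Q →
    (∀ s' < pi, Clp S (capS 1 (qRot i₀ Q v) s')) → pi - b ≤ s → s < pi →
    ∃ ψ₀ > 0, Clp S (fun J F A => ∀ A₁ : F.Ω → Prop, Sub A₁ A →
      Real.exp (-(ψ₀ * J)) * Pe F.p A ≤ Pe F.p A₁ → XLch F i₀ Q v s h₂ x K₁ δ A₁) := by
  classical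
  obtain ⟨h₂, hh₂, hh₂1, hcht⟩ := exists_chart hc
  refine ⟨h₂, hh₂, hh₂1, ?_⟩
  intro S a R h₁ i₀ Q pi H hT hpi e x he hx
  have hhe : 0 < h₂ * e := mul_pos hh₂ he
  obtain ⟨x', hx'⟩ : ∃ x', x' = min x 1 / 2 := ⟨_, rfl⟩
  have hx'0 : 0 < x' := by
    rw [hx']
    have : 0 < min x 1 := lt_min hx one_pos
    positivity
  obtain ⟨N, K₁, hbas⟩ := az_leafc_bas hSTP hSLP hc hh₂ hcht H hT he hx'0 (fun _ => 0)
  refine ⟨K₁, fun δ hδ => ?_⟩
  obtain ⟨g, hg⟩ : ∃ g, g = h₂ * e / 32 := ⟨_, rfl⟩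
  have hg0 : 0 < g := by rw [hg]; positivity
  have hge : g ≤ e := by
    rw [hg]
    nlinarith only [he, hh₂1]
  -- no lines of higher precision
  obtain ⟨c₁, hc₁, Jn, hn⟩ := Clp.neg_base (S := S) (Q := capS 1 (qPi i₀ Q) (pi + g)) (by
    rintro J F A B hB (h1 | ⟨h1, h2⟩)
    · exact Or.inl h1
    · exact Or.inr ⟨h1, LineU.hered _ _ _ _ _ _ hB h2⟩) (H.pi.2 g hg0)
  obtain ⟨τn, hτn, Jm, hno⟩ := az_noch H.a1 H.R0 H.ub H.h₁0 i₀ (g := 2 * g) (by positivity)
    (κ := c₁ / 4) (by positivity)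
  obtain ⟨δ', hδ'⟩ : ∃ δ', δ' = min (δ / 2) (min τn (c₁ / 4)) := ⟨_, rfl⟩
  have hδ'0 : 0 < δ' := by
    rw [hδ']
    exact lt_min (by positivity) (lt_min hτn (by positivity))
  have hδ'1 : δ' ≤ δ / 2 := by rw [hδ']; exact min_le_left _ _
  have hδ'2 : δ' ≤ τn := by rw [hδ']; exact (min_le_right _ _).trans (min_le_left _ _)
  exact by
   have hδ'3 : δ' ≤ c₁ / 4 := by rw [hδ']; exact (min_le_right _ _).trans (min_le_right _ _)
   obtain ⟨b₁, hb₁, hbas1⟩ := hbas δ' hδ'0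
   obtain ⟨b, hb⟩ : ∃ b, b = min b₁ (min (g / 2) (pi / 2)) := ⟨_, rfl⟩
   have hb0 : 0 < b := by
     rw [hb]
     exact lt_min hb₁ (lt_min (by positivity) (by positivity))
   have hbb : b ≤ b₁ := by rw [hb]; exact min_le_left _ _
   have hbg : b ≤ g / 2 := by rw [hb]; exact (min_le_right _ _).trans (min_le_left _ _)
   have hbp : b ≤ pi / 2 := by rw [hb]; exact (min_le_right _ _).trans (min_le_right _ _)
   refine ⟨b, hb0, fun v s hv0 hv hrot hs1 hs2 => ?_⟩
   have hs0 : 0 < s := by linarith only [hb0, hbp, hs1]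
   have hws : v + max s 0 + e ≤ Q := by
     rw [max_eq_left hs0.le]
     linarith only [hv, hs2]
   obtain ⟨ψ₁, hψ₁, J₁, hleaf⟩ := hbas1 v s hv0 hws (by linarith only [hbb, hs1])
   obtain ⟨x₀, hx₀⟩ : ∃ x₀, x₀ = min ((pi - s) / 4) g := ⟨_, rfl⟩
   have hx₀0 : 0 < x₀ := by
     rw [hx₀]
     exact lt_min (by linarith only [hs2]) hg0
   have hx₀1 : x₀ ≤ (pi - s) / 4 := by rw [hx₀]; exact min_le_left _ _
   have hx₀2 : x₀ ≤ g := by rw [hx₀]; exact min_le_right _ _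
   obtain ⟨τe, hτe, Je, helg⟩ := elg_part H.a1 H.R0 H.ub H.h₁0 i₀ hx₀0
   obtain ⟨s', hs'⟩ : ∃ s', s' = s + (pi - s) / 2 := ⟨_, rfl⟩
   obtain ⟨κ, hκ⟩ : ∃ κ, κ = min (min (δ / 8) (c₁ / 16)) (min (ψ₁ / 4) (min (τe / 4) (τn / 4))) :=
     ⟨_, rfl⟩
   have hκ0 : 0 < κ := by
     rw [hκ]
     exact lt_min (lt_min (by positivity) (by positivity)) (lt_min (by positivity)
       (lt_min (by positivity) (by positivity)))
   have hκ1 : κ ≤ δ / 8 := by rw [hκ]; exact (min_le_left _ _).trans (min_le_left _ _)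
   exact by
    have hκ2 : κ ≤ c₁ / 16 := by rw [hκ]; exact (min_le_left _ _).trans (min_le_right _ _)
    have hκ3 : κ ≤ ψ₁ / 4 := by rw [hκ]; exact (min_le_right _ _).trans (min_le_left _ _)
    have hκ4 : κ ≤ τe / 4 := by
      rw [hκ]
      exact (min_le_right _ _).trans ((min_le_right _ _).trans (min_le_left _ _))
    have hκ5 : κ ≤ τn / 4 := by
      rw [hκ]
      exact (min_le_right _ _).trans ((min_le_right _ _).trans (min_le_right _ _))
    obtain ⟨ψf, hψf, hfr⟩ := az_frames H (hrot s' (by rw [hs']; linarith only [hx₀0, hx₀1])) hκ0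
    obtain ⟨J2, hJ2⟩ := Pool.S6K.exp_small hκ0 (C := 2) (by norm_num)
    have hcv := cov_clp hSTP hSLP hc hh₂ hh₂1 hcht H hT hpi he hv0 hv hrot
    obtain ⟨Jx, hJx⟩ := exists_nat_gt (2 / e + 16 / g + 64 / (pi - s) + 4 * N / (x * e))
    refine ⟨min ψf κ, lt_min hψf hκ0, Clp.mono
      (J₂ := max (max (max Jn Jm) (max J₁ Je)) (max J2 Jx)) ((hcv.and hfr).and (Clp.of (S := S)
      (Φ := fun J F A => S.St κ J F A) hκ0 0 fun J _ F A hA => hA)) ?_⟩
    rintro J hJ F A ⟨⟨hCv, h1⟩, hSt⟩ A₁ hA₁ hPA₁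
    have hJn : Jn ≤ J := (le_max_left _ _).trans ((le_max_left _ _).trans ((le_max_left _ _).trans hJ))
    have hJm : Jm ≤ J :=
      (le_max_right _ _).trans ((le_max_left _ _).trans ((le_max_left _ _).trans hJ))
    have hJ1 : J₁ ≤ J :=
      (le_max_left _ _).trans ((le_max_right _ _).trans ((le_max_left _ _).trans hJ))
    have hJe : Je ≤ J :=
      (le_max_right _ _).trans ((le_max_right _ _).trans ((le_max_left _ _).trans hJ))
    have hJ2' : J2 ≤ J := (le_max_left _ _).trans ((le_max_right _ _).trans hJ)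
    have hJx' : 2 / e + 16 / g + 64 / (pi - s) + 4 * N / (x * e) < J :=
      hJx.trans_le (by exact_mod_cast (le_max_right _ _).trans ((le_max_right _ _).trans hJ))
    have hps : 0 < pi - s := by linarith only [hx₀0, hx₀1]
    have q1 : 0 < 2 / e := by positivity
    have q2 : 0 < 16 / g := by positivity
    have q3 : 0 < 64 / (pi - s) := by positivity
    exact by
     have q4 : 0 ≤ 4 * (N : ℝ) / (x * e) := by positivity
     have hJr : (0 : ℝ) < J := by linarith only [hJx', q1, q2, q3, q4]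
     have hgJ : 16 ≤ g * J := by
       have : 16 / g ≤ J := by linarith only [hJx', q1, q3, q4]
       rw [div_le_iff₀ hg0] at this
       linarith only [this]
     have hpJ : 64 ≤ (pi - s) * J := by
       have : 64 / (pi - s) ≤ J := by linarith only [hJx', q1, q2, q4]
       rw [div_le_iff₀ hps] at this
       linarith only [this]
     have hNJ : 4 * (N : ℝ) ≤ x * e * J := by
       have : 4 * (N : ℝ) / (x * e) ≤ J := by linarith only [hJx', q1, q2, q3]
       rw [div_le_iff₀ (by positivity)] at this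
       linarith only [this]
     have hp := F.isLaw
     have hPe := Pe_nonneg hp A
     -- the frames
     obtain ⟨A₂, z, hA₂, hPA₂, hz⟩ := h1 A₁ hA₁ (le_trans (mul_le_mul_of_nonneg_right
       (Real.exp_le_exp.2 (by
         have := mul_le_mul_of_nonneg_right (min_le_left ψf κ) hJr.le
         linarith only [this])) hPe) hPA₁)
     have hSt₁ : S.St (2 * κ) J F A₁ := by
       have h2 := S.res (τ' := κ) hκ0.le hSt hA₁ (le_trans
         (mul_le_mul_of_nonneg_right (Real.exp_le_exp.2 (by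
           have := mul_le_mul_of_nonneg_right (min_le_right ψf κ) hJr.le
           linarith only [this])) hPe) hPA₁)
       have e1 : κ + κ = 2 * κ := by ring
       rwa [e1] at h2
     have hSt₂ : S.St (3 * κ) J F A₂ := by
       have h2 := S.res (τ' := κ) hκ0.le hSt₁ hA₂ hPA₂
       have e1 : 2 * κ + κ = 3 * κ := by ring
       rwa [e1] at h2
     -- the elongated part
     exact by
      obtain ⟨A₃, hA₃, hPA₃, hE⟩ := helg J hJe F A₂ (Fam.Stt.mono (by linarith only [hκ0, hκ4]) (H.st _ _ _ _ hSt₂))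
        (H.lb _ _ _ _ hSt₂)
      have hPA₃' : Real.exp (-(κ * J)) * Pe F.p A₂ ≤ Pe F.p A₃ := by
        have h2 := hJ2 J hJ2'
        calc Real.exp (-(κ * J)) * Pe F.p A₂ ≤ 1 / 2 * Pe F.p A₂ :=
              mul_le_mul_of_nonneg_right h2 (Pe_nonneg hp A₂)
          _ ≤ _ := by linarith only [hPA₃]
      have hSt₃ : S.St (4 * κ) J F A₃ := by
        have h2 := S.res (τ' := κ) hκ0.le hSt₂ hA₃ hPA₃'
        have e1 : 3 * κ + κ = 4 * κ := by ring
        rwa [e1] at h2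
      have hz₃ : AzF F i₀ ⌊Q * J⌋₊ ⌊s' * J⌋₊ ⌊v * J⌋₊ A₃ z := hz.sub hA₃
      have hll : ⌊s * (J : ℝ)⌋₊ ≤ ⌊s' * (J : ℝ)⌋₊ :=
        Nat.floor_le_floor (mul_le_mul_of_nonneg_right (by rw [hs']; linarith only [hx₀0, hx₀1]) hJr.le)
      -- the leaf
      obtain ⟨hlaw, hw, hJ', B₀, hPB₀, K, hK, -, i₁, i, p, ρ, hi, hiρ, hp1, hp2, hp3, hCh, hBl⟩ :=
        hleaf J hJ1 F A₃ (S.mono (by linarith only [hκ3]) hSt₃) z (hz₃.coarse hll)
      have hadd := (azJ_add he hv0 hws (J := J) (by linarith only [hJx', q2, q3, q4])).1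
      have hle : (azJ Q v s J : ℝ) ≤ J := by
        have : azJ Q v s J ≤ J := by omega
        exact_mod_cast this
      have hPB₁ : Real.exp (-(δ' * J)) ≤ Pe (cond F.p A₃ True) B₀ := by
        refine le_trans (Real.exp_le_exp.2 ?_) hPB₀
        have := mul_le_mul_of_nonneg_left hle hδ'0.le
        linarith only [this]
      -- the index
      have hi₁ : i₁ ≠ i₀ := by
        intro heq
        rw [heq] at hCh
        obtain ⟨q, hq⟩ : ∃ q : ℕ, q = ⌊h₂ * (azJ Q v s J : ℝ)⌋₊ := ⟨_, rfl⟩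
        have hqr : h₂ * (azJ Q v s J : ℝ) - 1 < q := by
          rw [hq]
          have := Nat.lt_floor_add_one (h₂ * (azJ Q v s J : ℝ))
          linarith only [this]
        have hq1 : q ≤ azJ Q v s J := by
          rw [hq]
          refine Nat.floor_le_of_le ?_
          exact mul_le_of_le_one_left (Nat.cast_nonneg _) hh₂1
        have hqJ : 16 * (g * J) - 1 < q := by
          have h2 := mul_le_mul_of_nonneg_left hJ' hh₂.le
          have h3 : h₂ * (e / 2 * J) = 16 * (g * J) := by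
            rw [hg]
            ring
          linarith only [hqr, h2, h3]
        rw [← hq] at hCh
        obtain ⟨k, hk⟩ : ∃ k : ℕ, ⌊(pi + h₂ * e / 4) * (J : ℝ)⌋₊ = ⌊s * (J : ℝ)⌋₊ + k := by
          refine Nat.exists_eq_add_of_le (Nat.floor_le_floor (mul_le_mul_of_nonneg_right ?_ hJr.le))
          have : 0 < h₂ * e / 4 := by positivity
          linarith only [hhe, hx₀0, hx₀1]
        have f2 : s * J < ⌊s * (J : ℝ)⌋₊ + 1 := Nat.lt_floor_add_one _
        have f3 : (⌊s * (J : ℝ)⌋₊ : ℝ) ≤ s * J := Nat.floor_le (by positivity)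
        have f1 : (pi + h₂ * e / 4) * J < ⌊(pi + h₂ * e / 4) * (J : ℝ)⌋₊ + 1 :=
          Nat.lt_floor_add_one _
        have f4 : (pi + h₂ * e / 4) * J = pi * J + 8 * (g * J) := by
          rw [hg]
          ring
        have hkr : 8 * (g * J) - 1 < k := by
          rw [hk, f4] at f1
          push_cast at f1
          have : s * J ≤ pi * J := mul_le_mul_of_nonneg_right hs2.le hJr.le
          linarith only [hpJ, f3, f1]
        have fx : (⌈x₀ * (J : ℝ)⌉₊ : ℝ) < x₀ * J + 1 := Nat.ceil_lt_add_one (by positivity)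
        have fx1 : x₀ * J ≤ (pi - s) / 4 * J := mul_le_mul_of_nonneg_right hx₀1 hJr.le
        have fx2 : x₀ * J ≤ g * J := mul_le_mul_of_nonneg_right hx₀2 hJr.le
        have c1 : ⌈x₀ * (J : ℝ)⌉₊ + 7 ≤ k := by
          have : ((⌈x₀ * (J : ℝ)⌉₊ + 7 : ℕ) : ℝ) < ((k + 1 : ℕ) : ℝ) := by
            push_cast
            linarith only [hgJ, hkr, fx, fx2]
          have := Nat.cast_lt.1 this
          omega
        have c2 : ⌈x₀ * (J : ℝ)⌉₊ + ⌊s * (J : ℝ)⌋₊ + 11 ≤ ⌊s' * (J : ℝ)⌋₊ := by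
          have f5 : s' * J < ⌊s' * (J : ℝ)⌋₊ + 1 := Nat.lt_floor_add_one _
          have f6 : s' * J = s * J + (pi - s) / 2 * J := by
            rw [hs']
            ring
          have : ((⌈x₀ * (J : ℝ)⌉₊ + ⌊s * (J : ℝ)⌋₊ + 11 : ℕ) : ℝ) <
              ((⌊s' * (J : ℝ)⌋₊ + 1 : ℕ) : ℝ) := by
            push_cast
            linarith only [hpJ, f3, fx, fx1, f5, f6]
          have := Nat.cast_lt.1 this
          omega
        obtain ⟨n, hn'⟩ : ∃ n : ℕ, n = ⌈2 * g * (J : ℝ)⌉₊ := ⟨_, rfl⟩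
        have hn1 : 2 * g * J ≤ n := by
          rw [hn']
          exact Nat.le_ceil _
        have hn2 : (n : ℝ) < 2 * g * J + 1 := by
          rw [hn']
          exact Nat.ceil_lt_add_one (by positivity)
        have c3 : 2 * n + 5 ≤ q := by
          have : ((2 * n + 5 : ℕ) : ℝ) < ((q + 1 : ℕ) : ℝ) := by
            push_cast
            linarith only [hgJ, hqJ, hn2]
          have := Nat.cast_lt.1 this
          omega
        have c4 : 2 * n + 5 ≤ k := by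
          have : ((2 * n + 5 : ℕ) : ℝ) < ((k + 1 : ℕ) : ℝ) := by
            push_cast
            linarith only [hgJ, hkr, hn2]
          have := Nat.cast_lt.1 this
          omega
        have hCv₃ : Cov (1 / 2 ^ (⌊s * (J : ℝ)⌋₊ + k)) (ptr F ⌊Q * J⌋₊) F.d A₃ := by
          rw [← hk]
          exact Cov.hered _ _ _ _ _ (fun ω hω => hA₁ ω (hA₂ ω (hA₃ ω hω))) hCv
        obtain ⟨B', hB', hPB', hline⟩ := hno J hJm F A₃ (Fam.Stt.mono (by linarith only [hκ5])
          (H.st _ _ _ _ hSt₃)) (H.lb _ _ _ _ hSt₃) ⌊Q * J⌋₊ ⌊v * J⌋₊ ⌊s * J⌋₊ ⌊s' * J⌋₊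
          (azJ Q v s J) z hw hadd.le (floor_le_J H.Q1 J) hll hz₃ _ k hE hCv₃ c1 c2 hlaw B₀ δ' hδ'2
          hPB₁ q n hq1 c3 c4 hn1 hCh
        have hSt' : S.St c₁ J F B' := by
          have h2 := S.res (τ' := δ' + c₁ / 4) (by positivity) hSt₃ hB' hPB'
          exact S.mono (by linarith only [hδ'3, hκ0, hκ2]) h2
        refine hn J hJn F B' hSt' (Or.inr ⟨?_, LineU.mono hline ?_⟩)
        · have := H.Q1
          linarith only [hge, hv0, hv, this]
        · have e1 : ⌊(pi + g) * (J : ℝ)⌋₊ + 2 ≤ ⌊s * (J : ℝ)⌋₊ + n := by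
            have f5 : (⌊(pi + g) * (J : ℝ)⌋₊ : ℝ) ≤ (pi + g) * J := Nat.floor_le (by positivity)
            have f6 : (pi - g / 2) * J ≤ s * J := mul_le_mul_of_nonneg_right (by linarith only [hbg, hs1]) hJr.le
            have : ((⌊(pi + g) * (J : ℝ)⌋₊ + 2 : ℕ) : ℝ) < ((⌊s * (J : ℝ)⌋₊ + n + 1 : ℕ) : ℝ) := by
              push_cast
              linarith only [hpJ, f2, hn1, f5, f6]
            have := Nat.cast_lt.1 this
            omega
          have e2 : (4 : ℝ) / 2 ^ (⌊s * (J : ℝ)⌋₊ + n) ≤ 4 / 2 ^ (⌊(pi + g) * (J : ℝ)⌋₊ + 2) :=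
            div_le_div_of_nonneg_left (by norm_num) (by positivity)
              (pow_le_pow_right₀ (by norm_num) e1)
          refine e2.trans (le_of_eq ?_)
          rw [pow_add]
          norm_num
          ring
      -- the conclusion
      exact by
       have hA₃0 : 0 < Pe F.p A₃ := lt_of_lt_of_le (Real.exp_pos _) (H.st _ _ _ _ hSt₃).2.2.2
       obtain ⟨B, hB⟩ : ∃ B : F.Ω → Prop, B = fun ω => A₃ ω ∧ B₀ ω := ⟨_, rfl⟩
       have hBA₃ : Sub B A₃ := fun ω hω => by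
         rw [hB] at hω
         exact hω.1
       have hBB₀ : Sub B B₀ := fun ω hω => by
         rw [hB] at hω
         exact hω.2
       have hPB : Real.exp (-(δ' * J)) * Pe F.p A₃ ≤ Pe F.p B := by
         rw [Pe_cond, le_div_iff₀ hA₃0, ← hB] at hPB₁
         exact hPB₁
       have hB0 : 0 < Pe F.p B := lt_of_lt_of_le (mul_pos (Real.exp_pos _) hA₃0) hPB
       have hlB : IsLaw (cond F.p B True) := isLaw_cond hp hB0
       have hN0 : 0 < N := by omega
       have hrows := bl_rows hx hN0 (J' := azJ Q v s J) (by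
         rw [div_le_iff₀ hx]
         have := mul_le_mul_of_nonneg_left hJ' hx.le
         linarith only [hNJ, this]) (by rw [← hx']; exact hi) (by rw [← hx']; exact hp1)
       refine ⟨B, z, fun ω hω => hA₂ ω (hA₃ ω (hBA₃ ω hω)), ?_, (hz₃.coarse hll).sub hBA₃, hlB, hw,
         i₁, K, i * (azJ Q v s J / N), p * (azJ Q v s J / N), hi₁, hK, hrows.1, hrows.2, ?_, ?_⟩
       · calc Real.exp (-(δ * J)) * Pe F.p A₁
             ≤ Real.exp (-(δ' * J)) * (Real.exp (-(κ * J)) * (Real.exp (-(κ * J)) * Pe F.p A₁)) := by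
               rw [← mul_assoc, ← mul_assoc, ← Real.exp_add, ← Real.exp_add]
               refine mul_le_mul_of_nonneg_right (Real.exp_le_exp.2 ?_) (Pe_nonneg hp A₁)
               have h2 := mul_le_mul_of_nonneg_right hδ'1 hJr.le
               have h3 := mul_le_mul_of_nonneg_right hκ1 hJr.le
               have h4 : 0 < δ * J := by positivity
               linarith only [h2, h3, h4]
           _ ≤ Real.exp (-(δ' * J)) * (Real.exp (-(κ * J)) * Pe F.p A₂) :=
               mul_le_mul_of_nonneg_left (mul_le_mul_of_nonneg_left hPA₂ (Real.exp_pos _).le)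
                 (Real.exp_pos _).le
           _ ≤ Real.exp (-(δ' * J)) * Pe F.p A₃ :=
               mul_le_mul_of_nonneg_left hPA₃' (Real.exp_pos _).le
           _ ≤ _ := hPB
       · exact Ch.hered (azG F i₀ Q v s A₃ z hlaw hw) i₁ _ _ _ hBB₀ hCh
       · have h2 := Lab.hered (azG F i₀ Q v s A₃ z hlaw hw) i₁ _ _ _ _ _ _ _ hBB₀ hBl
         have h3 : ρ * (azJ Q v s J / N) ≤ azJ Q v s J :=
           (Nat.mul_le_mul_right _ hp3).trans (Nat.mul_div_le _ _)
         have h4 : i * (azJ Q v s J / N) ≤ azJ Q v s J :=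
           (Nat.mul_le_mul_right _ (hiρ.trans hp3)).trans (Nat.mul_div_le _ _)
         exact Lab.mono (F := azG F i₀ Q v s A₃ z hlaw hw) h3 le_rfl le_rfl le_rfl h4 le_rfl h2

end Pool.ZCL
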