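import Pool.Agent.H64.K3.Box
import Pool.Agent.H80.KS6.Plk
import Pool.Agent.H35.ZCL.Leaf

/-!
# The zoom of a family in linear coordinates

`F.zm w J' h C g`: the family in the boxes of the window `w`, in the coordinates `C.L (g ω)`, at
resolution `J'`, with rounded lines.
-/

set_option autoImplicit false

namespace Pool.KA

open Finset Real
open Pool.Agent.H49.Ent Pool.Agent.H32.Dense Pool.STK

variable {m J : ℕ} {κ : Type}

/-- The zoom. -/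
noncomputable def Fam.zm (F : Fam m J) (w J' : ℕ) (h : w + J' ≤ J) (C : Crd m κ) (g : F.Ω → κ) :
    Fam m J' := ((F.box w C g).trc J' (by omega)).rnd

end Pool.KA

namespace Pool.ZCL

open Finset Real
open Pool.Agent.H49.Ent Pool.Agent.H32.Dense Pool.STK Pool.KA Pool.KSAT Pool.K2S Pool.PB
open Pool.KA.TRC

variable {m J : ℕ} {κ : Type}

/-- Rounded lines: the time deficit. -/
theorem tm_rnd {F : Fam m J} {e : ℝ} (h : F.Tm e) : F.rnd.Tm e := by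
  unfold Fam.Tm at h ⊢
  refine h.trans (CH_mono_cond F.isLaw.nonneg (X := F.T) (W' := fun ω => (F.l ω, F.Z ω))
    (W := fun ω => (F.rnd.l ω, F.rnd.Z ω)) ?_)
  intro ω ω' _ _ e1
  have e2 := Prod.ext_iff.1 e1
  simp only at e2
  have e3 : F.u ω = F.u ω' := (Prod.ext_iff.1 e2.1).1
  have e4 : F.d ω = F.d ω' := (Prod.ext_iff.1 e2.1).2
  refine Prod.ext (Prod.ext ?_ ?_) e2.2
  · funext i
    change (⌊(2 : ℝ) ^ J * F.u ω i⌋ : ℝ) / 2 ^ J = (⌊(2 : ℝ) ^ J * F.u ω' i⌋ : ℝ) / 2 ^ J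
    rw [e3]
  · funext i
    change (⌊(2 : ℝ) ^ J * F.d ω i⌋ : ℝ) / 2 ^ J = (⌊(2 : ℝ) ^ J * F.d ω' i⌋ : ℝ) / 2 ^ J
    rw [e4]

/-- The time deficit of the zoom. -/
theorem zm_Tm (F : Fam m J) {w J' : ℕ} (h : w + J' ≤ J) (C : Crd m κ) (g : F.Ω → κ)
    (hg : Det F.p (fun ω => (F.l ω, (F.T1 w ω, F.Z ω))) g) {e : ℝ} (he : F.Tm e) :
    (F.zm w J' h C g).Tm e := by
  refine tm_rnd ?_
  obtain ⟨_, -, h1⟩ := trc_thm m
  exact (h1 _ (F.box w C g) J' (by omega) e (Box.box_Tm F (by omega) C g hg he)).1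

/-- The number of the lines of the zoom. -/
theorem zm_lines (F : Fam m J) {w J' : ℕ} (h : w + J' ≤ J) (C : Crd m κ) (g : F.Ω → κ) :
    ∀ z, 0 < law (F.zm w J' h C g).p (F.zm w J' h C g).Z z →
      H (cond (F.zm w J' h C g).p (F.zm w J' h C g).Z z) (F.zm w J' h C g).l ≤ 2 * m * J' := by
  classical
  intro z hz
  have hp := (F.zm w J' h C g).isLaw
  obtain ⟨q, hq⟩ : ∃ q, q = cond (F.zm w J' h C g).p (F.zm w J' h C g).Z z := ⟨_, rfl⟩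
  have hl : IsLaw q := by
    rw [hq]
    exact ⟨cond_nonneg hp.nonneg _ _, sum_cond _ _ hz.ne'⟩
  rw [← hq]
  have hl21 : Real.log 2 ≤ 1 := by
    have := Real.log_two_lt_d9
    linarith
  obtain ⟨v, hv⟩ : ∃ v : F.Ω → (Fin m → ℤ) × (Fin m → ℤ), v = fun ω =>
      (fun i => ⌊(2 : ℝ) ^ J' * (F.box w C g).u ω i⌋,
        fun i => ⌊(2 : ℝ) ^ J' * (F.box w C g).d ω i⌋) := ⟨_, rfl⟩
  have e1 : H q (F.zm w J' h C g).l ≤ H q (fun ω => (v ω, ())) := by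
    refine H_mono hl.nonneg fun ω ω' _ _ h1 => ?_
    have h2 := (Prod.ext_iff.1 h1).1
    rw [hv] at h2
    have h3 := Prod.ext_iff.1 h2
    simp only at h3
    refine Prod.ext ?_ ?_
    · funext i
      change (⌊(2 : ℝ) ^ J' * (F.box w C g).u ω i⌋ : ℝ) / 2 ^ J' =
        (⌊(2 : ℝ) ^ J' * (F.box w C g).u ω' i⌋ : ℝ) / 2 ^ J'
      have h4 : ⌊(2 : ℝ) ^ J' * (F.box w C g).u ω i⌋ = ⌊(2 : ℝ) ^ J' * (F.box w C g).u ω' i⌋ :=
        congrFun h3.1 i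
      rw [h4]
    · funext i
      change (⌊(2 : ℝ) ^ J' * (F.box w C g).d ω i⌋ : ℝ) / 2 ^ J' =
        (⌊(2 : ℝ) ^ J' * (F.box w C g).d ω' i⌋ : ℝ) / 2 ^ J'
      have h4 : ⌊(2 : ℝ) ^ J' * (F.box w C g).d ω i⌋ = ⌊(2 : ℝ) ^ J' * (F.box w C g).d ω' i⌋ :=
        congrFun h3.2 i
      rw [h4]
  have e2 : H q (fun ω => (v ω, ())) = CH q v (fun _ => ()) := by
    unfold CH
    rw [H_const hl.sum_one]
    ring
  have hmem : ∀ r : ℝ, 0 ≤ r → r < 1 →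
      ⌊(2 : ℝ) ^ J' * r⌋ ∈ (Finset.Ico 0 (2 ^ J') : Finset ℤ) := by
    intro r h0 h1
    rw [Finset.mem_Ico]
    have p0 : (0 : ℝ) < 2 ^ J' := by positivity
    constructor
    · exact Int.floor_nonneg.2 (by positivity)
    · rw [Int.floor_lt]
      push_cast
      nlinarith
  have e3 := CH_le_card hl.nonneg hl.sum_one v (fun _ => ())
    (fun _ => (Fintype.piFinset fun _ : Fin m => (Finset.Ico 0 (2 ^ J') : Finset ℤ)) ×ˢ
      (Fintype.piFinset fun _ : Fin m => (Finset.Ico 0 (2 ^ J') : Finset ℤ))) (by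
    intro ω _
    rw [hv]
    rw [Finset.mem_product, Fintype.mem_piFinset, Fintype.mem_piFinset]
    refine ⟨fun i => ?_, fun i => ?_⟩
    · have := Box.u_mem F w C g ω i
      exact hmem _ this.1 this.2
    · have := Box.d_mem F w C g ω i
      exact hmem _ this.1 this.2)
  rw [Ex_const hl.sum_one] at e3
  have e4 : (((Fintype.piFinset fun _ : Fin m => (Finset.Ico 0 (2 ^ J') : Finset ℤ)) ×ˢ
      (Fintype.piFinset fun _ : Fin m => (Finset.Ico 0 (2 ^ J') : Finset ℤ))).card : ℝ) =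
      2 ^ (2 * m * J') := by
    rw [Finset.card_product, Fintype.card_piFinset]
    simp only [Int.card_Ico, Finset.prod_const, Finset.card_univ, Fintype.card_fin]
    have : ((2 : ℤ) ^ J' - 0).toNat = 2 ^ J' := by
      have h1 : ((2 : ℤ) ^ J' - 0) = ((2 ^ J' : ℕ) : ℤ) := by push_cast; ring
      rw [h1, Int.toNat_natCast]
    rw [this]
    push_cast
    rw [← pow_mul, ← pow_add]
    congr 1
    ring
  rw [e4, Real.log_pow] at e3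
  have h5 : (0 : ℝ) ≤ ((2 * m * J' : ℕ) : ℝ) := Nat.cast_nonneg _
  have h6 : ((2 * m * J' : ℕ) : ℝ) * Real.log 2 ≤ ((2 * m * J' : ℕ) : ℝ) := by nlinarith
  push_cast at h6 e3
  linarith

/-- The positions of the zoom. -/
theorem zm_x (F : Fam m J) {w J' : ℕ} (h : w + J' ≤ J) (C : Crd m κ) (g : F.Ω → κ) (ω : F.Ω)
    (i : Fin m) : |(F.zm w J' h C g).x ω i - (2 ^ w * C.L (g ω) (F.x ω) i - F.bcl w C g ω i -
      (F.box w C g).t ω * F.bvl C g ω i)| ≤ 3 / 2 ^ J' := by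
  have p0 : (0 : ℝ) < 2 ^ J' := by positivity
  have h1 := Box.box_x F (by omega : w ≤ J) C g ω i
  have e1 : 2 ^ w * C.L (g ω) (F.x ω) i - F.bcl w C g ω i -
      (F.box w C g).t ω * F.bvl C g ω i = (F.box w C g).x ω i := by linarith
  rw [e1]
  obtain ⟨u, hu⟩ : ∃ u, u = (F.box w C g).u ω i := ⟨_, rfl⟩
  obtain ⟨d, hd⟩ : ∃ d, d = (F.box w C g).d ω i := ⟨_, rfl⟩
  have hu0 := Box.u_mem F w C g ω i
  have hd0 := Box.d_mem F w C g ω i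
  obtain ⟨t, ht⟩ : ∃ t, t = (F.box w C g).t ω := ⟨_, rfl⟩
  obtain ⟨t', ht'⟩ : ∃ t', t' = (F.zm w J' h C g).t ω := ⟨_, rfl⟩
  have hbt : (F.box w C g).t ω = ((F.box w C g).T ω : ℝ) / 2 ^ (J - w) := rfl
  have hzt : (F.zm w J' h C g).t ω =
    (((F.box w C g).T ω / 2 ^ (J - w - J') : ℕ) : ℝ) / 2 ^ J' := rfl
  have htt : 0 ≤ t - t' ∧ t - t' ≤ 1 / 2 ^ J' := by
    have h2 := Pool.KSAT.T1_real (F.box w C g) (g := J') (by omega) ω
    have h3 : ((F.box w C g).T1 J' ω : ℝ) =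
      (((F.box w C g).T ω / 2 ^ (J - w - J') : ℕ) : ℝ) := rfl
    rw [← ht, h3] at h2
    have h4 : (((F.box w C g).T ω / 2 ^ (J - w - J') : ℕ) : ℝ) = t' * 2 ^ J' := by
      rw [ht', hzt]
      field_simp
    rw [h4] at h2
    constructor
    · have : 0 ≤ 2 ^ J' * (t - t') := by linarith [h2.1]
      exact nonneg_of_mul_nonneg_right this p0
    · rw [le_div_iff₀ p0]
      linarith [h2.2]
  have ht'0 : 0 ≤ t' ∧ t' < 1 := by
    rw [ht']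
    unfold Fam.t
    have := (F.zm w J' h C g).tim ω
    constructor
    · positivity
    · rw [div_lt_one (by positivity)]
      exact_mod_cast this
  have hfl : ∀ r : ℝ, |(⌊(2 : ℝ) ^ J' * r⌋ : ℝ) / 2 ^ J' - r| ≤ 1 / 2 ^ J' := by
    intro r
    have a1 := Int.floor_le ((2 : ℝ) ^ J' * r)
    have a2 := Int.lt_floor_add_one ((2 : ℝ) ^ J' * r)
    have e : (⌊(2 : ℝ) ^ J' * r⌋ : ℝ) / 2 ^ J' - r =
        ((⌊(2 : ℝ) ^ J' * r⌋ : ℝ) - 2 ^ J' * r) / 2 ^ J' := by field_simp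
    rw [e, abs_div, abs_of_pos p0]
    refine div_le_div_of_nonneg_right ?_ p0.le
    rw [abs_le]
    constructor <;> linarith
  have e2 : (F.zm w J' h C g).x ω i = (⌊(2 : ℝ) ^ J' * u⌋ : ℝ) / 2 ^ J' +
      t' * ((⌊(2 : ℝ) ^ J' * d⌋ : ℝ) / 2 ^ J') := by
    rw [hu, hd, ht']
    rfl
  have e3 : (F.box w C g).x ω i = u + t * d := by
    rw [hu, hd, ht]
    rfl
  rw [e2, e3]
  have e4 : (⌊(2 : ℝ) ^ J' * u⌋ : ℝ) / 2 ^ J' + t' * ((⌊(2 : ℝ) ^ J' * d⌋ : ℝ) / 2 ^ J') -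
      (u + t * d) = ((⌊(2 : ℝ) ^ J' * u⌋ : ℝ) / 2 ^ J' - u) +
      t' * ((⌊(2 : ℝ) ^ J' * d⌋ : ℝ) / 2 ^ J' - d) - (t - t') * d := by ring
  rw [e4]
  have b1 := hfl u
  have b2 : |t' * ((⌊(2 : ℝ) ^ J' * d⌋ : ℝ) / 2 ^ J' - d)| ≤ 1 / 2 ^ J' := by
    rw [abs_mul, abs_of_nonneg ht'0.1]
    have := hfl d
    have h0 := abs_nonneg ((⌊(2 : ℝ) ^ J' * d⌋ : ℝ) / 2 ^ J' - d)
    nlinarith [ht'0.2]
  have b3 : |(t - t') * d| ≤ 1 / 2 ^ J' := by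
    rw [← hd] at hd0
    rw [abs_mul, abs_of_nonneg htt.1, abs_of_nonneg hd0.1]
    have h0 : (0 : ℝ) ≤ 1 / 2 ^ J' := by positivity
    nlinarith [htt.2, htt.1, hd0.2, hd0.1]
  have e5 : (3 : ℝ) / 2 ^ J' = 1 / 2 ^ J' + 1 / 2 ^ J' + 1 / 2 ^ J' := by ring
  rw [e5]
  rw [abs_le] at b1 b2 b3 ⊢
  constructor <;> linarith [b1.1, b1.2, b2.1, b2.2, b3.1, b3.2]

/-- The velocities of the zoom. -/
theorem zm_d (F : Fam m J) {w J' : ℕ} (h : w + J' ≤ J) (C : Crd m κ) (g : F.Ω → κ) (ω : F.Ω)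
    (i : Fin m) : |(F.zm w J' h C g).d ω i - (C.L (g ω) (F.d ω) i - F.bvl C g ω i)| ≤
      1 / 2 ^ J' := by
  have p0 : (0 : ℝ) < 2 ^ J' := by positivity
  have h1 := Box.bvl_eq F w C g ω i
  have e1 : C.L (g ω) (F.d ω) i - F.bvl C g ω i = (F.box w C g).d ω i := by linarith
  rw [e1]
  change |(⌊(2 : ℝ) ^ J' * (F.box w C g).d ω i⌋ : ℝ) / 2 ^ J' - (F.box w C g).d ω i| ≤ 1 / 2 ^ J'
  obtain ⟨r, hr⟩ : ∃ r, r = (F.box w C g).d ω i := ⟨_, rfl⟩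
  rw [← hr]
  have a1 := Int.floor_le ((2 : ℝ) ^ J' * r)
  have a2 := Int.lt_floor_add_one ((2 : ℝ) ^ J' * r)
  have e : (⌊(2 : ℝ) ^ J' * r⌋ : ℝ) / 2 ^ J' - r =
      ((⌊(2 : ℝ) ^ J' * r⌋ : ℝ) - 2 ^ J' * r) / 2 ^ J' := by field_simp
  rw [e, abs_div, abs_of_pos p0]
  refine div_le_div_of_nonneg_right ?_ p0.le
  rw [abs_le]
  constructor <;> linarith

end Pool.ZCL
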